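import Pool.Agent.Lib.MP_696deb_nt.QP.D0

/-! Basic facts on the two actions, reciprocity and isotropy of the local conditions. -/

set_option autoImplicit false

open scoped Classical
open Matrix Module

namespace Pool.Agent.Lib.MP_696deb_nt.QP

open Pool.Agent.Lib.MP_696deb_nt.B2

theorem mem_Dr {g : Gam} : g ∈ Dr ↔ g = 1 ∨ g = cc := by
  refine ⟨fun ⟨k, e⟩ => ?_, fun h => ?_⟩
  · have h2 : ∀ a : ℤ, cc ^ (2 * a) = 1 := fun a => by
      rw [_root_.zpow_mul, _root_.zpow_two, cc_mul_cc, _root_.one_zpow]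
    obtain ⟨a, rfl | rfl⟩ := Int.even_or_odd' k
    · exact .inl (e.symm.trans (h2 a))
    · exact .inr (e.symm.trans (by simp only [_root_.zpow_add_one, h2, one_mul]))
  · rcases h with rfl | rfl
    exacts [one_mem _, Subgroup.mem_zpowers _]

theorem closed_Dr : IsClosed (Dr : Set Gam) := by
  rw [show (Dr : Set Gam) = {1, cc} from Set.ext fun _ => mem_Dr]
  exact (Set.toFinite _).isClosed

theorem op_top : Op (⊤ : Subgroup Gam) := isOpen_univ

/-- The reciprocity law over the rational numbers. -/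
theorem recipQ (F : CFT) {S : Finset ℕ} (hS : ∀ p ∈ S, p.Prime) {m : ℕ}
    {c : Gam → Gam → ZMod (2 ^ m)} (h1 : C2 m ⊤ c) (h2 : Spl m Dr c)
    (h3 : ∀ w : Plc, w.p ∉ S → Spl m (Dec w) c) : ∑ p ∈ S, F.inv m ⊤ (pq p) c = 0 := by
  have inj : Set.InjOn pq S := fun p hp q hq e => by
    rw [← pq_p (hS p hp), e, pq_p (hS q hq)]
  rw [← Finset.sum_image (g := pq) (f := fun w => F.inv m ⊤ w c) inj]
  refine F.recip _ op_top h1 (.inr ⟨rfl, h2⟩) (fun v hv w hw g _ e => ?_) fun w hw => ?_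
  · obtain ⟨p, hp, rfl⟩ := Finset.mem_image.1 hv
    obtain ⟨q, hq, rfl⟩ := Finset.mem_image.1 hw
    rw [← pq_p (hS p hp), ← smul_p g, e, pq_p (hS q hq)]
  · refine (F.zero_iff op_top (h1.mono inf_le_left)).2 ?_
    rw [top_inf_eq]
    refine h3 w fun k => ?_
    obtain ⟨g, hg⟩ := plc_conj (pq_p w.prime)
    exact hw _ (Finset.mem_image_of_mem pq k) g trivial hg

theorem B4bG.mono {D D' : Subgroup Gam} {u : Gam → ZMod 2} (h : B4bG D u) (k : D' ≤ D) :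
    B4bG D' u := ⟨h.1.mono k, fun g hg a ha => h.2 g (k hg) a (k ha)⟩

theorem pr_add_left (F : CFT) {S : Finset ℕ} {u u' : ℕ → Gam → ZMod 2} {b : Gam → ZMod 2}
    (h : ∀ p ∈ S, B4bG (Dec (pq p)) (u p)) (h' : ∀ p ∈ S, B4bG (Dec (pq p)) (u' p))
    (hb : B4bG ⊤ b) : pr F S (u + u') b = pr F S u b + pr F S u' b := by
  rw [pr, pr, pr, ← Finset.sum_add_distrib]
  exact Finset.sum_congr rfl fun p hp => b4bS_add_left F op_top (B4bG.mono (h p hp) inf_le_right)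
    (B4bG.mono (h' p hp) inf_le_right) (B4bG.mono hb inf_le_left)

theorem pr_add_right (F : CFT) {S : Finset ℕ} {u : ℕ → Gam → ZMod 2} {b b' : Gam → ZMod 2}
    (h : ∀ p ∈ S, B4bG (Dec (pq p)) (u p)) (hb : B4bG ⊤ b) (hb' : B4bG ⊤ b') :
    pr F S u (b + b') = pr F S u b + pr F S u b' := by
  rw [pr, pr, pr, ← Finset.sum_add_distrib]
  exact Finset.sum_congr rfl fun p hp => b4bS_add_right F op_top (B4bG.mono (h p hp) inf_le_right)
    (B4bG.mono hb inf_le_left) (B4bG.mono hb' inf_le_left)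

/-- Reduction modulo two. -/
def rd (m : ℕ) : ZMod (2 ^ (m + 1)) →+* ZMod 2 := ZMod.castHom (dvd_pow_self 2 m.succ_ne_zero) _

theorem rd_zero {m : ℕ} {x : ZMod (2 ^ (m + 1))} : 2 ^ m * x = 0 ↔ rd m x = 0 := by
  obtain ⟨a, rfl⟩ := ZMod.natCast_zmod_surjective x
  rw [map_natCast, ZMod.natCast_eq_zero_iff, show (2 : ZMod (2 ^ (m + 1))) ^ m * a = (2 ^ m * a : ℕ) by
    push_cast; rfl, ZMod.natCast_eq_zero_iff, pow_succ, Nat.mul_dvd_mul_iff_left (by positivity)]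

theorem rd_eq {m : ℕ} {x y : ZMod (2 ^ (m + 1))} : 2 ^ m * x = 2 ^ m * y ↔ rd m x = rd m y := by
  rw [← sub_eq_zero, ← mul_sub, rd_zero, map_sub, sub_eq_zero]

theorem rd_half {m : ℕ} {x : ZMod (2 ^ (m + 1))} (h : 2 • x = 0) : ∃ y, x = 2 ^ m * y := by
  obtain ⟨a, rfl⟩ := ZMod.natCast_zmod_surjective x
  rw [nsmul_eq_mul, ← Nat.cast_mul, ZMod.natCast_eq_zero_iff, pow_succ',
    Nat.mul_dvd_mul_iff_left two_pos] at h
  obtain ⟨b, rfl⟩ := h
  exact ⟨b, by push_cast; rfl⟩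

theorem rd_det : ∀ a b : Fin 2 → ZMod 2, a ≠ 0 → (det2 a b = 0 ↔ b = 0 ∨ b = a) := by
  unfold det2
  decide

namespace Pd

variable {A : Type} [AddCommGroup A] (P : Pd A) {j : Bool} {n : ℕ} {x y : A} {D D' : Subgroup Gam}
  {c : Gam → A} {u v : Gam → ZMod 2}

include P in
theorem half (x : A) : ∃ y, 2 • y = x := by
  obtain ⟨y, rfl⟩ := P.om_surj true x
  obtain ⟨z, rfl⟩ := P.om_surj false y
  exact ⟨z, (P.om_om true z).symm⟩

theorem K_mono (n : ℕ) : P.K n ≤ P.K (n + 1) := by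
  induction n with
  | zero => exact fun x h => (P.K_one x).2 (.inl ((P.K_zero x).1 h))
  | succ n ih => exact fun x h => (P.K_succ true _ x).2 (ih ((P.K_succ true _ x).1 h))

theorem K_le {n n' : ℕ} (h : n ≤ n') : P.K n ≤ P.K n' := monotone_nat_of_le_succ P.K_mono h

theorem T_mem (n : ℕ) : P.T ∈ P.K (n + 1) := P.K_le (Nat.le_add_left 1 n) ((P.K_one _).2 (.inr rfl))

theorem act_K (j : Bool) (g : Gam) (n : ℕ) (x : A) : P.act j g x ∈ P.K n ↔ x ∈ P.K n := by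
  induction n generalizing j x with
  | zero =>
    rw [P.K_zero, P.K_zero]
    refine ⟨fun h => ?_, fun h => by rw [h, map_zero]⟩
    rw [← (P.s j).act_one x, ← inv_mul_cancel g, (P.s j).act_mul, h, map_zero]
  | succ n ih =>
    have := P.om_act (!j) g x
    rw [Bool.not_not] at this
    rw [P.K_succ (!j), P.K_succ (!j), this, ih]

theorem K_two (n : ℕ) (x : A) : x ∈ P.K (n + 2) ↔ 2 • x ∈ P.K n := by
  rw [P.K_succ false, P.K_succ true, ← P.om_om true]; rfl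

theorem K_pow (m n : ℕ) (x : A) : x ∈ P.K (2 * m + n) ↔ 2 ^ m • x ∈ P.K n := by
  induction m generalizing x with
  | zero => simp
  | succ m ih => rw [show 2 * (m + 1) + n = 2 * m + n + 2 by ring, P.K_two, ih, pow_succ, mul_smul]

theorem K_even (m : ℕ) (x : A) : x ∈ P.K (2 * m) ↔ 2 ^ m • x = 0 := (P.K_pow m 0 x).trans (P.K_zero _)

theorem om_eq_zero (j : Bool) (x : A) : P.om j x = 0 ↔ x ∈ P.K 1 := by
  rw [P.K_succ j, P.K_zero]

theorem bt_om (j : Bool) (n : ℕ) (x : A) : P.bt n (P.om j x) = P.bt (n + 1) x := by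
  simp only [bt, P.K_succ j]

theorem bt_two (n : ℕ) (x : A) : P.bt n (2 • x) = P.bt (n + 2) x := by
  simp only [bt, P.K_two]

theorem bt_act (j : Bool) (g : Gam) (n : ℕ) (x : A) : P.bt n (P.act j g x) = P.bt n x := by
  simp only [bt, P.act_K]

theorem bt_eq_zero : P.bt n x = 0 ↔ x ∈ P.K n := by
  simp [bt]

theorem eq_bt (hx : x ∈ P.K 1) : x = (P.bt 0 x).val • P.T := by
  rcases (P.K_one x).1 hx with rfl | rfl
  · rw [bt, if_pos (zero_mem _), ZMod.val_zero, zero_smul]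
  · rw [bt, if_neg (mt (P.K_zero _).1 P.T_ne), ZMod.val_one, one_smul]

theorem bt_T (a : ZMod 2) : P.bt 0 (a.val • P.T) = a := by
  rcases b4b_cases a with rfl | rfl
  · rw [ZMod.val_zero, zero_smul, bt, if_pos (zero_mem _)]
  · rw [ZMod.val_one, one_smul, bt, if_neg (mt (P.K_zero _).1 P.T_ne)]

theorem bt_add (hx : x ∈ P.K (n + 1)) (hy : y ∈ P.K (n + 1)) :
    P.bt n (x + y) = P.bt n x + P.bt n y := by
  induction n generalizing x y with
  | zero =>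
    have := congrFun (P.tT_add (fun _ => P.bt 0 x) fun _ => P.bt 0 y) 1
    conv_lhs => rw [P.eq_bt hx, P.eq_bt hy]
    exact (congrArg _ this.symm).trans (P.bt_T _)
  | succ n ih =>
    rw [← P.bt_om true, ← P.bt_om true, ← P.bt_om true, map_add]
    exact ih ((P.K_succ _ _ _).1 hx) ((P.K_succ _ _ _).1 hy)

theorem bt_add_low (x : A) (hy : y ∈ P.K n) : P.bt n (x + y) = P.bt n x := by
  simp only [bt, (P.K n).add_mem_cancel_right hy]

theorem tT_mem (u : Gam → ZMod 2) (g : Gam) : P.tT u g ∈ P.K 1 := nsmul_mem (P.T_mem 0) _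

theorem act_tT (j : Bool) (g : Gam) (u : Gam → ZMod 2) (h : Gam) :
    P.act j g (P.tT u h) = P.tT u h := by
  rw [tT, map_nsmul, P.act_T]

theorem tT_self (u : Gam → ZMod 2) : P.tT u + P.tT u = 0 := by
  funext g
  rw [Pi.add_apply, ← two_nsmul, tT, smul_comm, P.two_T, smul_zero, Pi.zero_apply]

theorem tp_tT (u : Gam → ZMod 2) : P.tp 0 (P.tT u) = u := funext fun g => P.bt_T (u g)

theorem oc_tT (j : Bool) (u : Gam → ZMod 2) : P.oc j (P.tT u) = 0 := funext fun g => (P.om_eq_zero j _).2 (P.tT_mem u g)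

theorem tT_coc (j : Bool) (h : B4bG ⊤ u) : P.tT u ∈ P.Coc j := ⟨h.1.comp fun a => a.val • P.T, fun g k => by
  rw [P.act_tT, tT, h.2 g trivial k trivial]
  exact congrFun (P.tT_add (fun _ => u g) fun _ => u k) 1⟩

/-- The top digit of a cocycle on a subgroup is a character. -/
theorem tp_hom (h1 : Sm D c) (h2 : ∀ g ∈ D, ∀ h ∈ D, c (g * h) = c g + P.act j g (c h))
    (h3 : ∀ g ∈ D, c g ∈ P.K (n + 1)) : B4bG D (P.tp n c) := ⟨h1.comp _, fun g hg k hk => by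
  rw [tp, h2 g hg k hk, P.bt_add (h3 g hg) ((P.act_K _ _ _ _).2 (h3 k hk)), P.bt_act]; rfl⟩

theorem sm2_act (j : Bool) (h : Sm D c) : Sm2 D fun g k => P.act j g (c k) := by
  have := h.finite_range.to_subtype
  obtain ⟨U, h1, h2, h3⟩ := (Sm.pi fun x : c '' (D : Set Gam) => (P.s j).sm x.1).mono (le_top (a := D))
  obtain ⟨V, k1, k2, k3⟩ := h
  refine ⟨U ⊓ V, b1a_inf h1 k1, inferInstance, fun a ha b hb d hd e he x y => ?_⟩
  simp only [k3 d hd e he y.2]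
  exact congrFun (h3 a ha b hb x.1) ⟨c e, e, he, rfl⟩

/-- The coboundary of a point. -/
def cb (j : Bool) (S : A) (g : Gam) : A := P.act j g S - S

theorem cb_coc (j : Bool) (S : A) : P.cb j S ∈ P.Coc j := ⟨((P.s j).sm S).comp (· - S), fun g k => by
  simp only [cb, map_sub, (P.s j).act_mul]; abel⟩

theorem cb_mem (j : Bool) (S : A) : P.cb j S ∈ P.Zi j := P.mem_Zi.2 ⟨P.cb_coc j S, ⟨S, fun _ _ => rfl⟩, fun _ => ⟨S, fun _ _ => rfl⟩⟩

theorem LC_mono (h : c ∈ P.LC j D) (k : D' ≤ D) : c ∈ P.LC j D' := h.imp fun _ e g hg => e g (k hg)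

theorem LC_congr {c' : Gam → A} (h : c ∈ P.LC j D) (k : ∀ g ∈ D, c' g = c g) : c' ∈ P.LC j D := 
  h.imp fun _ e g hg => (k g hg).trans (e g hg)

theorem L_mono (h : u ∈ P.L j D) (k : D' ≤ D) : u ∈ P.L j D' := ⟨B4bG.mono h.1 k, P.LC_mono h.2 k⟩

theorem L_congr (h : u ∈ P.L j D) (k : ∀ g ∈ D, v g = u g) : v ∈ P.L j D := 
  ⟨⟨h.1.1.congr fun g hg => (k g hg).symm, fun g hg a ha => by
    rw [k g hg, k a ha, k _ (mul_mem hg ha), h.1.2 g hg a ha]⟩,
    P.LC_congr h.2 fun g hg => by rw [tT, k g hg, tT]⟩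

/-- The local condition of a global cocycle depends only on the prime below. -/
theorem LC_conj {w w' : Plc} (hc : c ∈ P.Coc j) (h : c ∈ P.LC j (Dec w)) (e : w.p = w'.p) :
    c ∈ P.LC j (Dec w') := by
  obtain ⟨k, rfl⟩ := plc_conj e
  obtain ⟨S, hS⟩ := h
  refine ⟨P.act j k S - c k, fun g hg => ?_⟩
  have h1 := hc.2 g k
  have h2 := hc.2 k (k⁻¹ * g * k)
  rw [hS _ (mem_Dec_smul.1 hg), map_sub, ← (P.s j).act_mul, ← mul_assoc, mul_inv_cancel_left, h1,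
    (P.s j).act_mul] at h2
  rw [map_sub, eq_sub_of_add_eq h2]
  abel

theorem oc_Coc (h : c ∈ P.Coc (!j)) : P.oc j c ∈ P.Coc j := ⟨h.1.comp (P.om j), fun g k => by
  simp only [oc_apply, h.2 g k, map_add, P.om_act]⟩

theorem oc_LC (h : c ∈ P.LC (!j) D) : P.oc j c ∈ P.LC j D := by
  obtain ⟨S, hS⟩ := h
  exact ⟨P.om j S, fun g hg => by rw [oc_apply, hS g hg, map_sub, P.om_act]⟩

theorem oc_Zi (h : c ∈ P.Zi (!j)) : P.oc j c ∈ P.Zi j := by
  rw [mem_Zi] at h ⊢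
  exact ⟨P.oc_Coc h.1, P.oc_LC h.2.1, fun w => P.oc_LC (h.2.2 w)⟩

theorem lift_LC (h : c ∈ P.LC j D) : ∃ S, ∀ g ∈ D, c g = P.om j (P.cb (!j) S g) := by
  obtain ⟨S, hS⟩ := h
  obtain ⟨S, rfl⟩ := P.om_surj j S
  exact ⟨S, fun g hg => by rw [hS g hg, cb, map_sub, P.om_act]⟩

theorem mem_Sel_iff (h : B4bG ⊤ u) : u ∈ P.Sel j ↔ P.tT u ∈ P.Zi j := by
  rw [mem_Sel, mem_Zi]
  exact ⟨fun k => ⟨P.tT_coc j h, k.2.1.2, fun w => (k.2.2 w).2⟩,
    fun k => ⟨h, ⟨B4bG.mono h le_top, k.2.1⟩, fun w => ⟨B4bG.mono h le_top, k.2.2 w⟩⟩⟩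

/-- The Weil pairing with the rational point of order two reads the top digit. -/
theorem eT (j : Bool) {M m : ℕ} (hM : M = m + 1) {t : Vm M} (ht : (P.s j).emb M t = P.T)
    (x : Vm M) :
    det2 t x = 2 ^ m * ((P.bt (2 * m + 1) ((P.s j).emb M x)).val : ZMod (2 ^ M)) := by
  subst hM
  have h2 : 2 • t = 0 := (P.s j).inj _ (by rw [map_nsmul, ht, P.two_T, map_zero])
  choose s hs using fun i => rd_half (congrFun h2 i)
  have h3 : (fun i => rd m (s i)) ≠ 0 := fun e => P.T_ne (by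
    rw [← ht, show t = 0 from funext fun i => (hs i).trans (rd_zero.2 (congrFun e i)), map_zero])
  have h4 : ∀ i, (2 ^ m • x) i = 2 ^ m * x i := fun i => by
    rw [Pi.smul_apply, nsmul_eq_mul]; push_cast; rfl
  have h5 := rd_det _ (fun i => rd m (x i)) h3
  rw [show det2 t x = 2 ^ m * det2 s x by simp only [det2, hs]; ring, rd_eq, map_natCast,
    ZMod.natCast_zmod_val]
  refine (by decide : ∀ a b : ZMod 2, (a = 0 ↔ b = 0) → a = b) _ _ ?_
  rw [P.bt_eq_zero, P.K_pow, ← map_nsmul, P.K_one, ← ht, ← map_zero ((P.s j).emb (m + 1)),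
    ((P.s j).inj _).eq_iff, ((P.s j).inj _).eq_iff, funext_iff, funext_iff]
  simp only [h4, hs, rd_eq, Pi.zero_apply, rd_zero]
  simpa only [det2, map_sub, map_mul, funext_iff, Pi.zero_apply] using h5

/-- The local conditions of the two sides are orthogonal. -/
theorem orth (hD : IsClosed (D : Set Gam)) (hu : u ∈ P.L (!j) D) (hv : v ∈ P.L j D) :
    Spl 1 D (fun g k => u g * v k : Gam → Gam → ZMod 2) := by
  obtain ⟨S, hS⟩ := hu.2
  obtain ⟨S', hS'⟩ := P.lift_LC hv.2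
  obtain ⟨t, ht⟩ := (P.s (!j)).surj 1 P.T P.two_T
  have k : ∀ g, ∃ y, g ∈ D → (P.s (!j)).emb 1 y = P.cb (!j) S' g := fun g => by
    by_cases hg : g ∈ D
    · obtain ⟨y, hy⟩ := (P.s (!j)).surj 1 (P.cb (!j) S' g)
        ((P.K_even 1 _).1 ((P.K_succ j 1 _).2 (hS' g hg ▸ P.tT_mem v g)))
      exact ⟨y, fun _ => hy⟩
    · exact ⟨0, fun e => absurd e hg⟩
  choose y hy using k
  obtain ⟨b, b1, b2⟩ := (P.s (!j)).iso 1 D (fun g => (u g).val • t) y S S' hD
    (fun g hg => by rw [map_nsmul, ht]; exact hS g hg) hy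
  refine ⟨b, b1, fun g hg k hk => Eq.trans ?_ (b2 g hg k hk)⟩
  have e := P.eT (!j) (M := 1) (m := 0) rfl ht ((P.s (!j)).r 1 g *ᵥ y k)
  rw [← (P.s (!j)).smul, P.bt_act, hy k hk, ← P.bt_om j, ← hS' k hk, tT, P.bt_T, pow_zero, one_mul]
    at e
  beta_reduce
  rw [show ∀ (n : ℕ) (a b : Vm 1), det2 (n • a) b = n * det2 a b from fun n a b => by
    simp only [det2, Pi.smul_apply, nsmul_eq_mul]; ring, e]
  generalize u g = a, v k = d
  revert a d
  decide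

theorem orth_inv (F : CFT) {w : Plc} (hu : u ∈ P.L (!j) (Dec w)) (hv : v ∈ P.L j (Dec w)) :
    b4bS F ⊤ w u v = 0 := by
  refine (F.zero_iff op_top ((B4bG.mono hu.1 inf_le_right).c2 (B4bG.mono hv.1 inf_le_right))).2 ?_
  rw [top_inf_eq]
  exact P.orth (closed_Dec w) hu hv

theorem orth_inf (hu : u ∈ P.L (!j) Dr) (hv : v ∈ P.L j Dr) : u cc * v cc = 0 := by
  obtain ⟨b, -, hb⟩ := P.orth closed_Dr hu hv
  have h1 := hb 1 (one_mem _) 1 (one_mem _)
  have h2 := hb cc (mem_Dr.2 (.inr rfl)) cc (mem_Dr.2 (.inr rfl))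
  have h3 := hu.1.2 1 (one_mem _) 1 (one_mem _)
  simp only [cy_one_eq, one_mul, cc_mul_cc, add_sub_cancel_right] at h1 h2 h3
  change (u 1 * v 1 : ZMod 2) = b 1 at h1
  change (u cc * v cc : ZMod 2) = b cc + b cc - b 1 at h2
  rw [h2, ← h1, left_eq_add.1 h3]
  generalize (b cc : ZMod 2) = a, v 1 = d
  revert a d
  decide

/-- Global characters that satisfy the local conditions outside of `S` are orthogonal. -/
theorem pr_glob (F : CFT) {S : Finset ℕ} (hS : ∀ p ∈ S, p.Prime) (u1 : B4bG ⊤ u)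
    (u2 : u ∈ P.L (!j) Dr) (u3 : ∀ w : Plc, w.p ∉ S → u ∈ P.L (!j) (Dec w)) (v1 : B4bG ⊤ v)
    (v2 : v ∈ P.L j Dr) (v3 : ∀ w : Plc, w.p ∉ S → v ∈ P.L j (Dec w)) :
    pr F S (fun _ => u) v = 0 := 
  recipQ F hS (m := 1) (u1.c2 v1) (P.orth closed_Dr u2 v2) fun w hw =>
    P.orth (closed_Dec w) (u3 w hw) (v3 w hw)

end Pd

end Pool.Agent.Lib.MP_696deb_nt.QP
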