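import Pool.Agent.Lib.MP_696deb_nt.QP.C2
import Pool.Agent.Lib.MP_696deb_nt.QP.A1

/-! The descent map in coordinates. -/

set_option autoImplicit false

open scoped Classical
open Matrix Module

namespace Pool.Agent.Lib.MP_696deb_nt.QP

open Pool.Agent.Lib.MP_696deb_nt.B2 (Qbar Gam Plc Dec Ine Sm B4bG mred rt xi Fx)
open Pool.Agent.B6

theorem c3_ro (j : Bool) : ro j ^ 4 = cond j (-4) 1 := by
  have h := B2.rt_sq (-1)
  push_cast at h
  cases j
  · simp [ro]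
  · simp only [ro, cond_true]
    linear_combination (rt (-1) ^ 2 - 4 * rt (-1) + 5) * h

theorem c3_ro_ne (j : Bool) : ro j ≠ 0 := fun e => by
  have h := c3_ro j
  rw [e] at h
  cases j <;> norm_num at h

variable {D : ℤ} {hD : D ≠ 0} {P : Pd (AD D hD)}

theorem c3_pt {x y : Qbar} (h : y ^ 2 = x ^ 3 - D * x) :
    ∃ Q : AD D hD, xco Q = x ∧ yco Q = y := by
  let := cw D hD
  refine ⟨.some x y ((Wu_nonsingular x y).2 ?_), rfl, rfl⟩
  change y ^ 2 + (0 : ℤ) * x * y + (0 : ℤ) * y = x ^ 3 + (0 : ℤ) * x ^ 2 + (-D : ℤ) * x + (0 : ℤ)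
  push_cast
  linear_combination h

theorem c3_ext {Q Q' : AD D hD} (h0 : xco Q' ≠ 0) (hx : xco Q = xco Q') (hy : yco Q = yco Q') :
    Q = Q' := by
  let := cw D hD
  refine r0_ext ?_ ?_ hx hy <;> rintro rfl
  exacts [h0 hx.symm, h0 rfl]

theorem Cq.addT (h : Cq P) {x : AD D hD} (hx : x ∉ P.K 1) : xco x * xco (x + P.T) = -D ∧
    ∃ l, yco x = l * xco x ∧ yco (x + P.T) = -l * xco (x + P.T) := by
  let := cw D hD
  rw [P.K_one, not_or] at hx
  have h0 : x + P.T ≠ 0 := fun e => hx.2 (add_right_cancel (e.trans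
    ((two_nsmul P.T).symm.trans P.two_T).symm))
  obtain ⟨l, ν, e1, e2, e3, -, e5⟩ := r0_line hx.1 P.T_ne h0
  rw [r0_neg h0] at e3
  rw [h.Tx] at e2 e5
  rw [h.Ty] at e2
  obtain rfl : ν = 0 := by linear_combination -e2
  simp only [WZ, Cw.W] at e3 e5
  push_cast at e3 e5
  exact ⟨by linear_combination e5, l, by linear_combination e1, by linear_combination -e3⟩

theorem c3_key {j : Bool} {H : Subgroup Gam} {a : ℤ} {z : Qbar} (S : AD D hD) (ha : a ≠ 0)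
    (hz : z ^ 2 = a) (h : ∀ g ∈ H, (P.act j g S = S ∧ g z = z) ∨
      (P.act j g S = S + P.T ∧ g z = -z)) : B2.xi a ∈ P.L j H := by
  have z0 : z ≠ 0 := by
    rintro rfl
    exact ha (by exact_mod_cast hz.symm.trans (zero_pow two_ne_zero))
  refine ⟨B2.B4bG.xi H a, S, fun g hg => ?_⟩
  rcases h g hg with ⟨e, k⟩ | ⟨e, k⟩
  · rw [Pd.tT, B2.xi_eq_zero.2 (B2.b1b_chi_of hz z0 (by simpa using k)), e]
    simp
  · rw [Pd.tT, B2.xi_eq_one.2 (B2.b1b_chi_of hz z0 (by simpa using k)), e, ZMod.val_one]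
    simp

theorem Cq.tau (h : Cq P) (j : Bool) : B2.xi (Pd.be D j) ∈ P.L j ⊤ := by
  have r1 := B2.rt_sq D
  have r0 := B2.b1b_rt_ne hD
  have r2 := c3_ro j
  have r3 := c3_ro_ne j
  obtain ⟨S, sx, sy⟩ := c3_pt (D := D) (hD := hD) (x := rt D) (y := 0)
    (by linear_combination (-rt D) * r1)
  have hS : S ∉ P.K 1 := by
    rw [P.K_one]
    rintro (rfl | rfl)
    exacts [r0 sx.symm, r0 (sx.symm.trans h.Tx)]
  obtain ⟨a1, l, a2, a3⟩ := h.addT hS
  rw [sx] at a1 a2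
  have l0 : l = 0 := by simpa [sy, r0] using a2
  have a4 : xco (S + P.T) = -rt D := mul_left_cancel₀ r0 (by linear_combination a1 + r1)
  obtain ⟨c, c0, hc⟩ : ∃ c : ℚ, c ≠ 0 ∧ (c * (rt D * ro j ^ 2)) ^ 2 = (Pd.be D j : Qbar) := by
    cases j
    · refine ⟨2, two_ne_zero, ?_⟩
      simp only [Pd.be, cond_false] at r2 ⊢
      push_cast
      linear_combination 4 * rt D ^ 2 * r2 + 4 * r1
    · refine ⟨1 / 2, by norm_num, ?_⟩
      simp only [Pd.be, cond_true] at r2 ⊢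
      push_cast
      linear_combination rt D ^ 2 / 4 * r2 - r1
  have b0 : Pd.be D j ≠ 0 := by cases j <;> simp [Pd.be, hD]
  refine c3_key S b0 hc fun g _ => ?_
  have ex := h.actx j g S
  have ey := h.acty j g S
  rw [sy, zero_mul, map_zero] at ey
  have y0 : yco (P.act j g S) = 0 := by simpa [r3] using ey
  have c1 : (c : Qbar) ≠ 0 := by exact_mod_cast c0
  have k : g (c * (rt D * ro j ^ 2)) = c * (xco (P.act j g S) * ro j ^ 2) := by
    rw [map_mul, map_ratCast, ex, sx]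
  have m0 := mul_ne_zero c1 (pow_ne_zero 2 r3)
  rcases sq_eq_sq_iff_eq_or_eq_neg.1 (show g (c * (rt D * ro j ^ 2)) ^ 2 =
    (c * (rt D * ro j ^ 2)) ^ 2 by rw [← map_pow, hc, map_intCast]) with e | e
  · exact .inl ⟨c3_ext (sx ▸ r0) (mul_left_cancel₀ m0 (by rw [sx]; linear_combination e - k))
      (y0.trans sy.symm), e⟩
  · exact .inr ⟨c3_ext (a4 ▸ neg_ne_zero.2 r0)
      (mul_left_cancel₀ m0 (by rw [a4]; linear_combination e - k)) (by simp [y0, a3, l0]), e⟩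

theorem Cq.pts (h : Cq P) (j : Bool) (H : Subgroup Gam) (a : ℤ) (y : Qbar) (ha : a ≠ 0)
    (hy : Fx H y) (e : y ^ 2 = a * (a ^ 2 + Pd.be D j)) : B2.xi a ∈ P.L j H := by
  have r2 := c3_ro (!j)
  have r3 := c3_ro_ne (!j)
  have r4 := c3_ro_ne j
  have a0 : (a : Qbar) ≠ 0 := by exact_mod_cast ha
  obtain ⟨Q, qx, qy⟩ := c3_pt (D := D) (hD := hD) (x := a / ro (!j) ^ 2) (y := y / ro (!j) ^ 3) (by
    have : (Pd.be D j : Qbar) = -D * ro (!j) ^ 4 := by
      rw [r2]; cases j <;> simp [Pd.be, mul_comm]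
    field_simp
    rw [e, this]; ring)
  have q0 : xco Q ≠ 0 := qx ▸ div_ne_zero a0 (pow_ne_zero _ r3)
  rw [eq_div_iff (pow_ne_zero _ r3)] at qx qy
  obtain ⟨S, rfl⟩ := P.om_surj (!j) Q
  have hS : S ∉ P.K 1 := fun k => q0 (by rw [(P.om_eq_zero _ _).2 k]; rfl)
  obtain ⟨a1, l, a2, a3⟩ := h.addT hS
  have d0 : (-D : Qbar) ≠ 0 := neg_ne_zero.2 (by exact_mod_cast hD)
  obtain ⟨x1, x2⟩ := mul_ne_zero_iff.1 (a1 ▸ d0)
  have o1 := h.omx (!j) S hS
  rw [qx, Bool.not_not, a2, ← mul_assoc, mul_div_cancel_right₀ _ x1] at o1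
  obtain ⟨c, hc⟩ : ∃ c : ℚ, (c * (ro j * l)) ^ 2 = (a : Qbar) := by
    cases j
    · refine ⟨1, ?_⟩
      simp only [Bool.not_false, cond_true] at o1
      push_cast
      linear_combination -o1
    · refine ⟨1 / 2, ?_⟩
      simp only [Bool.not_true, cond_false] at o1
      push_cast
      linear_combination -o1 / 4
  refine c3_key S ha hc fun g hg => ?_
  have f1 : P.act (!j) g (P.om (!j) S) = P.om (!j) S :=
    c3_ext q0 (mul_right_cancel₀ (pow_ne_zero 2 r3) (by rw [h.actx, qx, map_intCast]))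
      (mul_right_cancel₀ (pow_ne_zero 3 r3) (by rw [h.acty, qy, hy g hg]))
  have f2 := P.om_act (!j) g S
  rw [Bool.not_not] at f2
  have f3 : P.act j g S - S ∈ P.K 1 :=
    (P.om_eq_zero (!j) _).1 (by rw [map_sub, f2, sub_eq_zero]; exact f1)
  have ey := h.acty j g S
  rw [show yco S * ro j ^ 3 = ro j * l * (xco S * ro j ^ 2) by rw [a2]; ring, map_mul,
    ← h.actx] at ey
  rw [map_mul, map_ratCast]
  rcases (P.K_one _).1 f3 with k | k
  · rw [sub_eq_zero] at k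
    rw [k, a2] at ey
    refine .inl ⟨k, mul_left_cancel₀ (mul_ne_zero x1 (pow_ne_zero 2 r4)) ?_⟩
    linear_combination (-c : Qbar) * ey
  · rw [sub_eq_iff_eq_add'] at k
    rw [k, a3] at ey
    refine .inr ⟨k, mul_left_cancel₀ (mul_ne_zero x2 (pow_ne_zero 2 r4)) ?_⟩
    linear_combination (-c : Qbar) * ey

theorem Cq.lq {D : ℤ} {hD : D ≠ 0} {P : Pd (AD D hD)} (h : Cq P) : P.Lq D :=
  ⟨h.good, h.tau, h.pts⟩

end Pool.Agent.Lib.MP_696deb_nt.QP
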