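import Pool.Agent.Lib.MP_696deb_nt.QP.H2

/-! Duality and the parity of the first layer. -/

set_option autoImplicit false

open scoped Classical
open Matrix Module

namespace Pool.Agent.Lib.MP_696deb_nt.QP

open Pool.Agent.Lib.MP_696deb_nt.B2

/-- The space of all local coordinates. -/
abbrev H3V (ι : Type) : Type := (ι → ZMod 2) × (ι → ZMod 2) × (Fin 3 → ZMod 2)

/-- The sum of the Gram forms. -/
def h3B {ι : Type} [Fintype ι] (ε : ι → ZMod 2) :
    H3V ι →ₗ[ZMod 2] H3V ι →ₗ[ZMod 2] ZMod 2 :=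
  LinearMap.mk₂ (ZMod 2) (fun x y => (x.2.2 0 * y.2.2 0 + x.2.2 1 * y.2.2 2 + x.2.2 2 * y.2.2 1) +
      ∑ i, (x.1 i * y.2.1 i + x.2.1 i * y.1 i + ε i * (x.2.1 i * y.2.1 i)))
    (fun x x' y => by
      rw [add_add_add_comm, ← Finset.sum_add_distrib]
      simp only [Prod.fst_add, Prod.snd_add, Pi.add_apply]
      congr 1
      · ring
      · exact Finset.sum_congr rfl fun i _ => by ring)
    (fun a x y => by
      simp only [Prod.smul_fst, Prod.smul_snd, Pi.smul_apply, smul_eq_mul]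
      rw [mul_add, Finset.mul_sum]
      congr 1
      · ring
      · exact Finset.sum_congr rfl fun i _ => by ring)
    (fun x y y' => by
      rw [add_add_add_comm, ← Finset.sum_add_distrib]
      simp only [Prod.fst_add, Prod.snd_add, Pi.add_apply]
      congr 1
      · ring
      · exact Finset.sum_congr rfl fun i _ => by ring)
    (fun a x y => by
      simp only [Prod.smul_fst, Prod.smul_snd, Pi.smul_apply, smul_eq_mul]
      rw [mul_add, Finset.mul_sum]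
      congr 1
      · ring
      · exact Finset.sum_congr rfl fun i _ => by ring)

theorem h3B_apply {ι : Type} [Fintype ι] (ε : ι → ZMod 2) (x y : H3V ι) :
    h3B ε x y = (x.2.2 0 * y.2.2 0 + x.2.2 1 * y.2.2 2 + x.2.2 2 * y.2.2 1) +
      ∑ i, (x.1 i * y.2.1 i + x.2.1 i * y.1 i + ε i * (x.2.1 i * y.2.1 i)) := rfl

theorem h3B_symm {ι : Type} [Fintype ι] (ε : ι → ZMod 2) (x y : H3V ι) :
    h3B ε x y = h3B ε y x := by
  rw [h3B_apply, h3B_apply]
  congr 1
  · ring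
  · exact Finset.sum_congr rfl fun i _ => by ring

theorem h3B_nd {ι : Type} [Fintype ι] (ε : ι → ZMod 2) (x : H3V ι) (h : ∀ y, h3B ε x y = 0) :
    x = 0 := by
  obtain ⟨a, b, c⟩ := x
  have hb : b = 0 := funext fun i => by
    simpa [h3B_apply, Pi.single_apply] using h (Pi.single i 1, 0, 0)
  subst hb
  have ha : a = 0 := funext fun i => by
    simpa [h3B_apply, Pi.single_apply] using h (0, Pi.single i 1, 0)
  subst ha
  have c0 : c 0 = 0 := by simpa [h3B_apply] using h (0, 0, ![1, 0, 0])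
  have c1 : c 1 = 0 := by simpa [h3B_apply] using h (0, 0, ![0, 0, 1])
  have c2 : c 2 = 0 := by simpa [h3B_apply] using h (0, 0, ![0, 1, 0])
  have hc : c = 0 := funext fun i => by fin_cases i <;> assumption
  rw [hc]
  rfl

theorem h3_le {W V : Type} [AddCommGroup W] [Module (ZMod 2) W] [AddCommGroup V]
    [Module (ZMod 2) V] [Module.Finite (ZMod 2) V] (f : W →ₗ[ZMod 2] V) (G : Submodule (ZMod 2) V)
    (h : ∀ w, f w = 0 → w = 0) (k : ∀ w, f w ∈ G) : finrank (ZMod 2) W ≤ finrank (ZMod 2) G :=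
  LinearMap.finrank_le_finrank_of_injective (f := f.codRestrict G k)
    ((injective_iff_map_eq_zero _).2 fun w hw => h w (congrArg Subtype.val hw))

/-- Local coordinates at two and at the odd primes of `R`. -/
structure H3C (F : CFT) (R : Finset ℕ) where
  φ : ℕ → Gam
  τ : ℕ → Gam
  ε : ℕ → ZMod 2
  e : Fin 3 → Gam
  hτ : ∀ p ∈ R, Gen (pq p) (τ p)
  van : ∀ p ∈ R, ∀ u, B4bG (Dec (pq p)) u → u (φ p) = 0 → u (τ p) = 0 → ∀ g ∈ Dec (pq p), u g = 0
  gram : ∀ p ∈ R, ∀ u v, B4bG (Dec (pq p)) u → B4bG (Dec (pq p)) v →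
    b4bS F ⊤ (pq p) u v = u (φ p) * v (τ p) + u (τ p) * v (φ p) + ε p * (u (τ p) * v (τ p))
  cm : ∀ x i, cmb x (e i) = x i
  van2 : ∀ u, B4bG (Dec (pq 2)) u → ∀ g ∈ Dec (pq 2), u g = cmb (fun i => u (e i)) g
  gram2 : ∀ u v, B4bG (Dec (pq 2)) u → B4bG (Dec (pq 2)) v →
    b4bS F ⊤ (pq 2) u v = u (e 0) * v (e 0) + u (e 1) * v (e 2) + u (e 2) * v (e 1)

theorem h3C_exists (F : CFT) {R : Finset ℕ} (hR : ∀ p ∈ R, p.Prime ∧ p ≠ 2) :
    Nonempty (H3C F R) := by
  have h1 := fun p (hp : p ∈ R) =>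
    odd_gram F (w := pq p) (by rw [pq_p (hR p hp).1]; exact (hR p hp).2)
  choose! φ τ ε _ h2 h3 h4 using h1
  obtain ⟨e, -, k1, k2, k3⟩ := two_gram F (pq_p Nat.prime_two)
  exact ⟨⟨φ, τ, ε, e, h2, h3, h4, k1, k2, k3⟩⟩

/-- The constant family. -/
def h3k : (Gam → ZMod 2) →ₗ[ZMod 2] ℕ → Gam → ZMod 2 where
  toFun v _ := v
  map_add' _ _ := rfl
  map_smul' _ _ := rfl

namespace H3C

variable {F : CFT} {R : Finset ℕ} (C : H3C F R)

/-- The coordinates of a family of local characters. -/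
def co : (ℕ → Gam → ZMod 2) →ₗ[ZMod 2] H3V R where
  toFun u := (fun p => u p (C.φ p), fun p => u p (C.τ p), fun i => u 2 (C.e i))
  map_add' _ _ := rfl
  map_smul' _ _ := rfl

theorem sum_eq (h2 : 2 ∉ R) {u v : ℕ → Gam → ZMod 2}
    (hu : ∀ p ∈ insert 2 R, B4bG (Dec (pq p)) (u p))
    (hv : ∀ p ∈ insert 2 R, B4bG (Dec (pq p)) (v p)) :
    h3B (fun p : R => C.ε p) (C.co u) (C.co v) = ∑ p ∈ insert 2 R, b4bS F ⊤ (pq p) (u p) (v p) := by
  rw [Finset.sum_insert h2, C.gram2 _ _ (hu 2 (Finset.mem_insert_self _ _))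
    (hv 2 (Finset.mem_insert_self _ _)), ← Finset.sum_coe_sort R, h3B_apply]
  congr 1
  exact Finset.sum_congr rfl fun p _ => (C.gram p p.2 _ _ (hu p (Finset.mem_insert_of_mem p.2))
    (hv p (Finset.mem_insert_of_mem p.2))).symm

theorem eq_on {u v : ℕ → Gam → ZMod 2} (hu : ∀ p ∈ insert 2 R, B4bG (Dec (pq p)) (u p))
    (hv : ∀ p ∈ insert 2 R, B4bG (Dec (pq p)) (v p)) (h : C.co u = C.co v) :
    ∀ p ∈ insert 2 R, ∀ g ∈ Dec (pq p), u p g = v p g := by
  intro p hp g hg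
  rcases Finset.mem_insert.1 hp with rfl | k
  · have h1 : (fun i => u 2 (C.e i)) = fun i => v 2 (C.e i) := congrArg (·.2.2) h
    rw [C.van2 _ (hu 2 hp) g hg, C.van2 _ (hv 2 hp) g hg, h1]
  · have h1 : u p (C.φ p) = v p (C.φ p) := congrFun (congrArg (·.1) h) ⟨p, k⟩
    have h2 : u p (C.τ p) = v p (C.τ p) := congrFun (congrArg (·.2.1) h) ⟨p, k⟩
    have h3 := C.van p k _ ((hu p hp).add (hv p hp))
      (by rw [h1]; exact CharTwo.add_self_eq_zero _) (by rw [h2]; exact CharTwo.add_self_eq_zero _)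
      g hg
    exact CharTwo.add_eq_zero.1 h3

end H3C

/-- The characters of the units away from `R`. -/
noncomputable def h3Φ (R : Finset ℕ) :
    (R → ZMod 2) × ZMod 2 × ZMod 2 →ₗ[ZMod 2] Gam → ZMod 2 where
  toFun x := ∑ p : R, x.1 p • xi ((p : ℕ) : ℤ) + (x.2.1 • xi 2 + x.2.2 • xi (-1))
  map_add' x y := by
    simp only [Prod.fst_add, Prod.snd_add, Pi.add_apply, add_smul, Finset.sum_add_distrib]
    abel
  map_smul' a x := by
    simp only [Prod.smul_fst, Prod.smul_snd, Pi.smul_apply, smul_eq_mul, mul_smul, smul_add,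
      Finset.smul_sum, RingHom.id_apply]

theorem h3Φ_apply (R : Finset ℕ) (x : (R → ZMod 2) × ZMod 2 × ZMod 2) (g : Gam) :
    h3Φ R x g = ∑ p : R, x.1 p * xi ((p : ℕ) : ℤ) g + cmb ![x.2.2, 0, x.2.1] g := by
  simp [h3Φ, cmb, add_comm]

theorem h3_ine {w : Plc} {g : Gam} {c : ℤ} (hw : w.p ≠ 2) (h : ¬ (w.p : ℤ) ∣ c) (hg : g ∈ Ine w) :
    xi c g = 0 := xi_eq_zero.2 (chi_ine (mu0_ndvd hw h) hg)

theorem h3_nd {w : Plc} {q : ℕ} (hq : q.Prime) (h : w.p ≠ q) : ¬ (w.p : ℤ) ∣ q := fun k =>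
  h ((Nat.prime_dvd_prime_iff_eq w.prime hq).1 (by exact_mod_cast k))

theorem h3_nd1 (w : Plc) : ¬ (w.p : ℤ) ∣ -1 := fun k =>
  w.prime.ne_one (Nat.dvd_one.1 (by exact_mod_cast dvd_neg.1 k))

theorem H3C.inj {F : CFT} {R : Finset ℕ} (C : H3C F R) (hR : ∀ p ∈ R, p.Prime ∧ p ≠ 2)
    (x : (R → ZMod 2) × ZMod 2 × ZMod 2) (h : C.co (h3k (h3Φ R x)) = 0) : x = 0 := by
  obtain ⟨a, t, s⟩ := x
  have ha : a = 0 := funext fun p => by
    have h1 : h3Φ R (a, t, s) (C.τ p) = 0 := congrFun (congrArg (·.2.1) h) p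
    have e := pq_p (hR p p.2).1
    have h2 : (pq p).p ≠ 2 := by rw [e]; exact (hR p p.2).2
    have g := C.hτ p p.2
    have k2 : xi 2 (C.τ p) = 0 := h3_ine h2 (h3_nd Nat.prime_two h2) g.1
    have k3 : xi ((p : ℕ) : ℤ) (C.τ p) = 1 := xi_eq_one.2 (by have := g.2; rwa [e] at this)
    rw [h3Φ_apply, Finset.sum_eq_single p (fun q _ hq => by
      rw [h3_ine h2 (h3_nd (hR q q.2).1 (by rw [e]; exact fun k => hq (Subtype.ext k.symm))) g.1,
        mul_zero]) (by simp)] at h1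
    simpa [cmb, k2, k3, h3_ine h2 (h3_nd1 _) g.1] using h1
  subst ha
  have h1 : ∀ i, h3Φ R (0, t, s) (C.e i) = 0 := fun i => congrFun (congrArg (·.2.2) h) i
  have h2 := h1 0
  have h3 := h1 2
  rw [h3Φ_apply, C.cm] at h2 h3
  have hs : s = 0 := by simpa using h2
  have ht : t = 0 := by simpa using h3
  rw [hs, ht]
  rfl

namespace Pd

variable {A : Type} [AddCommGroup A] (P : Pd A)

/-- Global characters with the local conditions outside of `S`. -/
noncomputable def Gs (S : Finset ℕ) (j : Bool) : Submodule (ZMod 2) (Gam → ZMod 2) where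
  carrier := {u | B4bG ⊤ u ∧ u ∈ P.L j Dr ∧ ∀ w : Plc, w.p ∉ S → u ∈ P.L j (Dec w)}
  zero_mem' := ⟨⟨Sm.const 0, fun _ _ _ _ => (add_zero _).symm⟩, zero_mem _, fun _ _ => zero_mem _⟩
  add_mem' := fun h h' =>
    ⟨h.1.add h'.1, add_mem h.2.1 h'.2.1, fun w k => add_mem (h.2.2 w k) (h'.2.2 w k)⟩
  smul_mem' a _ h :=
    ⟨h.1.smul a, Submodule.smul_mem _ a h.2.1, fun w k => Submodule.smul_mem _ a (h.2.2 w k)⟩

variable {P}

theorem Lq.xi_mem {D : ℤ} (h : P.Lq D) {S : Finset ℕ} (h2 : 2 ∈ S)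
    (hS : ∀ w : Plc, w.p ∉ S → ¬ (w.p : ℤ) ∣ 2 * D) (j : Bool) {c : ℤ}
    (hc : ∀ w : Plc, w.p ∉ S → ¬ (w.p : ℤ) ∣ c) (k : 0 < c ∨ c < 0 ∧ be D j < 0) :
    xi c ∈ P.Gs S j := by
  refine ⟨B4bG.xi _ _, ?_, fun w hw => ⟨B4bG.xi _ _, (h.good j w (hS w hw)).unr _ (B4bG.xi _ _)
    fun σ hσ => h3_ine (fun e => hw (e ▸ h2)) (hc w hw) hσ⟩⟩
  rcases k with k | ⟨k, k'⟩
  · refine P.L_congr (zero_mem _) fun g hg => ?_
    rcases mem_Dr.1 hg with rfl | rfl
    · exact xi_at_one c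
    · exact xi_cc k
  · refine P.L_congr (P.L_mono (h.tau j) le_top) fun g hg => ?_
    rcases mem_Dr.1 hg with rfl | rfl
    · rw [xi_at_one, xi_at_one]
    · rw [xi_cc_neg k, xi_cc_neg k']

theorem h3_rigid {j : Bool} {w : Plc} {u : Gam → ZMod 2} (h : (P.s j).Gd P.T w)
    (hu : u ∈ P.L j (Dec w)) {σ : Gam} (hσ : σ ∈ Ine w) : u σ = 0 := by
  obtain ⟨S, hS⟩ := hu.2
  have h1 := hS σ (Ine_le w hσ)
  have h2 := h.rigid σ hσ S (by
    rw [← h1, two_nsmul]
    exact congrFun (P.tT_self u) σ)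
  rw [show P.act j σ S = S from h2, sub_self] at h1
  rw [← P.bt_T (u σ)]
  exact P.bt_eq_zero.2 ((P.K_zero _).2 h1)

end Pd

theorem h3_small {c : ℤ} (hc : Squarefree c) (h : ∀ q : ℕ, q.Prime → (q : ℤ) ∣ c → q = 2) :
    ∃ x, ∀ g, xi c g = cmb x g := by
  have h1 : c.natAbs ∣ 2 := by
    rw [← Nat.prod_primeFactors_of_squarefree (Int.squarefree_natAbs.2 hc)]
    have := Finset.prod_dvd_prod_of_subset c.natAbs.primeFactors {2} (fun p => p) fun q hq =>
      Finset.mem_singleton.2 (h q (Nat.prime_of_mem_primeFactors hq)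
        (Int.natCast_dvd.2 (Nat.dvd_of_mem_primeFactors hq)))
    simpa using this
  have h2 := Nat.le_of_dvd two_pos h1
  have h3 := hc.ne_zero
  have h4 : c = 1 ∨ c = -1 ∨ c = 2 ∨ c = -1 * 2 := by omega
  rcases h4 with rfl | rfl | rfl | rfl
  · exact ⟨0, fun g => by simp [cmb, xi_one]⟩
  · exact ⟨![1, 0, 0], fun g => by simp [cmb]⟩
  · exact ⟨![0, 0, 1], fun g => by simp [cmb]⟩
  · exact ⟨![1, 0, 1], fun g => by rw [xi_mul (by decide) (by decide)]; simp [cmb]⟩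

theorem h3_be {D : ℤ} (hD : Squarefree D) {w : Plc} (hw : w.p ≠ 2) (h : (w.p : ℤ) ∣ D) {g : Gam}
    (hg : Gen w g) (j : Bool) : xi (Pd.be D j) g = 1 := by
  cases j
  · rw [show Pd.be D false = 2 ^ 2 * D by simp [Pd.be], xi_mul (by decide) hD.ne_zero, xi_sq,
      zero_add]
    exact xi_gen hw hD h hg
  · exact xi_gen hw (Int.squarefree_natAbs.1 (by
      rw [show Pd.be D true = -D from rfl, Int.natAbs_neg]; exact Int.squarefree_natAbs.2 hD))
      (dvd_neg.2 h) hg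

theorem Pd.Lq.h3_main {A : Type} [AddCommGroup A] {P : Pd A} {D : ℤ} (h : P.Lq D) (F : CFT)
    (hD : Squarefree D) {R : Finset ℕ} (hR : ∀ p ∈ R, p.Prime ∧ p ≠ 2)
    (hR' : ∀ p ∈ R, (p : ℤ) ∣ D) (hS : ∀ w : Plc, w.p ∉ insert 2 R → ¬ (w.p : ℤ) ∣ 2 * D) :
    P.Lone F (insert 2 R) ∧
      (Even (finrank (ZMod 2) (P.Sel false) + finrank (ZMod 2) (P.Sel true)) ↔ Wp D) := by
  obtain ⟨C⟩ := h3C_exists F hR
  have h2 : 2 ∉ R := fun k => (hR 2 k).2 rfl
  have m2 : 2 ∈ insert 2 R := Finset.mem_insert_self _ _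
  have hp : ∀ p ∈ insert 2 R, p.Prime := fun p k => by
    rcases Finset.mem_insert.1 k with rfl | k
    · exact Nat.prime_two
    · exact (hR p k).1
  obtain ⟨M, hM, dM, eM⟩ := h.two_tab (fun k => absurd (hD 2 k) (by decide)) (pq_p Nat.prime_two)
  let G : Bool → Submodule (ZMod 2) (H3V R) := fun j => (P.Gs (insert 2 R) j).map (C.co ∘ₗ h3k)
  let L : Bool → Submodule (ZMod 2) (H3V R) := fun j =>
    (Submodule.pi ((insert 2 R : Finset ℕ) : Set ℕ) fun p => P.L j (Dec (pq p))).map C.co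
  have gl : ∀ {v : Gam → ZMod 2}, B4bG ⊤ v → ∀ p ∈ insert 2 R, B4bG (Dec (pq p)) (h3k v p) :=
    fun hv p _ => B4bG.mono hv le_top
  have dV : finrank (ZMod 2) (H3V R) = R.card + (R.card + 3) := by
    simp [finrank_prod]
  have ΦG : ∀ j (x : (R → ZMod 2) × ZMod 2 × ZMod 2), x.2.2 = 0 ∨ Pd.be D j < 0 →
      C.co (h3k (h3Φ R x)) ∈ G j := fun j x k => by
    refine ⟨h3Φ R x, add_mem (Submodule.sum_mem _ fun p _ => Submodule.smul_mem _ _ ?_)
      (add_mem (Submodule.smul_mem _ _ ?_) ?_), rfl⟩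
    · exact h.xi_mem m2 hS j (fun w hw => h3_nd (hR p p.2).1 fun e =>
        hw (e ▸ Finset.mem_insert_of_mem p.2)) (.inl (by exact_mod_cast (hR p p.2).1.pos))
    · exact h.xi_mem m2 hS j (fun w hw => h3_nd Nat.prime_two fun e => hw (e ▸ m2)) (.inl two_pos)
    · rcases k with k | k
      · rw [k, zero_smul]; exact zero_mem _
      · exact Submodule.smul_mem _ _ (h.xi_mem m2 hS j (fun w _ => h3_nd1 w) (.inr ⟨by decide, k⟩))
  have G1 : ∀ j, R.card + 1 ≤ finrank (ZMod 2) (G j) := fun j => by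
    have := h3_le (C.co ∘ₗ h3k ∘ₗ h3Φ R ∘ₗ
      (LinearMap.id.prodMap (LinearMap.inl (ZMod 2) (ZMod 2) (ZMod 2)))) (G j)
      (fun x hx => by
        have k := C.inj hR _ hx
        exact Prod.ext (congrArg (·.1) k) (congrArg (·.2.1) k)) fun x => ΦG j _ (.inl rfl)
    simpa [finrank_prod] using this
  have G2 : ∀ j, Pd.be D j < 0 → R.card + 2 ≤ finrank (ZMod 2) (G j) := fun j k => by
    have := h3_le (C.co ∘ₗ h3k ∘ₗ h3Φ R) (G j) (C.inj hR) fun x => ΦG j x (.inr k)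
    simpa [finrank_prod] using this
  have L1 : ∀ j, R.card + finrank (ZMod 2) (M j) ≤ finrank (ZMod 2) (L j) := fun j => by
    let f : (R → ZMod 2) × M j →ₗ[ZMod 2] H3V R :=
      { toFun := fun x => (fun p => x.1 p * xi (Pd.be D j) (C.φ p), x.1, x.2.1)
        map_add' := fun x y => Prod.ext (funext fun p => add_mul _ _ _) rfl
        map_smul' := fun a x => Prod.ext (funext fun p => mul_assoc _ _ _) rfl }
    have := h3_le f (L j)
      (fun x hx => Prod.ext (congrArg (·.2.1) hx) (Subtype.ext (congrArg (·.2.2) hx))) fun x => by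
      refine ⟨fun p => if k : p ∈ R then x.1 ⟨p, k⟩ • xi (Pd.be D j) else cmb x.2.1,
        fun p k => ?_, ?_⟩
      · by_cases k' : p ∈ R
        · simp only [dif_pos k']
          exact Submodule.smul_mem _ _ (P.L_mono (h.tau j) le_top)
        · simp only [dif_neg k']
          obtain rfl : p = 2 := (Finset.mem_insert.1 k).resolve_right k'
          exact hM j _ x.2.2
      · refine Prod.ext (funext fun p => ?_) (Prod.ext (funext fun p => ?_) (funext fun i => ?_))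
        · simp [H3C.co, f]
        · have e := pq_p (hR p p.2).1
          have := h3_be hD (w := pq p) (by rw [e]; exact (hR p p.2).2) (by rw [e]; exact hR' p p.2)
            (C.hτ p p.2) j
          simp [H3C.co, f, this]
        · simp [H3C.co, f, h2, C.cm]
    simpa [finrank_prod] using this
  have D0 := hD.ne_zero
  have bf : Pd.be D false = 4 * D := rfl
  have bt : Pd.be D true = -D := rfl
  obtain ⟨w1, w2, w3, w4⟩ := wiles (h3B fun p : R => C.ε p) (h3B_symm _) (h3B_nd _) G L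
    (by
      rintro _ ⟨u, hu, rfl⟩ _ ⟨v, hv, rfl⟩
      exact (C.sum_eq h2 (gl hu.1) (gl hv.1)).trans
        (P.pr_glob (j := true) F hp hu.1 hu.2.1 hu.2.2 hv.1 hv.2.1 hv.2.2))
    (by
      rintro _ ⟨u, hu, rfl⟩ _ ⟨v, hv, rfl⟩
      exact (C.sum_eq h2 (fun p k => (hu p k).1) fun p k => (hv p k).1).trans
        (Finset.sum_eq_zero fun p k => P.orth_inv (j := true) F (hu p k) (hv p k)))
    (by
      have := G1 false
      have := G1 true
      have := G2 false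
      have := G2 true
      omega)
    (by
      have := L1 false
      have := L1 true
      omega)
  have s1 : ∀ j, ∀ b ∈ P.Sel j, C.co (h3k b) ∈ G j ⊓ L j := fun j b hb =>
    ⟨⟨b, ⟨hb.1, hb.2.1, fun w _ => hb.2.2 w⟩, rfl⟩, h3k b, fun p _ => hb.2.2 _, rfl⟩
  have s2 : ∀ j, ∀ y ∈ G j ⊓ L j, ∃ b ∈ P.Sel j, C.co (h3k b) = y := by
    rintro j _ ⟨⟨v, hv, rfl⟩, l, hl, e⟩
    refine ⟨v, ⟨hv.1, hv.2.1, fun w => ?_⟩, rfl⟩
    by_cases k : w.p ∈ insert 2 R
    · have k1 : v ∈ P.L j (Dec (pq w.p)) := P.L_congr (hl _ k) fun g hg =>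
        (C.eq_on (fun p k => (hl p k).1) (gl hv.1) e _ k g hg).symm
      exact ⟨B4bG.mono hv.1 le_top, P.LC_conj (P.tT_coc j hv.1) k1.2 (pq_p w.prime)⟩
    · exact hv.2.2 w k
  have s3 : ∀ j, ∀ b ∈ P.Sel j, C.co (h3k b) = 0 → b = 0 := fun j b hb k => by
    obtain ⟨c, hc, e⟩ := exists_xi hb.1.1 hb.1.2
    obtain ⟨x, hx⟩ := h3_small hc fun q hq hd => by
      by_contra q2
      have e1 := pq_p hq
      have q3 : (pq q).p ≠ 2 := by rw [e1]; exact q2
      by_cases k1 : q ∈ R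
      · have k2 : b (C.τ q) = 0 := congrFun (congrArg (·.2.1) k) ⟨q, k1⟩
        rw [e, xi_gen q3 hc (by rw [e1]; exact hd) (C.hτ q k1)] at k2
        exact one_ne_zero k2
      · obtain ⟨τ, hτ⟩ := exists_gen q3
        have k2 := Pd.h3_rigid (h.good j (pq q) (hS _ (by
          rw [e1]; exact fun k3 => (Finset.mem_insert.1 k3).elim q2 k1))) (hb.2.2 _) hτ.1
        rw [e, xi_gen q3 hc (by rw [e1]; exact hd) hτ] at k2
        exact one_ne_zero k2
    have x0 : x = 0 := funext fun i => by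
      have k2 : b (C.e i) = 0 := congrFun (congrArg (·.2.2) k) i
      rwa [e, hx, C.cm] at k2
    funext g
    rw [e, hx, x0]
    simp [cmb]
  have s4 : ∀ j, Nonempty (P.Sel j ≃ₗ[ZMod 2] ↥(G j ⊓ L j)) := fun j =>
    ⟨LinearEquiv.ofBijective
      (((C.co ∘ₗ h3k).domRestrict (P.Sel j)).codRestrict (G j ⊓ L j) fun b => s1 j b b.2)
      ⟨(injective_iff_map_eq_zero _).2 fun b k =>
        Subtype.ext (s3 j b b.2 (congrArg Subtype.val k)), fun y => by
        obtain ⟨b, hb, e⟩ := s2 j y y.2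
        exact ⟨⟨b, hb⟩, Subtype.ext e⟩⟩⟩
  refine ⟨⟨hp, m2, fun j w k => h.good j w (hS w k),
    fun j => (s4 j).elim fun e => Finite.of_equiv _ e.toEquiv.symm, fun j u hu k => ?_⟩, ?_⟩
  · obtain ⟨_, ⟨v, hv, rfl⟩, _, ⟨l, hl, rfl⟩, e⟩ := Submodule.mem_sup.1 (w1 j (C.co u) fun y hy => by
      obtain ⟨b, hb, rfl⟩ := s2 j y hy
      exact (C.sum_eq h2 hu (gl hb.1)).trans (k b hb))
    refine ⟨v, hv.1, hv.2.1, hv.2.2, fun p k1 => P.L_congr (hl p k1) fun g hg => ?_⟩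
    have e1 := C.eq_on (u := h3k v + l) (fun p k => (gl hv.1 p k).add (hl p k).1) hu
      ((map_add _ _ _).trans e) p k1 g hg
    change v g + l p g = u p g at e1
    rw [Pi.add_apply, ← e1, add_right_comm, CharTwo.add_self_eq_zero, zero_add]
  · obtain ⟨e0⟩ := s4 false
    obtain ⟨e1⟩ := s4 true
    rw [e0.finrank_eq, e1.finrank_eq, Wp, ← eM, Nat.even_iff, Nat.even_iff]
    have := G1 false
    have := G1 true
    have := G2 false
    have := G2 true
    have := L1 false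
    have := L1 true
    omega

theorem Pd.Lq.lone {A : Type} [AddCommGroup A] {P : Pd A} {D : ℤ} (h : P.Lq D) (F : CFT)
    (hD : Squarefree D) : P.Lone F (insert 2 D.natAbs.primeFactors) ∧
      (Even (finrank (ZMod 2) (P.Sel false) + finrank (ZMod 2) (P.Sel true)) ↔ Wp D) := by
  have e : insert 2 D.natAbs.primeFactors = insert 2 (D.natAbs.primeFactors.erase 2) := by
    ext p
    by_cases k : p = 2 <;> simp [k]
  rw [e]
  refine h.h3_main F hD (fun p k => ⟨Nat.prime_of_mem_primeFactors (Finset.mem_of_mem_erase k),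
    Finset.ne_of_mem_erase k⟩) (fun p k => Int.natCast_dvd.2
    (Nat.dvd_of_mem_primeFactors (Finset.mem_of_mem_erase k))) fun w k => ?_
  rw [← e, Finset.mem_insert, not_or] at k
  exact mu0_ndvd k.1 fun k1 => k.2 (Nat.mem_primeFactors.2
    ⟨w.prime, Int.natCast_dvd.1 k1, Int.natAbs_ne_zero.2 hD.ne_zero⟩)

end Pool.Agent.Lib.MP_696deb_nt.QP
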