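import Pool.Agent.Lib.MP_696deb_nt.B6.LKc

/-! The growth of the number of Selmer cocycles, the corank and the rank. -/

set_option autoImplicit false

open scoped Classical
open Module

namespace Pool.Agent.Lib.MP_696deb_nt.QP

open Pool.Agent.Lib.MP_696deb_nt.B2 (Qbar Gam Plc Dec Sm cc)
open Pool.Agent.Lib.MP_696deb_nt.B2.Stmt
open Pool.Agent.B6

variable [Cw]

theorem tw_one (g : Gam) (P : EE) : tw 1 g P = g • P := by
  have := B2.chi_sq 1 g
  rw [one_pow] at this
  rw [tw, this, Units.val_one, one_smul]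

/-- The number of Selmer cocycles of level `2 ^ m` is at most a constant times `2 ^ (e m)`. -/
def Gro (e : ℕ) : Prop := ∃ C : ℕ, ∀ (m : ℕ) (s : Finset (Gam → EE)),
  (∀ ξ ∈ s, hSel 1 ξ ∧ ∀ g, 2 ^ m • ξ g = 0) → s.card ≤ C * 2 ^ (e * m)

section aux

open Height WeierstrassCurve WeierstrassCurve.Affine
open Pool.Agent.Lib.MP_696deb_nt (Pt pmap xco yco pmap_pmap approx_parallelogram naiveHeight logHeight_xRep VC)
open Pool.Agent.Lib.MP_696deb_nt.B2 (lk_real lk_plc lk_surj lk_finite_tors fx_top)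

theorem lkq_loc {ξ : Gam → EE} {F : Type} [Field F] [CharZero F]
    (h : ∀ j : Qbar →+* AlgebraicClosure F, ∃ S, ∀ (s : AbsGal F) (σ : Gam),
      (∀ x, j (σ x) = s (j x)) → ξ σ = tw 1 σ S - S) : LocTriv Wu F ξ := fun j => by
  obtain ⟨S, hS⟩ := h j
  refine ⟨pmap j S, fun s (σ : Gam) k => ?_⟩
  have e : (s : AlgebraicClosure F →+* AlgebraicClosure F).comp j =
      j.comp (σ : Qbar →+* Qbar) := RingHom.ext fun x => (k x).symm
  change pmap j (ξ σ) =
    pmap (s : AlgebraicClosure F →+* AlgebraicClosure F) (pmap j S) - pmap j S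
  rw [hS s σ k, tw_one, smul_pt, map_sub, pmap_pmap, pmap_pmap, e]

theorem lkq_isSel {ξ : Gam → EE} (h : hSel 1 ξ) {n : ℕ} (hn : ∀ g, n • ξ g = 0) :
    IsSel Wu n ξ := by
  refine ⟨?_, hn, fun σ τ : Gam => (h.coc σ τ).trans (by rw [tw_one]; rfl), lkq_loc fun j => ?_,
    fun p _ => lkq_loc fun j => ?_⟩
  · let _ : TopologicalSpace EE := ⊥
    have : DiscreteTopology EE := ⟨rfl⟩
    exact (IsLocallyConstant.iff_continuous ξ).2 (continuousOn_univ.1 h.sm.continuousOn)
  · obtain ⟨k, hk⟩ := lk_real j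
    obtain ⟨S, hS⟩ := h.inf
    refine ⟨tw 1 k S - ξ k, fun s σ e => ?_⟩
    rcases hk s σ e with rfl | rfl
    · rw [h.one, lk_tw_one, sub_self]
    · exact h.conj hS k
  · obtain ⟨w, hw⟩ := lk_plc p j
    obtain ⟨S, hS⟩ := h.loc w
    exact ⟨S, fun s σ e => hS σ (hw s σ e)⟩

theorem lkq_vc : VC (algebraMap ℚ Qbar) Wu (Wu.baseChange Qbar) 1 0 0 0 := by
  refine ⟨one_ne_zero, ?_, ?_, ?_, ?_, ?_⟩ <;> simp [WeierstrassCurve.baseChange]

theorem lkq_pts (P : EE) : P ∈ lkq_vc.hom.range ↔ ∀ g, tw 1 g P = P := by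
  simp only [tw_one, smul_pt]
  rcases P with _ | ⟨x, y, h⟩
  · exact iff_of_true ⟨0, rfl⟩ fun g => rfl
  constructor
  · rintro ⟨_ | ⟨a, b, k⟩, e⟩ g
    · exact absurd e.symm (Point.some_ne_zero _)
    · obtain ⟨e1, e2⟩ := (Point.some.injEq ..).mp e
      obtain rfl : algebraMap ℚ Qbar a = x := by simpa using e1
      obtain rfl : algebraMap ℚ Qbar b = y := by simpa using e2
      exact (Point.some.injEq ..).mpr ⟨g.commutes a, g.commutes b⟩
  · intro k
    obtain ⟨a, rfl⟩ := fx_top (x := x) fun g _ => congrArg xco (k g)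
    obtain ⟨b, rfl⟩ := fx_top (x := y) fun g _ => congrArg yco (k g)
    exact lkq_vc.mem_range _ (x := a) (y := b) (by simp) (by simp)

theorem lkq_cork {e : ℕ} (h : Gro e) {G : Type*} [AddCommGroup G] (f : G →+ EE)
    (hf : Function.Injective f) (hr : ∀ P, P ∈ f.range ↔ ∀ g, tw 1 g P = P) :
    (nsmulAddMonoidHom (α := G) 2).range.FiniteIndex := by
  obtain ⟨C, hC⟩ := h
  choose half hh using exists_half
  have : Finite (G ⧸ (nsmulAddMonoidHom (α := G) 2).range) := by
    have inj : Function.Injective fun x : G ⧸ (nsmulAddMonoidHom (α := G) 2).range =>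
        lkC 1 (half (f x.out)) := fun x y e => by
      obtain ⟨R, hR⟩ := (hr _).2 (lkC_eq e.symm)
      rw [← x.out_eq, ← y.out_eq]
      refine QuotientAddGroup.eq.2 ⟨R, hf ?_⟩
      rw [nsmulAddMonoidHom_apply, map_nsmul, hR, smul_sub, hh, hh, map_add, map_neg,
        neg_add_eq_sub]
    by_contra k
    rw [not_finite_iff_infinite] at k
    obtain ⟨s, hs⟩ := Infinite.exists_subset_card_eq
      (G ⧸ (nsmulAddMonoidHom (α := G) 2).range) (C * 2 ^ (e * 1) + 1)
    have := hC 1 (s.map ⟨_, inj⟩) fun ξ hξ => by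
      obtain ⟨x, -, rfl⟩ := Finset.mem_map.1 hξ
      exact ⟨lkC_sel _, lkC_kill fun g => by rw [pow_one, hh]; exact (hr _).1 ⟨_, rfl⟩ g⟩
    rw [Finset.card_map, hs] at this
    omega
  exact AddSubgroup.finiteIndex_of_finite_quotient

theorem lkq_fg {e : ℕ} (h : Gro e) : Module.Finite ℤ Wu.toAffine.Point := by
  obtain ⟨C, hC⟩ := approx_parallelogram Wu
  have e : naiveHeight Wu = fun P => logHeight₁ (xco P) := funext fun P => logHeight_xRep P
  rw [Module.Finite.iff_addGroup_fg]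
  refine AddCommGroup.fg_of_descent' (h := naiveHeight Wu) (C := C)
    (lkq_cork h _ lkq_vc.hom_injective lkq_pts) (fun P => logHeight_nonneg _) ?_
  rw [e]
  exact hC

theorem lkq_rank {e n : ℕ} (h : Gro e) {G : Type*} [AddCommGroup G] [Module.Finite ℤ G]
    (f : G →+ EE) (hf : Function.Injective f) (hr : ∀ P, P ∈ f.range ↔ ∀ g, tw 1 g P = P)
    (hn : n ≤ finrank ℤ G) : n + 2 ≤ e := by
  by_contra k
  obtain ⟨π, hπ⟩ := lk_surj (G := G) hn
  choose P hP using hπ
  obtain ⟨C, hC⟩ := h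
  let t := (lk_finite_tors (G := G)).toFinset
  have main : ∀ m : ℕ, 2 ^ ((n + 2) * m) ≤ t.card * (C * 2 ^ (e * m)) := fun m => by
    choose Q hQ using lk_root m
    have fin : Finite (nsmulAddMonoidHom (α := EE) (2 ^ m)).ker :=
      Nat.finite_of_card_ne_zero (by rw [lk_card]; positivity)
    have := Fintype.ofFinite (nsmulAddMonoidHom (α := EE) (2 ^ m)).ker
    let F : (Fin n → Fin (2 ^ m)) × (nsmulAddMonoidHom (α := EE) (2 ^ m)).ker → EE := fun x =>
      Q (f (P fun i => ((x.1 i : ℕ) : ℤ))) + x.2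
    have hF : ∀ x, 2 ^ m • F x = f (P fun i => ((x.1 i : ℕ) : ℤ)) := fun x => by
      have : 2 ^ m • x.2.1 = 0 := x.2.2
      rw [smul_add, hQ, this, add_zero]
    have h1 : Fintype.card ((Fin n → Fin (2 ^ m)) × (nsmulAddMonoidHom (α := EE) (2 ^ m)).ker) ≤
        t.card * (Finset.univ.image fun x => lkC 1 (F x)).card := by
      refine Finset.card_le_mul_card_image _ _ fun q hq => ?_
      obtain ⟨y, -, rfl⟩ := Finset.mem_image.1 hq
      have key : ∀ x, lkC 1 (F x) = lkC 1 (F y) → x.1 = y.1 ∧ ∃ R ∈ t, f R = x.2 - y.2 :=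
        fun x e => by
          obtain ⟨R, hR⟩ := (hr _).2 (lkC_eq e)
          have a1 := congrArg (2 ^ m • ·) hR
          simp only [smul_sub, hF, ← map_nsmul, ← map_sub] at a1
          have a2 := congrArg π (hf a1)
          rw [map_nsmul, map_sub, hP, hP] at a2
          have a3 : x.1 = y.1 := funext fun i => Fin.ext (by
            have a4 := congrFun a2 i
            simp only [Pi.smul_apply, Pi.sub_apply, nsmul_eq_mul] at a4
            exact (Nat.modEq_iff_dvd.2 ⟨_, a4.symm⟩).symm.eq_of_lt_of_lt (x.1 i).2 (y.1 i).2)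
          refine ⟨a3, R, ?_, by rw [hR]; simp only [F, a3, add_sub_add_left_eq_sub]⟩
          refine (Set.Finite.mem_toFinset _).2
            (isOfFinAddOrder_iff_nsmul_eq_zero.2 ⟨2 ^ m, by positivity, hf ?_⟩)
          rw [a1, a3, sub_self]
      choose a R b c using key
      refine Finset.card_le_card_of_injOn
        (fun x => if e : lkC 1 (F x) = lkC 1 (F y) then R x e else 0) (fun x hx => ?_)
        fun x hx x' hx' e => ?_
      · have e := (Finset.mem_filter.1 hx).2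
        simpa only [dif_pos e, Finset.mem_coe] using b x e
      · have e1 := (Finset.mem_filter.1 hx).2
        have e2 := (Finset.mem_filter.1 hx').2
        simp only [dif_pos e1, dif_pos e2] at e
        exact Prod.ext ((a x e1).trans (a x' e2).symm)
          (Subtype.ext (sub_left_inj.1 ((c x e1).symm.trans (e ▸ c x' e2))))
    have h2 := hC m (Finset.univ.image fun x => lkC 1 (F x)) fun ξ hξ => by
      obtain ⟨x, -, rfl⟩ := Finset.mem_image.1 hξ
      exact ⟨lkC_sel _, lkC_kill fun g => by rw [hF]; exact (hr _).1 ⟨_, rfl⟩ g⟩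
    rw [Fintype.card_prod,
      ← Nat.card_eq_fintype_card (α := (nsmulAddMonoidHom (α := EE) (2 ^ m)).ker), lk_card] at h1
    refine le_trans (le_of_eq ?_) (h1.trans (Nat.mul_le_mul_left _ h2))
    rw [Fintype.card_fun, Fintype.card_fin, Fintype.card_fin, show 4 = 2 ^ 2 from rfl, ← pow_mul 2 2]
    ring
  have h3 := (Nat.pow_le_pow_right two_pos
    (Nat.mul_le_mul_right (t.card * C) (show 1 + e ≤ n + 2 by omega))).trans (main (t.card * C))
  rw [add_mul, one_mul, pow_add, ← mul_assoc t.card] at h3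
  exact (Nat.le_of_mul_le_mul_right h3 (by positivity)).not_gt Nat.lt_two_pow_self

theorem lkq_add {ξ : Gam → EE} (h : hSel 1 ξ) (S : EE) : hSel 1 fun g => ξ g + lkC 1 S g where
  sm := h.sm.comp₂ (lkC_sel S).sm (· + ·)
  coc g k := by
    rw [h.coc, (lkC_sel S).coc]
    simp only [← lkT_apply, map_add]
    abel
  loc w := by
    obtain ⟨R, hR⟩ := h.loc w
    refine ⟨R + S, fun g hg => ?_⟩
    simp only [hR g hg, lkC, ← lkT_apply, map_add]
    abel
  inf := by
    obtain ⟨R, hR⟩ := h.inf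
    refine ⟨R + S, ?_⟩
    simp only [hR, lkC, ← lkT_apply, map_add]
    abel

end aux

theorem gro_of_corank {r : ℕ} (h : CorankLE Wu r) : Gro (r + 2) := by
  obtain ⟨C, hC⟩ := h
  refine ⟨C, fun m s hs => ?_⟩
  let q : Setoid (Gam → EE) := ⟨fun ξ η => ∃ S, 2 ^ m • S = 0 ∧ ∀ g, ξ g - η g = lkT 1 g S - S,
    fun _ => ⟨0, by simp⟩,
    fun ⟨S, a, b⟩ => ⟨-S, by rw [smul_neg, a, neg_zero], fun g => by
      rw [← neg_sub, b, map_neg]; abel⟩,
    fun ⟨S, a, b⟩ ⟨S', a', b'⟩ => ⟨S + S', by rw [smul_add, a, a', add_zero], fun g => by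
      rw [← sub_add_sub_cancel, b, b', map_add]; abel⟩⟩
  have fin : Finite (nsmulAddMonoidHom (α := EE) (2 ^ m)).ker :=
    Nat.finite_of_card_ne_zero (by rw [lk_card]; positivity)
  have h1 : s.card ≤ 4 ^ m * (s.image (Quotient.mk q)).card := by
    refine Finset.card_le_mul_card_image s _ fun x hx => ?_
    obtain ⟨η, -, rfl⟩ := Finset.mem_image.1 hx
    rw [← lk_card, ← Nat.card_eq_finsetCard]
    have k : ∀ x : (s.filter fun ξ => Quotient.mk q ξ = Quotient.mk q η),
        ∃ S : (nsmulAddMonoidHom (α := EE) (2 ^ m)).ker, ∀ g, x.1 g - η g = lkT 1 g S - S :=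
      fun x => by
        obtain ⟨S, a, b⟩ := Quotient.exact (Finset.mem_filter.1 x.2).2
        exact ⟨⟨S, a⟩, b⟩
    choose f hf using k
    exact Nat.card_le_card_of_injective f fun x y e =>
      Subtype.ext (funext fun g => sub_left_inj.1 ((hf x g).trans (e ▸ (hf y g).symm)))
  choose f hf1 hf2 using fun x : s.image (Quotient.mk q) => Finset.mem_image.1 x.2
  have key : ∀ x x', Cohom Wu (2 ^ m) (f x) (f x') → x = x' := by
    rintro x x' ⟨S, a, b⟩
    exact Subtype.ext ((hf2 x).symm.trans ((Quotient.sound (s := q)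
      ⟨S, a, fun g : Gam => (b g).trans (by rw [lkT_apply, tw_one]; rfl)⟩).trans (hf2 x')))
  have inj : Function.Injective f := fun x x' e =>
    Subtype.ext ((hf2 x).symm.trans (e ▸ hf2 x'))
  have h2 := hC m (Finset.univ.map ⟨f, inj⟩) (fun x hx => by
    obtain ⟨y, -, rfl⟩ := Finset.mem_map.1 hx
    exact lkq_isSel (hs _ (hf1 y)).1 (hs _ (hf1 y)).2) fun x hx y hy e => by
    obtain ⟨z, -, rfl⟩ := Finset.mem_map.1 hx
    obtain ⟨z', -, rfl⟩ := Finset.mem_map.1 hy
    rw [key z z' e]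
  have h3 := (Finset.card_map _).symm.trans_le h2
  rw [Finset.card_univ, Fintype.card_coe] at h3
  refine h1.trans ((Nat.mul_le_mul_left _ h3).trans_eq ?_)
  rw [show 4 = 2 ^ 2 from rfl, ← pow_mul 2 2]
  ring

theorem fg_of_gro {e : ℕ} (h : Gro e) : Module.Finite ℤ Wu.toAffine.Point := lkq_fg h

theorem rank_of_gro {e : ℕ} (h : Gro e) : finrank ℤ Wu.toAffine.Point + 2 ≤ e :=
  have := fg_of_gro h
  lkq_rank h _ lkq_vc.hom_injective lkq_pts le_rfl

theorem corank_of_gro {r : ℕ} (h : Gro (r + 2))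
    (link : ∀ (k : ℕ) (ξ : Gam → EE), IsSel Wu (2 ^ k) ξ → hSel 1 ξ) : CorankLE Wu r := by
  have := fg_of_gro h
  obtain ⟨C, hC⟩ := h
  let t := (B2.lk_finite_tors (G := Wu.toAffine.Point)).toFinset
  refine ⟨t.card * C, fun k (s : Finset (Gam → EE)) h1 h2 => ?_⟩
  have fin : Finite (nsmulAddMonoidHom (α := EE) (2 ^ k)).ker :=
    Nat.finite_of_card_ne_zero (by rw [lk_card]; positivity)
  have := Fintype.ofFinite (nsmulAddMonoidHom (α := EE) (2 ^ k)).ker
  let F : s × (nsmulAddMonoidHom (α := EE) (2 ^ k)).ker → Gam → EE := fun x g =>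
    x.1.1 g + lkC 1 x.2.1 g
  have h3 : Fintype.card (s × (nsmulAddMonoidHom (α := EE) (2 ^ k)).ker) ≤
      t.card * (Finset.univ.image F).card := by
    refine Finset.card_le_mul_card_image _ _ fun q hq => ?_
    obtain ⟨y, -, rfl⟩ := Finset.mem_image.1 hq
    have key : ∀ x, F x = F y → x.1 = y.1 ∧ ∃ R ∈ t, lkq_vc.hom R = x.2.1 - y.2.1 := fun x e => by
      have a0 : 2 ^ k • (x.2.1 - y.2.1) = 0 := (sub_mem x.2.2 y.2.2 :)
      have a1 : x.1 = y.1 := Subtype.ext (h2 _ x.1.2 _ y.1.2 ⟨-(x.2.1 - y.2.1),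
        by rw [smul_neg, a0, neg_zero], fun g : Gam => by
          have a2 : x.1.1 g + lkC 1 x.2.1 g = y.1.1 g + lkC 1 y.2.1 g := congrFun e g
          change x.1.1 g - y.1.1 g = g • -(x.2.1 - y.2.1) - -(x.2.1 - y.2.1)
          rw [← tw_one, ← lkT_apply, map_neg, map_sub, eq_sub_of_add_eq a2, lkC, lkC]
          abel⟩)
      obtain ⟨R, hR⟩ := (lkq_pts _).2 (lkC_eq (d := 1) (Q := x.2.1) (Q' := y.2.1)
        (funext fun g => by
          have a2 : x.1.1 g + lkC 1 x.2.1 g = y.1.1 g + lkC 1 y.2.1 g := congrFun e g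
          rw [a1] at a2
          exact add_left_cancel a2))
      refine ⟨a1, R, (Set.Finite.mem_toFinset _).2 (isOfFinAddOrder_iff_nsmul_eq_zero.2
        ⟨2 ^ k, by positivity, lkq_vc.hom_injective ?_⟩), hR⟩
      rw [map_nsmul, hR, map_zero]
      exact a0
    choose a R b c using key
    refine Finset.card_le_card_of_injOn (fun x => if e : F x = F y then R x e else 0)
      (fun x hx => ?_) fun x hx x' hx' e => ?_
    · have e := (Finset.mem_filter.1 hx).2
      simpa only [dif_pos e, Finset.mem_coe] using b x e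
    · have e1 := (Finset.mem_filter.1 hx).2
      have e2 := (Finset.mem_filter.1 hx').2
      simp only [dif_pos e1, dif_pos e2] at e
      exact Prod.ext ((a x e1).trans (a x' e2).symm)
        (Subtype.ext (sub_left_inj.1 ((c x e1).symm.trans (e ▸ c x' e2))))
  have h4 := hC k (Finset.univ.image F) fun ξ hξ => by
    obtain ⟨x, -, rfl⟩ := Finset.mem_image.1 hξ
    refine ⟨lkq_add (link k _ (h1 _ x.1.2)) _, fun g => ?_⟩
    have a0 : 2 ^ k • x.2.1 = 0 := x.2.2
    have a1 : 2 ^ k • x.1.1 g = 0 := (h1 _ x.1.2).2.1 g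
    rw [smul_add, a1, lkC_kill fun g => by rw [a0, ← lkT_apply, map_zero], add_zero]
  rw [Fintype.card_prod, Fintype.card_coe,
    ← Nat.card_eq_fintype_card (α := (nsmulAddMonoidHom (α := EE) (2 ^ k)).ker), lk_card] at h3
  refine Nat.le_of_mul_le_mul_right (c := 4 ^ k)
    ((h3.trans (Nat.mul_le_mul_left _ h4)).trans_eq ?_) (by positivity)
  rw [show 4 = 2 ^ 2 from rfl, ← pow_mul 2 2]
  ring

end Pool.Agent.Lib.MP_696deb_nt.QP
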