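import Pool.Agent.Lib.MP_696deb_nt.QP.A5
import Pool.Agent.Lib.MP_696deb_nt.QP.H3
import Pool.Agent.Lib.MP_696deb_nt.QP.C3
import Pool.Agent.Lib.MP_696deb_nt.QP.LK
import Pool.Agent.Lib.MP_696deb_nt.B2.CF

/-! The parity theorem for the curves `y ^ 2 = x ^ 3 - D x`. -/

set_option autoImplicit false

open scoped Classical
open Module

namespace Pool.Agent.Lib.MP_696deb_nt.QP

open Pool.Agent.Lib.MP_696deb_nt.B2 (Qbar Gam Plc Dec Sm cc exists_cft)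
open Pool.Agent.Lib.MP_696deb_nt.B2.Stmt
open Pool.Agent.B6

/-- The exact growth exponent has the parity of the root number. -/
theorem exists_gro {D : ℤ} (hD : Squarefree D) : ∃ s : ℕ, (Even s ↔ Wp D) ∧
    ∀ e, @Gro (cw D hD.ne_zero) e ↔ s ≤ e := by
  let _ := cw D hD.ne_zero
  obtain ⟨F⟩ := exists_cft
  obtain ⟨P, hP⟩ := exists_pd D hD.ne_zero
  obtain ⟨h1, h2⟩ := hP.lq.lone F hD
  obtain ⟨h3, s, C, h4, h5⟩ := Pd.par h1
  have key : ∀ m ξ, ξ ∈ P.Z false (2 * m) ↔ hSel 1 ξ ∧ ∀ g, 2 ^ m • ξ g = 0 := fun m ξ => by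
    simp only [Pd.mem_Z, Pd.mem_Zi, Pd.mem_Coc, Pd.mem_LC, Pd.K_even, hP.act0, ← tw_one]
    refine and_congr_left fun _ => ⟨fun ⟨⟨a, b⟩, ⟨S, c⟩, d⟩ =>
      ⟨a, b, d, S, c _ (mem_Dr.2 (.inr rfl))⟩, fun k => ⟨⟨k.sm, k.coc⟩, ?_, k.loc⟩⟩
    obtain ⟨S, hS⟩ := k.inf
    refine ⟨S, fun g hg => ?_⟩
    rcases mem_Dr.1 hg with rfl | rfl
    · rw [k.one, lk_tw_one, sub_self]
    · exact hS
  refine ⟨s, ?_, fun e => ⟨fun ⟨C', hC⟩ => ?_, fun he => ⟨C, fun m t ht => ?_⟩⟩⟩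
  · rw [add_assoc, Nat.even_add] at h4
    exact h4.trans h2
  · by_contra k
    have := h3 false (2 * C')
    have a1 := hC C' (Set.toFinite (P.Z false (2 * C') : Set (Gam → EE))).toFinset fun ξ hξ =>
      (key _ _).1 ((Set.Finite.mem_toFinset _).1 hξ)
    rw [← Set.ncard_eq_toFinset_card _ (Set.toFinite _), ← Nat.card_coe_set_eq] at a1
    have a2 : 2 ^ ((e + 1) * C') ≤ 2 ^ (s * C') :=
      Nat.pow_le_pow_right two_pos (Nat.mul_le_mul_right _ (by omega))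
    have a3 := a2.trans ((h5 C').1.trans a1)
    rw [add_mul, one_mul, pow_add, mul_comm] at a3
    exact (Nat.le_of_mul_le_mul_right a3 (by positivity)).not_gt Nat.lt_two_pow_self
  · have := h3 false (2 * m)
    have a1 : t.card ≤ Nat.card (P.Z false (2 * m)) := by
      rw [← Nat.card_eq_finsetCard]
      exact Nat.card_le_card_of_injective (fun x : t => (⟨x.1, (key _ _).2 (ht _ x.2)⟩ :
        P.Z false (2 * m))) fun x y k => Subtype.ext (congrArg (·.1) k)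
    exact a1.trans ((h5 m).2.trans (Nat.mul_le_mul_left _
      (Nat.pow_le_pow_right two_pos (Nat.mul_le_mul_right _ he))))

/-- The curve over the rational numbers. -/
def EQ (D : ℤ) : WeierstrassCurve ℚ := ⟨0, 0, 0, ((-D : ℤ) : ℚ), ((0 : ℤ) : ℚ)⟩

theorem EQ_eq {D : ℤ} (hD : D ≠ 0) : EQ D = @Wu (cw D hD) := rfl

theorem par {D : ℤ} (hD : Squarefree D) (h : CorankLE (EQ D) 1) :
    Module.Finite ℤ (EQ D).toAffine.Point ∧ finrank ℤ (EQ D).toAffine.Point ≤ 1 ∧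
      (Wp D → finrank ℤ (EQ D).toAffine.Point = 0) ∧ (CorankLE (EQ D) 0 → Wp D) := by
  let _ := cw D hD.ne_zero
  obtain ⟨s, h1, h2⟩ := exists_gro hD
  have a1 := (h2 _).1 (gro_of_corank h)
  have a2 := rank_of_gro ((h2 s).2 le_rfl)
  refine ⟨fg_of_gro ((h2 s).2 le_rfl), ?_, fun k => ?_, fun k => h1.1 ?_⟩
  · change finrank ℤ Wu.toAffine.Point ≤ 1
    omega
  · obtain ⟨t, ht⟩ := h1.2 k
    change finrank ℤ Wu.toAffine.Point = 0
    omega
  · have a3 := (h2 _).1 (gro_of_corank k)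
    exact ⟨1, by omega⟩

theorem par_zero {D : ℤ} (hD : Squarefree D) (h : CorankLE (EQ D) 1) (hw : Wp D)
    (link : ∀ (k : ℕ) (ξ : Gam → AD D hD.ne_zero), IsSel (EQ D) (2 ^ k) ξ →
      @hSel (cw D hD.ne_zero) 1 ξ) : CorankLE (EQ D) 0 := by
  let _ := cw D hD.ne_zero
  obtain ⟨s, h1, h2⟩ := exists_gro hD
  have a1 := (h2 _).1 (gro_of_corank h)
  obtain ⟨t, ht⟩ := h1.2 hw
  exact corank_of_gro ((h2 _).2 (by omega)) link

end Pool.Agent.Lib.MP_696deb_nt.QP
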