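import Pool.Agent.Lib.MP_696deb_nt.QP.A1

/-! Lifting Selmer cocycles along the isogeny. -/

set_option autoImplicit false

open scoped Classical
open Matrix Module

namespace Pool.Agent.Lib.MP_696deb_nt.QP

open Pool.Agent.Lib.MP_696deb_nt.B2

theorem a2_zero (D : Subgroup Gam) : B4bG D 0 := ⟨Sm.const 0, fun _ _ _ _ => (add_zero _).symm⟩

theorem a2_sum {D : Subgroup Gam} (R : Finset ℕ) (b : ℕ → ZMod 2) :
    B4bG D fun g => ∑ q ∈ R, b q * xi q g := by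
  induction R using Finset.induction_on with
  | empty => exact a2_zero D
  | insert q R hq ih =>
    simp only [Finset.sum_insert hq]
    exact ((B4bG.xi D q).smul (b q)).add ih

theorem a2_one {D : Subgroup Gam} {u : Gam → ZMod 2} (h : B4bG D u) : u 1 = 0 := by
  simpa using h.2 1 (one_mem _) 1 (one_mem _)

theorem a2_ine {w : Plc} (hw : w.p ≠ 2) {u : Gam → ZMod 2} (h : B4bG (Dec w) u) :
    ∃ b : ZMod 2, ∀ σ ∈ Ine w, u σ = b * xi w.p σ := by
  have := Fact.mk w.prime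
  obtain ⟨n, hn⟩ := FiniteField.exists_nonsquare (F := ZMod w.p) (by rwa [ZMod.ringChar_zmod_n])
  obtain ⟨n, rfl⟩ := ZMod.intCast_surjective n
  have h1 : jacobiSym n w.p = -1 := (ZMod.nonsquare_iff_jacobiSym_eq_neg_one).2 hn
  obtain ⟨a, b, k⟩ := hom_dec_odd hw h1 h.1 h.2
  refine ⟨b, fun σ hσ => ?_⟩
  rw [k σ (Ine_le w hσ), xi_eq_zero.2 (chi_ine (mu0_ndvd hw fun e => hn ?_) hσ), mul_zero, zero_add]
  rw [(ZMod.intCast_zmod_eq_zero_iff_dvd _ _).2 e]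
  exact IsSquare.zero

namespace Pd

variable {A : Type} [AddCommGroup A] {P : Pd A} {F : CFT} {S : Finset ℕ} {j : Bool}
  {c c' : Gam → A} {u u' : ℕ → Gam → ZMod 2} {b : Gam → ZMod 2}

theorem vT_add (a b : ZMod 2) : (a + b).val • P.T = a.val • P.T + b.val • P.T :=
  congrFun (P.tT_add (fun _ => a) fun _ => b) 1

theorem vT_inj {a b : ZMod 2} (h : a.val • P.T = b.val • P.T) : a = b := by
  rw [← P.bt_T a, h, P.bt_T]

theorem vT_act (j : Bool) (g : Gam) (a : ZMod 2) : P.act j g (a.val • P.T) = a.val • P.T := by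
  rw [map_nsmul, P.act_T]

theorem tT_cancel (c : Gam → A) (u : Gam → ZMod 2) : c + P.tT u + P.tT u = c := by
  rw [add_assoc, P.tT_self, add_zero]

theorem shift {D : Subgroup Gam} {x y : Gam → ZMod 2} (h : c + P.tT x ∈ P.LC j D)
    (k : x + y ∈ P.L j D) : c + P.tT y ∈ P.LC j D := by
  have := add_mem h k.2
  rwa [P.tT_add, ← add_assoc, tT_cancel] at this

theorem IsLift.add (h : P.IsLift S j c u) (h' : P.IsLift S j c' u') :
    P.IsLift S j (c + c') (u + u') :=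
  ⟨add_mem h.coc h'.coc, add_mem h.inf h'.inf, fun w hw => add_mem (h.off w hw) (h'.off w hw),
    fun p hp => (h.hom p hp).add (h'.hom p hp), fun p hp => by
      rw [Pi.add_apply, P.tT_add, add_add_add_comm]
      exact add_mem (h.loc p hp) (h'.loc p hp)⟩

theorem IsLift.sub (h : P.IsLift S j c u) (h' : P.IsLift S j c' u') :
    P.IsLift S j (c - c') (u + u') :=
  ⟨sub_mem h.coc h'.coc, sub_mem h.inf h'.inf, fun w hw => sub_mem (h.off w hw) (h'.off w hw),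
    fun p hp => (h.hom p hp).add (h'.hom p hp), fun p hp => by
      have := sub_mem (h.loc p hp) (h'.loc p hp)
      rwa [add_sub_add_comm, sub_eq_add_neg (P.tT _), neg_eq_of_add_eq_zero_left (P.tT_self _),
        ← P.tT_add] at this⟩

theorem isLift_of_Zi (S : Finset ℕ) (h : c ∈ P.Zi j) : P.IsLift S j c 0 := by
  obtain ⟨h1, h2, h3⟩ := P.mem_Zi.1 h
  exact ⟨h1, h2, fun w _ => h3 w, fun _ _ => a2_zero _, fun p _ => by
    rw [Pi.zero_apply, P.tT_zero, add_zero]; exact h3 _⟩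

theorem sub_cb {D : Subgroup Gam} (h : P.oc j c ∈ P.LC j D) :
    ∃ S, ∀ g ∈ D, c g - P.cb (!j) S g ∈ P.K 1 := by
  obtain ⟨S, hS⟩ := P.lift_LC h
  exact ⟨S, fun g hg => (P.om_eq_zero j _).1 (by rw [map_sub, ← hS g hg, oc_apply, sub_self])⟩

/-- A Selmer cocycle lifts to a global cocycle. -/
theorem exists_coc (F : CFT) (hc : c ∈ P.Zi j) : ∃ c' ∈ P.Coc (!j), P.oc j c' = c := by
  obtain ⟨⟨h1, h2⟩, h3, h4⟩ := P.mem_Zi.1 hc
  choose σ hσ using P.om_surj j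
  obtain ⟨d, s0, hd⟩ : ∃ d : Gam → A, Sm ⊤ d ∧ P.oc j d = c :=
    ⟨fun g => σ (c g), h1.comp σ, funext fun g => hσ _⟩
  have hd' : ∀ g, P.om j (d g) = c g := congrFun hd
  obtain ⟨z, s1, hz⟩ : ∃ z : Gam → Gam → ZMod 2, Sm2 ⊤ z ∧
      ∀ g h, (z g h).val • P.T = d g + P.act (!j) g (d h) - d (g * h) :=
    ⟨fun g h => P.bt 0 (d g + P.act (!j) g (d h) - d (g * h)),
      ((s0.left.comp₂ (P.sm2_act (!j) s0) (· + ·)).comp₂ s0.mul (· - ·)).comp (P.bt 0),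
      fun g h => (P.eq_bt ((P.om_eq_zero j _).1 (by
        rw [map_sub, map_add, P.om_act, hd', hd', hd', h2, sub_self]))).symm⟩
  have hC : C2 1 ⊤ z := ⟨s1, fun g _ h _ k _ => by
    rw [cy_one_eq, one_mul]
    refine vT_inj (P := P) (a := z h k + z g (h * k)) (b := z (g * h) k + z g h) ?_
    rw [vT_add, vT_add, ← vT_act (!j) g, hz, hz, hz, hz, map_sub, map_add, mul_assoc,
      (P.s (!j)).act_mul g h]
    abel⟩
  have spl : ∀ D, c ∈ P.LC j D → Spl 1 D z := fun D hD => by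
    obtain ⟨S, hS⟩ := sub_cb (hd ▸ hD)
    refine ⟨fun g => P.bt 0 (d g - P.cb (!j) S g),
      ((s0.comp₂ (P.cb_coc (!j) S).1 (· - ·)).comp (P.bt 0)).mono le_top, fun g hg h hh => ?_⟩
    rw [cy_one_eq, one_mul]
    refine eq_sub_of_add_eq (vT_inj (P := P) (a := z g h + P.bt 0 _) (b := P.bt 0 _ + P.bt 0 _) ?_)
    rw [vT_add, vT_add, ← vT_act (!j) g (P.bt 0 (d h - _)), hz, ← P.eq_bt (hS g hg),
      ← P.eq_bt (hS h hh), ← P.eq_bt (hS _ (mul_mem hg hh)), (P.cb_coc (!j) S).2, map_sub]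
    abel
  obtain ⟨b, b1, b2⟩ := F.abhn (H := ⊤) isOpen_univ hC (.inr ⟨rfl, spl _ h3⟩) fun w =>
    (F.zero_iff isOpen_univ (hC.mono inf_le_left)).2 (spl _ (P.LC_mono (h4 w) inf_le_right))
  refine ⟨d - P.tT b, ⟨s0.comp₂ b1 fun x (y : ZMod 2) => x - y.val • P.T, fun g h => ?_⟩,
    by rw [map_sub, hd, P.oc_tT, sub_zero]⟩
  have e := b2 g trivial h trivial
  rw [cy_one_eq, one_mul, eq_sub_iff_add_eq] at e
  have e' : (z g h + b (g * h) : ZMod 2).val • P.T = (b g + b h : ZMod 2).val • P.T :=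
    congrArg (fun a : ZMod 2 => a.val • P.T) e
  rw [vT_add, vT_add, hz] at e'
  simp only [Pi.sub_apply, map_sub, P.act_tT]
  rw [sub_add_sub_comm, show P.tT b g + P.tT b h = _ from e'.symm, tT]
  abel

theorem exists_def {D : Subgroup Gam} (hc : c ∈ P.Coc (!j)) (h : P.oc j c ∈ P.LC j D) :
    ∃ S x, B4bG D x ∧ c + P.tT x ∈ P.LC (!j) D ∧ ∀ g ∈ D, c g - P.cb (!j) S g = P.tT x g := by
  obtain ⟨S, hS⟩ := sub_cb h
  have k := sub_mem hc (P.cb_coc (!j) S)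
  have e : ∀ g ∈ D, c g - P.cb (!j) S g = P.tT (P.tp 0 (c - P.cb (!j) S)) g := fun g hg =>
    P.eq_bt (hS g hg)
  refine ⟨S, _, P.tp_hom (k.1.mono le_top) (fun g _ h _ => k.2 g h) hS, ⟨S, fun g hg => ?_⟩, e⟩
  rw [Pi.add_apply, eq_add_of_sub_eq' (e g hg)]
  exact congrFun (tT_cancel _ _) g

/-- The lift can be chosen to satisfy the local conditions outside of `S`. -/
theorem exists_lift (h : P.Lone F S) (hc : c ∈ P.Zi j) :
    ∃ c' u, P.IsLift S (!j) c' u ∧ P.oc j c' = c := by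
  obtain ⟨d, hd, rfl⟩ := exists_coc F hc
  obtain ⟨-, h3, h4⟩ := P.mem_Zi.1 hc
  obtain ⟨-, x, x1, x2, -⟩ := exists_def hd h3
  choose Q u u1 u2 u3 using fun p => exists_def hd (h4 (pq p))
  have odd : ∀ {p}, p ∉ S → p ≠ 2 := fun hp e => hp (e ▸ h.two)
  have hb : ∀ p : ℕ, ∃ b : ZMod 2, p.Prime → p ∉ S → ∀ σ ∈ Ine (pq p), u p σ = b * xi p σ :=
    fun p => by
      by_cases k : p.Prime ∧ p ∉ S
      · obtain ⟨b, hb⟩ := a2_ine ((pq_p k.1).symm ▸ odd k.2) (u1 p)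
        exact ⟨b, fun _ _ => by simpa only [pq_p k.1] using hb⟩
      · exact ⟨0, fun a b => (k ⟨a, b⟩).elim⟩
  choose b hb using hb
  obtain ⟨U, U1, -, U2⟩ := hd.1
  obtain ⟨R, hR⟩ := finite_ram U1
  have d1 : d 1 = 0 := by simpa [(P.s (!j)).act_one] using hd.2 1 1
  have u4 : ∀ p : ℕ, p.Prime → p ∉ S → p ∉ R → ∀ σ ∈ Ine (pq p), u p σ = 0 :=
    fun p hp hS hp' σ hσ => by
      have e := u3 p σ (Ine_le _ hσ)
      rw [← U2 1 trivial σ trivial (by simpa using hR _ ((pq_p hp).symm ▸ hp') hσ), d1,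
        zero_sub, neg_eq_iff_eq_neg] at e
      have e' := (h.good (!j) (pq p) ((pq_p hp).symm ▸ hS)).rigid σ hσ (Q p) (by
        rw [show (P.s (!j)).act σ (Q p) - Q p = _ from e, smul_neg, two_nsmul, neg_eq_zero]
        exact congrFun (P.tT_self _) σ)
      rw [cb, sub_eq_zero.2 e', eq_comm, neg_eq_zero] at e
      exact vT_inj (P := P) (e.trans (zero_smul ℕ _).symm)
  obtain ⟨v, v1, hv⟩ : ∃ v, B4bG ⊤ v ∧ ∀ g, v g =
      x cc * xi (-1) g + ∑ q ∈ R.filter fun q => q.Prime ∧ q ∉ S, b q * xi q g :=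
    ⟨_, ((B4bG.xi ⊤ (-1)).smul (x cc)).add (a2_sum _ b), fun _ => rfl⟩
  have hd' := add_mem hd (P.tT_coc (!j) v1)
  refine ⟨d + P.tT v, fun p => u p + v, ⟨hd', shift x2 (P.L_congr (zero_mem _) fun g hg => ?_),
    fun w hw => ?_, fun p _ => (u1 p).add (B4bG.mono v1 le_top), fun p _ => ?_⟩,
    by rw [map_add, P.oc_tT, add_zero]⟩
  · rcases mem_Dr.1 hg with rfl | rfl
    · rw [Pi.add_apply, a2_one x1, a2_one v1]; rfl
    · rw [Pi.add_apply, hv, xi_cc_neg (by norm_num), mul_one, Finset.sum_eq_zero fun q hq => by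
        rw [xi_cc (by exact_mod_cast (Finset.mem_filter.1 hq).2.1.pos), mul_zero], add_zero]
      exact CharTwo.add_self_eq_zero _
  · have e := pq_p w.prime
    have k := (u1 w.p).add (B4bG.mono v1 le_top)
    refine P.LC_conj hd' (shift (u2 w.p) ⟨k, (h.good (!j) _ (e.symm ▸ hw)).unr _ k
      fun σ hσ => ?_⟩) e
    have z : ∀ a : ℤ, ¬ (w.p : ℤ) ∣ a → xi a σ = 0 := fun a ha =>
      xi_eq_zero.2 (chi_ine (mu0_ndvd (e.symm ▸ odd hw) (e.symm ▸ ha)) hσ)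
    have z' : ∀ q ∈ R.filter fun q => q.Prime ∧ q ∉ S, q ≠ w.p → b q * xi q σ = 0 :=
      fun q hq k => by
        rw [z q fun a => k ((Nat.prime_dvd_prime_iff_eq w.prime (Finset.mem_filter.1 hq).2.1).1
          (by exact_mod_cast a)).symm, mul_zero]
    rw [Pi.add_apply, hv, z (-1) (fun a => w.prime.not_dvd_one (by exact_mod_cast dvd_neg.1 a)), mul_zero,
      zero_add]
    by_cases m : w.p ∈ R
    · rw [Finset.sum_eq_single_of_mem w.p (Finset.mem_filter.2 ⟨m, w.prime, hw⟩) z',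
        hb _ w.prime hw σ hσ]
      exact CharTwo.add_self_eq_zero _
    · rw [u4 _ w.prime hw m σ hσ, zero_add]
      exact Finset.sum_eq_zero fun q hq => z' q hq fun a => m (a ▸ (Finset.mem_filter.1 hq).1)
  · rw [P.tT_add, add_comm (P.tT (u p)), ← add_assoc, tT_cancel]
    exact u2 p

/-- The pairing does not depend on the lift. -/
theorem IsLift.pr_zero (hS : ∀ p ∈ S, p.Prime) (hl : P.IsLift S (!j) c u) (h0 : P.oc j c = 0)
    (hb : b ∈ P.Sel j) : pr F S u b = 0 := by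
  have h1 : ∀ g, c g ∈ P.K 1 := fun g => (P.om_eq_zero j _).1 (congrFun h0 g)
  have h2 : B4bG ⊤ (P.tp 0 c) := P.tp_hom hl.coc.1 (fun g _ h _ => hl.coc.2 g h) fun g _ => h1 g
  have h3 : P.tT (P.tp 0 c) = c := funext fun g => (P.eq_bt (h1 g)).symm
  have h4 := pr_add_left F (S := S) (u := fun _ => P.tp 0 c) (fun _ _ => B4bG.mono h2 le_top)
    hl.hom hb.1
  rw [P.pr_glob F hS h2 ⟨B4bG.mono h2 le_top, h3.symm ▸ hl.inf⟩
    (fun w hw => ⟨B4bG.mono h2 le_top, h3.symm ▸ hl.off w hw⟩) hb.1 hb.2.1 fun w _ => hb.2.2 w,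
    zero_add] at h4
  rw [← h4]
  refine Finset.sum_eq_zero fun p hp => P.orth_inv F
    ⟨(B4bG.mono h2 le_top).add (hl.hom p hp), ?_⟩ (hb.2.2 _)
  rw [Pi.add_apply, P.tT_add, h3]
  exact hl.loc p hp

/-- The left kernel of the pairing. -/
theorem IsLift.ker (h : P.Lone F S) (hl : P.IsLift S (!j) c u)
    (h0 : ∀ b ∈ P.Sel j, pr F S u b = 0) : ∃ c' ∈ P.Zi (!j), P.oc j c' = P.oc j c := by
  obtain ⟨v, v1, v2, v3, v4⟩ := h.pt j u hl.hom h0
  have hd := add_mem hl.coc (P.tT_coc (!j) v1)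
  refine ⟨c + P.tT v, P.mem_Zi.2 ⟨hd, add_mem hl.inf v2.2, fun w => ?_⟩,
    by rw [map_add, P.oc_tT, add_zero]⟩
  by_cases hw : w.p ∈ S
  · exact P.LC_conj hd (shift (hl.loc _ hw) (v4 _ hw)) (pq_p w.prime)
  · exact add_mem (hl.off w hw) (v3 w hw).2

end Pd

end Pool.Agent.Lib.MP_696deb_nt.QP
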