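import Pool.Agent.Lib.MP_696deb_nt.QP.A1
import Pool.Agent.Lib.MP_696deb_nt.B2.GWd

/-! The pairing is alternating. -/

set_option autoImplicit false

open scoped Classical
open Matrix Module

namespace Pool.Agent.Lib.MP_696deb_nt.QP

open Pool.Agent.Lib.MP_696deb_nt.B2

namespace A3

section alg

variable {R : Type*} [CommRing R]

theorem alg1 (a b c e f w : Fin 2 → R) (h12 : det2 (a + b - e) (b + c - f) = 0)
    (h31 : det2 (e + c - w) (a + b - e) = 0) (h32 : det2 (e + c - w) (b + c - f) = 0)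
    (hz : 2 * det2 c (a + b - e) = 0) :
    (det2 b c - det2 f (b + c - f)) + (det2 a f - det2 w (a + f - w)) =
      (det2 e c - det2 w (e + c - w)) + (det2 a b - det2 e (a + b - e)) := by
  simp only [det2, Pi.add_apply, Pi.sub_apply] at *
  linear_combination -hz - h12 + h31 - h32

theorem alg2 (x y e a1 a2 a3 : Fin 2 → R) (h1 : det2 a1 a2 = 0) (h2 : det2 a3 (x + y - e) = 0)
    (h3 : det2 a3 a1 = 0) (h4 : det2 a3 a2 = 0) (h5 : det2 (x + y - e) a1 = 0)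
    (h6 : det2 (x + y - e) a2 = 0) (h7 : 2 * det2 y a1 = 0) :
    det2 (x + a1) (y + a2) - det2 (e + a3) (x + a1 + (y + a2) - (e + a3)) =
      det2 x y - det2 e (x + y - e) + (-det2 x a1 + -det2 y a2 - -det2 e a3) := by
  simp only [det2, Pi.add_apply, Pi.sub_apply] at *
  linear_combination h1 - h2 - h3 - h4 + h5 + h6 - h7

theorem alg3 (x y e1 e2 e3 : Fin 2 → R) :
    det2 (x + e1) (y + e2) - det2 (x + y + e3) (x + e1 + (y + e2) - (x + y + e3)) =
      det2 x y + det2 (2 • e1) y + (det2 e1 e2 - det2 e3 (e1 + e2 - e3)) +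
        (-det2 x e1 + -det2 y e2 - -det2 (x + y) e3) := by
  simp only [det2, Pi.add_apply, Pi.sub_apply, Pi.smul_apply, nsmul_eq_mul]
  push_cast
  ring

theorem alg4 (p q : Fin 2 → R) (a b : ZMod 2) (h : 2 * det2 p (q - p) = 0) :
    det2 (a.val • p) (b.val • q) - det2 ((a + b).val • p) (a.val • p + b.val • q - (a + b).val • p) =
      b.val * det2 p (q - p) := by
  have h2 : ((1 : ZMod 2) + 1).val = 0 := rfl
  rcases b4b_cases a with rfl | rfl <;> rcases b4b_cases b with rfl | rfl <;>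
    simp only [zero_add, add_zero, h2, ZMod.val_zero, ZMod.val_one, zero_smul, one_smul, det2,
      Pi.add_apply, Pi.sub_apply, Pi.zero_apply, Nat.cast_zero, Nat.cast_one] at h ⊢
  · ring
  · linear_combination -h
  · ring
  · ring

end alg

variable {n : ℕ}

theorem ex_half {a : Vm (1 + n)} (h : 2 • a = 0) :
    ∃ b : Vm (1 + n), a = (2 ^ n : ZMod (2 ^ (1 + n))) • b := by
  have h1 : ∀ i, ∃ t, up n t = a i := fun i => exists_up (by
    have := congrFun h i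
    rwa [two_nsmul] at this)
  choose t ht using h1
  exact ⟨fun i => ((t i).val : ZMod (2 ^ (1 + n))), funext fun i => (ht i).symm⟩

theorem two_pow (n : ℕ) : (2 : ZMod (2 ^ (1 + n))) * 2 ^ n = 0 := by
  rw [two_mul]; exact GWa_two n

theorem det_tors (hn : 1 ≤ n) {a b : Vm (1 + n)} (ha : 2 • a = 0) (hb : 2 • b = 0) :
    det2 a b = 0 := by
  obtain ⟨a, rfl⟩ := ex_half ha
  obtain ⟨b, rfl⟩ := ex_half hb
  obtain ⟨k, rfl⟩ := Nat.exists_eq_add_of_le' hn
  simp only [det2, Pi.smul_apply, smul_eq_mul]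
  have := two_pow (k + 1)
  rw [pow_succ (2 : ZMod (2 ^ (1 + (k + 1)))) k] at this ⊢
  linear_combination (2 ^ k * (a 0 * b 1 - a 1 * b 0)) * this

theorem det_two {M : ℕ} (x : Vm M) {a : Vm M} (ha : 2 • a = 0) : 2 * det2 x a = 0 := by
  have h0 := congrFun ha 0
  have h1 := congrFun ha 1
  simp only [Pi.smul_apply, nsmul_eq_mul, Pi.zero_apply, Nat.cast_ofNat] at h0 h1
  simp only [det2]
  linear_combination x 0 * h1 - x 1 * h0

variable {A : Type} [AddCommGroup A] (s : Side A) {M : ℕ} {D : Subgroup Gam}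

theorem r_mul (g h : Gam) (v : Vm M) : s.r M (g * h) *ᵥ v = s.r M g *ᵥ (s.r M h *ᵥ v) :=
  s.inj M (by rw [← s.smul, ← s.smul, ← s.smul, s.act_mul])

theorem tors_of {v : Vm M} (h : 2 • s.emb M v = 0) : 2 • v = 0 :=
  s.inj M (by rw [map_nsmul, h, map_zero])

theorem tors_r (g : Gam) {v : Vm M} (h : 2 • v = 0) : 2 • s.r M g *ᵥ v = 0 := by
  rw [← Matrix.mulVec_smul, h, Matrix.mulVec_zero]

/-- The two-cocycle of a half of a one-cocycle. -/
noncomputable def sd (d : Gam → Vm M) (g h : Gam) : ZMod (2 ^ M) :=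
  det2 (d g) (s.r M g *ᵥ d h) - det2 (d (g * h)) (d g + s.r M g *ᵥ d h - d (g * h))

theorem sd_c2 (hn : 1 ≤ n) {d : Gam → Vm (1 + n)} (h1 : Sm ⊤ d)
    (h2 : ∀ g h, 2 • (d g + s.r (1 + n) g *ᵥ d h - d (g * h)) = 0) : C2 (1 + n) ⊤ (sd s d) := by
  refine ⟨?_, fun g _ h _ k _ => ?_⟩
  · have a1 := h1.left.comp₂ ((s.sm_r (1 + n)).left.comp₂ h1.right (· *ᵥ ·)) Prod.mk
    exact a1.comp₂ h1.mul fun p e => det2 p.1 p.2 - det2 e (p.1 + p.2 - e)
  · have t2 := tors_r s g (h2 h k)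
    have t3 := h2 (g * h) k
    rw [Matrix.mulVec_sub, Matrix.mulVec_add] at t2
    rw [r_mul] at t3
    have key := alg1 (d g) (s.r _ g *ᵥ d h) (s.r _ g *ᵥ (s.r _ h *ᵥ d k)) (d (g * h))
      (s.r _ g *ᵥ d (h * k)) (d (g * h * k)) (det_tors hn (h2 g h) t2) (det_tors hn t3 (h2 g h))
      (det_tors hn t3 t2) (det_two _ (h2 g h))
    simp only [sd]
    rw [mul_sub, ← s.det, ← s.det, Matrix.mulVec_sub, Matrix.mulVec_add, ← mul_assoc, r_mul]
    exact key

end A3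

namespace Pd

open A3

variable {A : Type} [AddCommGroup A] {P : Pd A} {S : Finset ℕ} {j : Bool}
  {c : Gam → A} {u : ℕ → Gam → ZMod 2}

theorem a3_half (P : Pd A) (x : A) : ∃ y, 2 • y = x := by
  obtain ⟨y, rfl⟩ := P.om_surj true x
  obtain ⟨z, rfl⟩ := P.om_surj (!true) y
  exact ⟨z, (P.om_om true z).symm⟩

theorem sm_cb (j : Bool) (x : A) (D : Subgroup Gam) : Sm D (P.cb j x) :=
  (((P.s j).sm x).comp (· - x)).mono le_top

/-- The local shape of the cocycle. -/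
theorem a3_loc {D : Subgroup Gam} (hD : IsClosed (D : Set Gam)) (hc : c ∈ P.Coc j) {m : ℕ}
    (hK : ∀ g, c g ∈ P.K (2 * m + 2)) {R : A} (hR : 2 • R = P.T) {v : Gam → ZMod 2}
    (hv : B4bG D v) (hl : c + P.tT v ∈ P.LC j D) {d : Gam → Vm (1 + (m + 1))} (h1 : Sm ⊤ d)
    (h2 : ∀ g, 2 • (P.s j).emb _ (d g) = c g) :
    ∃ z, Spl (1 + (m + 1)) D z ∧ ∀ g ∈ D, ∀ h ∈ D, sd (P.s j) d g h =
      z g h + (up (m + 1) (v g * P.tp (2 * m + 1) c h : ZMod 2) +
        up (m + 1) (P.tp (2 * m + 1) (if m = 0 then P.cb j R else 0) g * v h : ZMod 2)) := by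
  set s := P.s j with hs
  obtain ⟨S0, hS0⟩ := hl
  obtain ⟨S', rfl⟩ := a3_half P S0
  have hT2 : ∀ a : ℕ, 2 • a • P.T = 0 := fun a => by rw [smul_comm, P.two_T, smul_zero]
  have hcb : ∀ g ∈ D, 2 • P.cb j S' g = c g + (v g).val • P.T := fun g hg => by
    have := hS0 g hg
    rw [map_nsmul, ← smul_sub] at this
    exact this.symm
  have hdl : ∀ g, ∃ x : Vm (1 + (m + 1)), g ∈ D → s.emb _ x = P.cb j S' g := fun g => by
    by_cases hg : g ∈ D
    · obtain ⟨x, hx⟩ := s.surj (1 + (m + 1)) (P.cb j S' g) (by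
        have h3 := (P.K_even (m + 1) _).1 (hK g)
        rw [add_comm 1, pow_succ, mul_smul, hcb g hg, smul_add, h3, pow_succ, mul_smul, hT2,
          smul_zero, add_zero])
      exact ⟨x, fun _ => hx⟩
    · exact ⟨0, fun h => absurd h hg⟩
  choose dl hdl using hdl
  have hsm : Sm D dl := by
    obtain ⟨U, a1, a2, a3⟩ := sm_cb (P := P) j S' D
    exact ⟨U, a1, a2, fun g hg h hh k => s.inj _ (by rw [hdl g hg, hdl h hh, a3 g hg h hh k])⟩
  have hco : ∀ g ∈ D, ∀ h ∈ D, dl (g * h) = dl g + s.r _ g *ᵥ dl h := fun g hg h hh =>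
    s.inj _ (by
      rw [map_add, ← s.smul, hdl g hg, hdl h hh, hdl _ (mul_mem hg hh)]
      exact (P.cb_coc j S').2 g h)
  obtain ⟨ρ, hρ⟩ := s.surj (1 + (m + 1)) R (by
    rw [add_comm 1, pow_succ, mul_smul, hR, pow_succ, mul_smul, P.two_T, smul_zero])
  have hτ : s.emb _ (2 • ρ) = P.T := by rw [map_nsmul, hρ, hR]
  set a : Gam → Vm (1 + (m + 1)) := fun g => d g - (dl g + (v g).val • ρ) with ha
  have hd : ∀ g, d g = dl g + (v g).val • ρ + a g := fun g => by simp [ha]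
  have ha2 : ∀ g ∈ D, 2 • a g = 0 := fun g hg => tors_of s (by
    simp only [ha, map_sub, map_add, map_nsmul, smul_sub, smul_add]
    rw [h2, hdl g hg, hcb g hg, hρ, smul_comm, hR, add_assoc, ← two_nsmul, hT2, add_zero,
      sub_self])
  have hρ2 : ∀ g, 2 • (s.r _ g *ᵥ ρ - ρ) = 0 := fun g => tors_of s (by
    rw [map_sub, ← s.smul, hρ, smul_sub, ← map_nsmul, hR, P.act_T, sub_self])
  have hsv : Sm D fun g => dl g + (v g).val • ρ := hsm.comp₂ hv.1 fun x y => x + y.val • ρ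
  have hsa : Sm D a := (h1.mono le_top).comp₂ hsv (· - ·)
  obtain ⟨b0, b1, b2⟩ := s.iso _ D dl dl S' S' hD hdl hdl
  refine ⟨fun g h => det2 (dl g) (s.r _ g *ᵥ dl h) +
    ((-det2 (dl g) ((v g).val • ρ) + cy _ g * -det2 (dl h) ((v h).val • ρ) -
      -det2 (dl (g * h)) ((v (g * h)).val • ρ)) +
    (-det2 (dl g + (v g).val • ρ) (a g) + cy _ g * -det2 (dl h + (v h).val • ρ) (a h) -
      -det2 (dl (g * h) + (v (g * h)).val • ρ) (a (g * h)))),
    ⟨fun g => b0 g + (-det2 (dl g) ((v g).val • ρ) + -det2 (dl g + (v g).val • ρ) (a g)),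
      b1.comp₂ ((hsm.comp₂ hv.1 fun x y => -det2 x (y.val • ρ)).comp₂
        (hsv.comp₂ hsa fun x y => -det2 x y) (· + ·)) (· + ·), fun g hg h hh => ?_⟩,
    fun g hg h hh => ?_⟩
  · linear_combination b2 g hg h hh
  have hn : 1 ≤ m + 1 := Nat.le_add_left 1 m
  have ht : 2 • (dl g + (v g).val • ρ + s.r _ g *ᵥ (dl h + (v h).val • ρ) -
      (dl (g * h) + (v (g * h)).val • ρ)) = 0 := tors_of s (by
    have e1 : ∀ k ∈ D, 2 • s.emb _ (dl k + (v k).val • ρ) = c k := fun k hk => by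
      rw [map_add, map_nsmul, smul_add, hdl k hk, hcb k hk, hρ, smul_comm, hR, add_assoc,
        ← two_nsmul, hT2, add_zero]
    rw [map_sub, map_add, ← s.smul, smul_sub, smul_add, ← map_nsmul (s.act g), e1 g hg, e1 h hh,
      e1 _ (mul_mem hg hh), hc.2 g h, sub_self])
  have k2 := alg2 (dl g + (v g).val • ρ) (s.r _ g *ᵥ (dl h + (v h).val • ρ))
    (dl (g * h) + (v (g * h)).val • ρ) (a g) (s.r _ g *ᵥ a h) (a (g * h))
    (det_tors hn (ha2 g hg) (tors_r s g (ha2 h hh)))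
    (det_tors hn (ha2 _ (mul_mem hg hh)) ht) (det_tors hn (ha2 _ (mul_mem hg hh)) (ha2 g hg))
    (det_tors hn (ha2 _ (mul_mem hg hh)) (tors_r s g (ha2 h hh))) (det_tors hn ht (ha2 g hg))
    (det_tors hn ht (tors_r s g (ha2 h hh))) (det_two _ (ha2 g hg))
  have k3 := alg3 (dl g) (s.r _ g *ᵥ dl h) ((v g).val • ρ) ((v h).val • s.r _ g *ᵥ ρ)
    ((v (g * h)).val • ρ)
  have k4 := alg4 ρ (s.r _ g *ᵥ ρ) (v g) (v h) (det_two _ (hρ2 g))
  have k5 : det2 (2 • (v g).val • ρ) (s.r _ g *ᵥ dl h) =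
      up (m + 1) (v g * P.tp (2 * m + 1) c h : ZMod 2) := by
    have e1 := P.eT j (add_comm 1 (m + 1)) hτ (s.r _ g *ᵥ dl h)
    have e2 : P.bt (2 * (m + 1) + 1) (s.emb _ (s.r _ g *ᵥ dl h)) = P.tp (2 * m + 1) c h := by
      rw [← s.smul, P.bt_act, hdl h hh, show 2 * (m + 1) + 1 = 2 * m + 1 + 2 by ring, ← P.bt_two,
        hcb h hh]
      exact P.bt_add_low _ (P.K_le (by omega) (P.tT_mem v h))
    rw [e2] at e1
    rcases b4b_cases (v g) with e | e <;> rw [e]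
    · rw [zero_mul, up_zero]; simp [det2]
    · rw [one_mul, ZMod.val_one, one_smul, e1]; rfl
  have k6 : ((v h).val : ZMod (2 ^ (1 + (m + 1)))) * det2 ρ (s.r _ g *ᵥ ρ - ρ) =
      up (m + 1) (P.tp (2 * m + 1) (if m = 0 then P.cb j R else 0) g * v h : ZMod 2) := by
    rcases b4b_cases (v h) with e | e <;> rw [e]
    · rw [mul_zero, up_zero]; simp
    rw [mul_one, ZMod.val_one, Nat.cast_one, one_mul]
    obtain ⟨a', ha'⟩ := ex_half (hρ2 g)
    have e1 := P.eT j (add_comm 1 (m + 1)) hτ a'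
    have e2 : det2 ρ (s.r _ g *ᵥ ρ - ρ) = 2 ^ m * det2 (2 • ρ) a' := by
      rw [ha']
      simp only [det2, Pi.smul_apply, smul_eq_mul, nsmul_eq_mul]
      push_cast
      ring
    rw [e2, e1]
    rcases Nat.eq_zero_or_pos m with rfl | hm
    · have e3 : P.bt (2 * (0 + 1) + 1) (s.emb _ a') = P.tp (2 * 0 + 1) (P.cb j R) g := by
        rw [show 2 * (0 + 1) + 1 = 2 * 0 + 1 + 2 from rfl, ← P.bt_two, ← map_nsmul,
          show 2 • a' = s.r _ g *ᵥ ρ - ρ by
            rw [ha']; funext i; simp only [Pi.smul_apply, smul_eq_mul, nsmul_eq_mul]; norm_num,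
          map_sub, ← s.smul, hρ]
        rfl
      rw [e3, if_pos rfl, pow_zero, one_mul]
      rfl
    · obtain ⟨k, rfl⟩ := Nat.exists_eq_add_of_le' hm
      rw [if_neg (by omega), show P.tp (2 * (k + 1) + 1) 0 g = 0 from
        P.bt_eq_zero.2 (zero_mem _), up_zero, pow_succ _ k, mul_assoc, ← mul_assoc 2, two_pow,
        zero_mul, mul_zero]
  simp only [sd]
  rw [hd g, hd h, hd (g * h), Matrix.mulVec_add (s.r _ g) _ (a h), k2, mul_neg, mul_neg, ← s.det,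
    ← s.det, ← k5, ← k6, ← k4, ← hv.2 g hg h hh, Matrix.mulVec_add, Matrix.mulVec_smul,
    hco g hg h hh, k3]
  ring

theorem IsLift.alt (F : CFT) (hS : ∀ p ∈ S, p.Prime) (hl : P.IsLift S j c u) {m : ℕ}
    (hK : ∀ g, c g ∈ P.K (2 * m + 2)) {R : A} (hR : 2 • R = P.T) :
    pr F S u (P.tp (2 * m + 1) c) =
      pr F S u (P.tp (2 * m + 1) (if m = 0 then P.cb j R else 0)) := by
  have hx : ∀ x : A, ∃ y : Vm (1 + (m + 1)), x ∈ P.K (2 * m + 2) →
      2 • (P.s j).emb _ y = x := fun x => by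
    by_cases hx : x ∈ P.K (2 * m + 2)
    · obtain ⟨y, rfl⟩ := a3_half P x
      obtain ⟨v, hv⟩ := (P.s j).surj (1 + (m + 1)) y (by
        rw [add_comm 1, pow_succ, mul_smul]
        exact (P.K_even (m + 1) _).1 hx)
      exact ⟨v, fun _ => by rw [hv]⟩
    · exact ⟨0, fun h => absurd h hx⟩
  choose σ hσ using hx
  have h1 : Sm ⊤ fun g => σ (c g) := hl.coc.1.comp σ
  have h2 : ∀ g, 2 • (P.s j).emb _ (σ (c g)) = c g := fun g => hσ _ (hK g)
  have hc2 : C2 (1 + (m + 1)) ⊤ (sd (P.s j) fun g => σ (c g)) :=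
    sd_c2 _ (Nat.le_add_left 1 m) h1 fun g h => tors_of (P.s j) (by
      rw [map_sub, map_add, ← (P.s j).smul, smul_sub, smul_add, ← map_nsmul ((P.s j).act g), h2,
        h2, h2, hl.coc.2 g h, sub_self])
  have h0 : ∀ D : Subgroup Gam, IsClosed (D : Set Gam) → c ∈ P.LC j D →
      Spl (1 + (m + 1)) D (sd (P.s j) fun g => σ (c g)) := fun D hD hc => by
    obtain ⟨z, ⟨b, b1, b2⟩, hz⟩ := a3_loc hD hl.coc hK hR (v := 0)
      ⟨Sm.const 0, fun _ _ _ _ => (add_zero _).symm⟩ (by rwa [P.tT_zero, add_zero]) h1 h2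
    refine ⟨b, b1, fun g hg h hh => ?_⟩
    rw [hz g hg h hh, b2 g hg h hh, Pi.zero_apply, Pi.zero_apply, zero_mul, mul_zero, up_zero,
      add_zero, add_zero]
  have hb : B4bG ⊤ (P.tp (2 * m + 1) c) :=
    P.tp_hom hl.coc.1 (fun g _ h _ => hl.coc.2 g h) fun g _ => hK g
  have hlam : B4bG ⊤ (P.tp (2 * m + 1) (if m = 0 then P.cb j R else 0)) := by
    split_ifs with hm
    · subst hm
      refine P.tp_hom (j := j) (P.cb_coc j R).1 (fun g _ h _ => (P.cb_coc j R).2 g h) fun g _ => ?_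
      refine (P.K_even 1 _).2 ?_
      rw [pow_one, cb, smul_sub, ← map_nsmul, hR, P.act_T, sub_self]
    · exact P.tp_hom (j := j) (Sm.const 0) (fun g _ h _ => by simp) fun g _ => zero_mem _
  have hrec := recipQ F hS hc2 (h0 _ closed_Dr hl.inf) fun w hw => h0 _ (closed_Dec w) (hl.off w hw)
  have hloc : ∀ p ∈ S, F.inv (1 + (m + 1)) ⊤ (pq p) (sd (P.s j) fun g => σ (c g)) =
      up (m + 1) (b4bS F ⊤ (pq p) (u p) (P.tp (2 * m + 1) c) +
        b4bS F ⊤ (pq p) (u p) (P.tp (2 * m + 1) (if m = 0 then P.cb j R else 0)) : ZMod 2) := by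
    intro p hp
    obtain ⟨z, hz1, hz⟩ := a3_loc (closed_Dec (pq p)) hl.coc hK hR (hl.hom p hp) (hl.loc p hp) h1 h2
    have hT : Op ⊤ := isOpen_univ
    have hu : B4bG (⊤ ⊓ Dec (pq p)) (u p) := B4bG.mono (hl.hom p hp) inf_le_right
    have hb' : B4bG (⊤ ⊓ Dec (pq p)) _ := B4bG.mono hb inf_le_left
    have hlam' : B4bG (⊤ ⊓ Dec (pq p)) _ := B4bG.mono hlam inf_le_left
    have hz2 : Spl (1 + (m + 1)) (⊤ ⊓ Dec (pq p)) z := by rwa [top_inf_eq]
    have c1 := c2_up (hu.c2 hb') (m + 1)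
    have c2 := c2_up (hlam'.c2 hu) (m + 1)
    have e1 := F.add hT hz2.c2 (c1.add c2)
    rw [(F.zero_iff hT hz2.c2).2 hz2, zero_add, F.add hT c1 c2, inv_up F hT (hu.c2 hb'),
      inv_up F hT (hlam'.c2 hu), ← up_add] at e1
    rw [← b4bS_symm F hT hu hlam']
    exact (F.congr fun g hg h hh => hz g hg.2 h hh.2).trans e1
  rw [Finset.sum_congr rfl hloc, ← up_sum, up_eq_zero, Finset.sum_add_distrib] at hrec
  exact (b4b_eq hrec).symm

end Pd

end Pool.Agent.Lib.MP_696deb_nt.QP
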