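import Pool.Agent.Lib.MP_696deb_nt.QP.A2
import Pool.Agent.Lib.MP_696deb_nt.QP.A3
import Pool.Agent.Lib.MP_696deb_nt.QP.A4

/-! The growth of the Selmer groups has the parity of the first layer. -/

set_option autoImplicit false

open scoped Classical
open Matrix Module

namespace Pool.Agent.Lib.MP_696deb_nt.QP

open Pool.Agent.Lib.MP_696deb_nt.B2

namespace Pd

variable {A : Type} [AddCommGroup A] {P : Pd A} {F : CFT} {S : Finset ℕ} {j : Bool}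
  {x c : Gam → A} {u : ℕ → Gam → ZMod 2} {b : Gam → ZMod 2}

/-- The pairing of a Selmer cocycle with a character. -/
noncomputable def Lone.ct (h : P.Lone F S) (j : Bool) (x : Gam → A) (b : Gam → ZMod 2) : ZMod 2 :=
  if hx : x ∈ P.Zi j then pr F S (exists_lift h hx).choose_spec.choose b else 0

theorem Lone.ct_spec (h : P.Lone F S) (hx : x ∈ P.Zi j) :
    ∃ c u, P.IsLift S (!j) c u ∧ P.oc j c = x ∧ ∀ b, h.ct j x b = pr F S u b :=
  ⟨_, _, (exists_lift h hx).choose_spec.choose_spec.1, (exists_lift h hx).choose_spec.choose_spec.2,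
    fun _ => dif_pos hx⟩

theorem Lone.ct_eq (h : P.Lone F S) (hx : x ∈ P.Zi j) (hl : P.IsLift S (!j) c u)
    (hc : P.oc j c = x) (hb : b ∈ P.Sel j) : h.ct j x b = pr F S u b := by
  obtain ⟨c0, u0, l0, e0, k0⟩ := h.ct_spec hx
  have a := (l0.sub hl).pr_zero (F := F) h.prime (by rw [map_sub, e0, hc, sub_self]) hb
  rw [pr_add_left F l0.hom hl.hom hb.1] at a
  rw [k0, eq_neg_of_add_eq_zero_left a, ZMod.neg_eq_self_mod_two]

theorem tp_oc (P : Pd A) (j : Bool) (n : ℕ) (c : Gam → A) :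
    P.tp n (P.oc j c) = P.tp (n + 1) c := funext fun g => P.bt_om j n (c g)

/-- The descent as an abstract filtration. -/
noncomputable def Lone.fil (h : P.Lone F S) : Fil (Gam → A) (Gam → ZMod 2) where
  Z := P.Z
  Sel := P.Sel
  om := P.oc
  tp := P.tp
  ct := h.ct
  fin := h.fin
  Z_zero _ _ hx := funext fun g => (P.K_zero _).1 ((P.mem_Z.1 hx).2 g)
  Z_mono _ n _ hx := P.mem_Z.2 ⟨(P.mem_Z.1 hx).1, fun g => P.K_mono n ((P.mem_Z.1 hx).2 g)⟩
  tp_add _ _ _ hx _ hy := funext fun g => P.bt_add ((P.mem_Z.1 hx).2 g) ((P.mem_Z.1 hy).2 g)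
  tp_zero _ _ _ hx := ⟨fun k => P.mem_Z.2 ⟨(P.mem_Z.1 hx).1, fun g =>
    P.bt_eq_zero.1 (congrFun k g)⟩, fun k => funext fun g => P.bt_eq_zero.2 ((P.mem_Z.1 k).2 g)⟩
  tp_sel j x hx := by
    obtain ⟨h1, h2⟩ := P.mem_Z.1 hx
    obtain ⟨h3, h4⟩ := (P.mem_Zi.1 h1).1
    have e : P.tT (P.tp 0 x) = x := funext fun g => (P.eq_bt (h2 g)).symm
    rw [P.mem_Sel_iff (P.tp_hom h3 (fun g _ k _ => h4 g k) fun g _ => h2 g), e]
    exact h1
  tp_surj j b hb :=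
    ⟨P.tT b, P.mem_Z.2 ⟨(P.mem_Sel_iff hb.1).1 hb, P.tT_mem b⟩, P.tp_tT b⟩
  om_mem j n _ hx := P.mem_Z.2 ⟨P.oc_Zi (P.mem_Z.1 hx).1, fun g =>
    (P.K_succ j n _).1 ((P.mem_Z.1 hx).2 g)⟩
  om_tp j n x _ := P.tp_oc j n x
  ct_add j n x hx y hy b hb := by
    obtain ⟨c, u, l, e, k⟩ := h.ct_spec (P.mem_Z.1 hx).1
    obtain ⟨c', u', l', e', k'⟩ := h.ct_spec (P.mem_Z.1 hy).1
    rw [h.ct_eq (add_mem (P.mem_Z.1 hx).1 (P.mem_Z.1 hy).1) (l.add l') (by rw [map_add, e, e']) hb,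
      pr_add_left F l.hom l'.hom hb.1, k, k']
  ct_add' j n x hx b hb b' hb' := by
    obtain ⟨c, u, l, -, k⟩ := h.ct_spec (P.mem_Z.1 hx).1
    rw [k, k, k, pr_add_right F l.hom hb.1 hb'.1]
  ct_ker j n x hx := by
    obtain ⟨h1, h2⟩ := P.mem_Z.1 hx
    constructor
    · intro h0
      obtain ⟨c, u, l, e, k⟩ := h.ct_spec h1
      obtain ⟨y, hy, e'⟩ := l.ker h fun b hb => (k b).symm.trans (h0 b hb)
      refine ⟨y, P.mem_Z.2 ⟨hy, fun g => (P.K_succ j n _).2 ?_⟩, e'.trans e⟩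
      rw [← P.oc_apply, e', e]
      exact h2 g
    · rintro ⟨y, hy, e⟩ b hb
      rw [h.ct_eq h1 (isLift_of_Zi S (P.mem_Z.1 hy).1) e hb]
      exact (isLift_of_Zi S (zero_mem _)).pr_zero h.prime (map_zero _) hb
  alt j m := by
    obtain ⟨R', hR'⟩ := P.om_surj true P.T
    obtain ⟨R, rfl⟩ := P.om_surj (!true) R'
    have hR : 2 • R = P.T := (P.om_om true R).symm.trans hR'
    refine ⟨if m = 0 then P.cb (!j) R else 0, ?_, fun x hx => ?_⟩
    · split_ifs with hm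
      · subst hm
        refine P.mem_Z.2 ⟨P.cb_mem _ R, fun g => (P.K_two 0 _).2 ((P.K_zero _).2 ?_)⟩
        rw [cb, nsmul_sub, ← map_nsmul, hR, P.act_T, sub_self]
      · exact zero_mem _
    · obtain ⟨h1, h2⟩ := P.mem_Z.1 hx
      obtain ⟨c, u, l, e, k⟩ := h.ct_spec h1
      rw [k, k, P.tp_oc, ← e, P.tp_oc]
      refine l.alt F h.prime (fun g => (P.K_succ j (2 * m + 1) _).2 ?_) hR
      rw [← P.oc_apply, e]
      exact h2 g

end Pd

theorem Pd.par {A : Type} [AddCommGroup A] {P : Pd A} {F : CFT} {S : Finset ℕ} (h : P.Lone F S) :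
    (∀ j n, Finite (P.Z j n)) ∧ ∃ s C : ℕ,
    Even (s + finrank (ZMod 2) (P.Sel false) + finrank (ZMod 2) (P.Sel true)) ∧
    ∀ m, 2 ^ (s * m) ≤ Nat.card (P.Z false (2 * m)) ∧
      Nat.card (P.Z false (2 * m)) ≤ C * 2 ^ (s * m) := h.fil.par

end Pool.Agent.Lib.MP_696deb_nt.QP
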