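import Pool.Agent.Lib.MP_696deb_nt.QP.D0
import Pool.Agent.Lib.MP_696deb_nt.B6.TAa
import Pool.Agent.Lib.MP_696deb_nt.B6.TAc
import Pool.Agent.Lib.MP_696deb_nt.B6.TAf

/-! The Tate module of the curve, and places of good reduction. -/

set_option autoImplicit false

open scoped Classical
open Matrix Module

namespace Pool.Agent.Lib.MP_696deb_nt.QP

open Pool.Agent.Lib.MP_696deb_nt.B2 (Gam Plc Dec Ine Sm B4bG mred)
open Pool.Agent.B6

theorem cw_aux (D : ℤ) : (⟨0, 0, 0, -D, 0⟩ : WeierstrassCurve ℤ).Δ = 64 * D ^ 3 := by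
  simp only [WeierstrassCurve.Δ, WeierstrassCurve.b₂, WeierstrassCurve.b₄, WeierstrassCurve.b₆,
    WeierstrassCurve.b₈]
  ring

/-- The curve `y ^ 2 = x ^ 3 - D x`. -/
@[reducible] def cw (D : ℤ) (hD : D ≠ 0) : Cw := ⟨⟨0, 0, 0, -D, 0⟩, by rw [cw_aux]; positivity⟩

theorem cw_Δ (D : ℤ) (hD : D ≠ 0) : (@WZ (cw D hD)).Δ = 64 * D ^ 3 := cw_aux D

open Pool.Agent.Lib.MP_696deb_nt.Unif Real in
/-- Lattices with vanishing second invariant. -/
theorem c1_per {g₂ : ℂ} (h2 : g₂ ≠ 0) :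
    ∃ L : PeriodPair, L.g₂ = g₂ ∧ L.g₃ = 0 := by
  obtain ⟨τ, hτ⟩ := exists_E_rel (x := 0) (y := 1) zero_ne_one
  have h6 : ModularForm.E₆ τ = 0 := by simpa using hτ.symm
  have h4 : ModularForm.E₄ τ ≠ 0 := fun h4 => E_ne τ (by rw [h4, h6]; ring)
  have hπ : (π : ℂ) ≠ 0 := by exact_mod_cast Real.pi_ne_zero
  obtain ⟨c, hc⟩ := IsAlgClosed.exists_pow_nat_eq
    (4 / 3 * π ^ 4 * ModularForm.E₄ τ / g₂) (n := 4) (by norm_num)
  have hc0 : c ≠ 0 := by
    rintro rfl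
    exact div_ne_zero (mul_ne_zero (mul_ne_zero (by norm_num) (pow_ne_zero 4 hπ)) h4) h2
      (hc.symm.trans (by norm_num))
  refine ⟨pairOf τ hc0, ?_, ?_⟩
  · rw [PeriodPair.g₂, G_pairOf τ hc0 (by norm_num : 3 ≤ 4), Nat.cast_ofNat, riemannZeta_four, hc]
    field_simp
    ring
  · rw [PeriodPair.g₃, G_pairOf τ hc0 (by norm_num : 3 ≤ 6)]
    simp [h6]

open Pool.Agent.Lib.MP_696deb_nt.B2 (jC taa_int taa_ne) in
theorem c1_emb [Cw] [Fact (∃ L : PeriodPair, Shared.Weier.IsPer L (Wu.baseChange ℂ))] :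
    Nonempty Emb := by
  refine ⟨⟨taaE, fun m x y h => ?_, fun m P h => ?_, fun m k x => pmap_injective jC ?_, taa_weil⟩⟩
  · have e := congrArg (pmap jC) h
    rw [taa_spec (taa_int _) (taa_int _), taa_spec (taa_int _) (taa_int _), taa_iff, taa_int,
      taa_int, taa_int, taa_int] at e
    funext i
    fin_cases i
    exacts [e.1, e.2]
  · obtain ⟨u, hu⟩ := unU_surjective (pmap jC P)
    obtain ⟨a, b, e⟩ := PeriodPair.mem_lattice.1 (unU_eq_zero_iff.1
      ((taa_pow hu.symm m).symm.trans (by rw [h, map_zero])))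
    refine ⟨![a, b], pmap_injective jC ?_⟩
    rw [taa_spec (a := a) (b := b) rfl rfl, taaV, e, mul_div_cancel_left₀ _ (taa_ne m), hu]
  · rw [taa_pow (taa_spec (taa_int _) (taa_int _)),
      taa_spec (a := (x 0).val) (b := (x 1).val) (by simp) (by simp), pow_add (2 : ℂ)]
    congr 1
    have := taa_ne m
    have := taa_ne k
    field_simp

/-- A basis of the Tate module exists. -/
theorem exists_tb (D : ℤ) (hD : D ≠ 0) : Nonempty (@TB (cw D hD)) := by
  letI := cw D hD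
  have e : WZ = (⟨0, 0, 0, -D, 0⟩ : WeierstrassCurve ℤ) := rfl
  have h4 : WZ.c₄ = 48 * D := by
    rw [e]
    simp only [WeierstrassCurve.c₄, WeierstrassCurve.b₂, WeierstrassCurve.b₄]
    ring
  have h6 : WZ.c₆ = 0 := by
    rw [e]
    simp only [WeierstrassCurve.c₆, WeierstrassCurve.b₂, WeierstrassCurve.b₄, WeierstrassCurve.b₆]
    ring
  obtain ⟨L, h2, h3⟩ := c1_per (g₂ := 4 * D) (mul_ne_zero (by norm_num) (Int.cast_ne_zero.2 hD))
  haveI : Fact (∃ L : PeriodPair, Shared.Weier.IsPer L (Wu.baseChange ℂ)) :=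
    ⟨L, by rw [Wu_c₄, h4, h2]; push_cast; ring, by rw [Wu_c₆, h6, h3]; simp⟩
  obtain ⟨E⟩ := c1_emb
  obtain ⟨T, -⟩ := E.exists_rho
  exact ⟨T⟩

variable [Cw]

/-- The natural action. -/
noncomputable def ofTB (T : TB) : Side EE where
  act g := DistribMulAction.toAddMonoidHom EE g
  act_one := one_smul Gam
  act_mul := mul_smul
  sm := sm_pt ⊤
  emb := T.emb
  r m g := mred m (T.ρ g)
  inj := T.inj
  surj := T.surj
  smul := T.smul
  sm_r := T.sm
  det m g a b := tac_det T g a b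
  iso := T.iso

theorem ofTB_act (T : TB) (g : Gam) (x : EE) : (ofTB T).act g x = g • x := rfl

theorem c1_div (m : ℕ) (t : EE) : ∃ x, 2 ^ m • x = t := by
  induction m generalizing t with
  | zero => exact ⟨t, one_smul ℕ t⟩
  | succ m ih =>
    obtain ⟨y, hy⟩ := exists_half t
    obtain ⟨x, hx⟩ := ih y
    exact ⟨x, by rw [pow_succ', mul_smul, hx, hy]⟩

/-- A point of order two is a coboundary for a Frobenius element. -/
theorem c1_lang (T : TB) {t : EE} (h1 : 2 • t = 0) {w : Plc} (hw : w.p ≠ 2)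
    (hΔ : ¬ (w.p : ℤ) ∣ WZ.Δ) {φ : Gam} (hφ : B2.IsFrob w w.p φ) :
    ∃ (m : ℕ) (S : EE), 2 ^ m • S = 0 ∧ φ • S - S = t := by
  obtain ⟨C, hC⟩ := taf_fin hw hΔ w.prime.one_lt hφ
  let f : Vm C →+ Vm C := (mred C (T.ρ φ)).mulVecLin.toAddMonoidHom - AddMonoidHom.id _
  have hf : ∀ v, T.emb C (f v) = φ • T.emb C v - T.emb C v := fun v => by
    rw [T.smul, ← map_sub]
    rfl
  have hk : f.range.index ≤ C := by
    rw [AddSubgroup.index_range, Nat.card_eq_fintype_card, Fintype.card_subtype,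
      ← Finset.card_image_of_injective _ (T.inj C)]
    refine hC C _ fun P hP => ?_
    obtain ⟨v, hv, rfl⟩ := Finset.mem_image.1 hP
    have := hf v
    rw [(Finset.mem_filter.1 hv).2, map_zero] at this
    exact ⟨T.tors C v, (sub_eq_zero.1 this.symm)⟩
  obtain ⟨a, o, ⟨b, rfl⟩, e⟩ :=
    Nat.exists_eq_two_pow_mul_odd (AddSubgroup.index_ne_zero_of_finite (H := f.range))
  obtain ⟨x, hx⟩ := c1_div a t
  have ha : a + 1 ≤ C := by
    have := Nat.lt_two_pow_self (n := a)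
    have := Nat.le_mul_of_pos_right (2 ^ a) (show 0 < 2 * b + 1 by omega)
    omega
  obtain ⟨c, hc⟩ := Nat.exists_eq_add_of_le' ha
  obtain ⟨v, hv⟩ := T.surj C x (by
    rw [hc, pow_add, mul_smul, pow_succ', mul_smul, hx, h1, smul_zero])
  obtain ⟨s, hs⟩ := f.range.nsmul_index_mem v
  refine ⟨C, T.emb C s, T.tors C s, ?_⟩
  rw [← hf, hs, map_nsmul, hv, e, mul_comm, mul_smul, hx, add_smul, one_smul, mul_comm, mul_smul,
    h1, smul_zero, zero_add]

theorem gd_ofTB (T : TB) {t : EE} (h1 : 2 • t = 0) (h2 : ∀ g : Gam, g • t = t) {w : Plc}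
    (hw : w.p ≠ 2) (hΔ : ¬ (w.p : ℤ) ∣ WZ.Δ) : (ofTB T).Gd t w := by
  refine ⟨fun σ hσ x hx => sub_eq_zero.1 (K1_tors hw (K1_ine hΔ hσ x) (m := 1) hx),
    fun u hu h0 => ?_⟩
  obtain ⟨φ, hφ⟩ := B2.exists_frob w
  obtain ⟨m, S, hS, hS'⟩ : ∃ (m : ℕ) (S : EE), 2 ^ m • S = 0 ∧ φ • S - S = (u φ).val • t :=
    c1_lang T (by rw [smul_comm, h1, smul_zero]) hw hΔ hφ
  have ad : ∀ a b : ZMod 2, (a + b).val • t = a.val • t + b.val • t := fun a b => by
    rcases B2.b4b_cases a with rfl | rfl <;> rcases B2.b4b_cases b with rfl | rfl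
    · simp
    · simp
    · simp
    · rw [ZMod.val_one, one_smul, ← two_nsmul t, h1]
      exact zero_smul ℕ t
  have mu : ∀ g ∈ Dec w, ∀ h ∈ Dec w, (u g).val • t = g • S - S → (u h).val • t = h • S - S →
      (u (g * h)).val • t = (g * h) • S - S := fun g hg h hh a b => by
    have c := congrArg (g • ·) b
    simp only [smul_comm g, h2, smul_sub] at c
    rw [hu.2 g hg h hh, ad, a, c, mul_smul]
    abel
  have ine : ∀ σ ∈ Ine w, (u σ).val • t = σ • S - S := fun σ hσ => by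
    rw [h0 σ hσ, ZMod.val_zero, zero_smul]
    refine (K1_tors hw (K1_ine hΔ hσ S) (m := m) ?_).symm
    rw [smul_sub, smul_comm, hS, smul_zero, sub_zero]
  have pw : ∀ n : ℕ, (u (φ ^ n)).val • t = φ ^ n • S - S := fun n => by
    induction n with
    | zero => exact ine 1 (one_mem _)
    | succ n ih => exact pow_succ φ n ▸ mu _ (pow_mem hφ.1 n) _ hφ.1 ih hS'.symm
  obtain ⟨U, hU, -, sm⟩ := hu.1.comp₂ (sm_pt (Dec w) S) fun a P => a.val • t = P - S
  refine ⟨S, fun g hg => ?_⟩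
  obtain ⟨n, σ, hσ, hn⟩ := B2.dec_gen hφ hg hU
  exact (sm _ (mul_mem (pow_mem hφ.1 n) hσ.1) g hg hn.1).mp
    (mu _ (pow_mem hφ.1 n) _ hσ.1 (pw n) (ine σ hσ))

omit [Cw] in
theorem Side.Gd.map {A B : Type} [AddCommGroup A] [AddCommGroup B] {s : Side A} {t : A} {w : Plc}
    (h : s.Gd t w) (e : A ≃+ B) : (s.map e).Gd (e t) w := by
  refine ⟨fun σ hσ x hx => ?_, fun u hu h0 => ?_⟩
  · rw [Side.map_act, h.rigid σ hσ (e.symm x) (e.injective (by
      rw [map_nsmul, map_sub, e.apply_symm_apply, map_zero]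
      exact hx)), e.apply_symm_apply]
  · obtain ⟨S, hS⟩ := h.unr u hu h0
    refine ⟨e S, fun g hg => ?_⟩
    rw [Side.map_act, e.symm_apply_apply, ← map_sub, ← hS g hg, map_nsmul]

end Pool.Agent.Lib.MP_696deb_nt.QP
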