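import Pool.Agent.Lib.MP_696deb_nt.QP.C1
import Pool.Agent.Lib.MP_696deb_nt.VarChange

/-! The two actions on the points of the curve. -/

set_option autoImplicit false

open scoped Classical
open Matrix Module

namespace Pool.Agent.Lib.MP_696deb_nt.QP

open Pool.Agent.Lib.MP_696deb_nt.B2 (Qbar Gam Plc Dec Ine Sm B4bG mred rt)
open Pool.Agent.B6

/-- The scaling that leads to the curve of one side. -/
noncomputable def ro (j : Bool) : Qbar := cond j (1 - rt (-1)) 1

/-- The group of algebraic points. -/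
abbrev AD (D : ℤ) (hD : D ≠ 0) : Type := @EE (cw D hD)

/-- The two actions and the isogeny in coordinates. -/
structure Cq {D : ℤ} {hD : D ≠ 0} (P : Pd (AD D hD)) : Prop where
  act0 : ∀ g x, P.act false g x = g • x
  actx : ∀ j g x, xco (P.act j g x) * ro j ^ 2 = g (xco x * ro j ^ 2)
  acty : ∀ j g x, yco (P.act j g x) * ro j ^ 3 = g (yco x * ro j ^ 3)
  Tx : xco P.T = 0
  Ty : yco P.T = 0
  omx : ∀ j x, x ∉ P.K 1 →
    xco (P.om j x) * ro j ^ 2 * cond j 1 4 = (ro (!j) * yco x / xco x) ^ 2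
  good : ∀ j (w : Plc), ¬ (w.p : ℤ) ∣ 2 * D → (P.s j).Gd P.T w

section

open Pool.Agent.Lib.MP_696deb_nt.B2 (rt_sq rt_or)

variable {D E : ℤ} {hD : D ≠ 0} {hE : E ≠ 0}

theorem c2_WZ (hD : D ≠ 0) : @WZ (cw D hD) = ⟨0, 0, 0, -D, 0⟩ := rfl

theorem c2_ext {P Q : AD D hD} (h0 : P = 0 ↔ Q = 0) (hx : xco P = xco Q) (hy : yco P = yco Q) :
    P = Q := by
  by_cases h : P = 0
  · rw [h, h0.1 h]
  · exact @r0_ext (cw D hD) _ _ h (mt h0.2 h) hx hy

theorem c2_eqn (P : AD D hD) : yco P ^ 2 = xco P ^ 3 - D * xco P := by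
  by_cases h : P = 0
  · simp [h]
  have := @r0_eqn (cw D hD) _ h
  simp only [c2_WZ, Int.cast_zero, Int.cast_neg] at this
  linear_combination this

theorem c2_neg (P : AD D hD) : yco (-P) = -yco P := by
  by_cases h : P = 0
  · simp [h]
  have := @r0_neg (cw D hD) _ h
  simp only [c2_WZ, Int.cast_zero] at this
  linear_combination this

theorem c2_sc (hD : D ≠ 0) (hE : E ≠ 0) {u : Qbar} (h : u ^ 4 * E = D) :
    ∃ e : AD E hE ≃+ AD D hD,
      (∀ x, xco (e x) = u ^ 2 * xco x) ∧ ∀ x, yco (e x) = u ^ 3 * yco x := by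
  have hu : u ≠ 0 := by
    rintro rfl
    exact hD (by exact_mod_cast (by rw [← h]; ring : (D : Qbar) = 0))
  have v : VC (RingHom.id Qbar) ((@Wu (cw E hE)).baseChange Qbar)
      ((@Wu (cw D hD)).baseChange Qbar) u 0 0 0 := by
    refine ⟨hu, ?_, ?_, ?_, ?_, ?_⟩ <;>
      simp only [Wu_a₁, Wu_a₂, Wu_a₃, Wu_a₄, Wu_a₆, c2_WZ, RingHom.id_apply, Int.cast_zero,
        Int.cast_neg]
    · ring
    · ring
    · ring
    · linear_combination -h
    · ring
  refine ⟨AddEquiv.ofBijective v.hom ⟨v.hom_injective, ?_⟩, ?_, ?_⟩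
  · rintro (_ | ⟨X, Y, k⟩)
    · exact ⟨0, rfl⟩
    · exact v.mem_range k (x := X / u ^ 2) (y := Y / u ^ 3)
        (by rw [RingHom.id_apply]; field_simp; ring)
        (by simp only [RingHom.id_apply]; field_simp; ring)
  · rintro (_ | ⟨X, Y, k⟩)
    · exact (mul_zero _).symm
    · exact add_zero _
  · rintro (_ | ⟨X, Y, k⟩)
    · exact (mul_zero _).symm
    · change u ^ 3 * Y + u ^ 2 * 0 * X + 0 = u ^ 3 * Y
      ring

/-- The rational point of order two. -/
noncomputable def c2T (hD : D ≠ 0) : AD D hD :=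
  .some 0 0 ((@Wu_nonsingular (cw D hD) Qbar _ _ 0 0).2 (by simp [c2_WZ]))

theorem c2T_ne : c2T hD ≠ 0 := WeierstrassCurve.Affine.Point.some_ne_zero _

theorem c2T_x : xco (c2T hD) = 0 := rfl

theorem c2T_y : yco (c2T hD) = 0 := rfl

theorem c2T_eq {P : AD D hD} (h : P ≠ 0) (hx : xco P = 0) : P = c2T hD := by
  refine c2_ext (iff_of_false h c2T_ne) hx (pow_eq_zero_iff two_ne_zero |>.1 ?_)
  rw [c2_eqn, hx]
  ring

theorem c2T_smul (g : Gam) : g • c2T hD = c2T hD :=
  c2T_eq (mt (smul_eq_zero_iff_eq g).1 c2T_ne) (by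
    rw [@xco_smul (cw D hD), c2T_x, map_zero])

theorem c2T_two : 2 • c2T hD = 0 := by
  rw [two_nsmul, add_eq_zero_iff_neg_eq]
  exact c2T_eq (neg_ne_zero.2 c2T_ne) (by rw [xco_neg, c2T_x])

/-- The kernels of the powers of a homomorphism. -/
def c2K {A : Type} [AddCommGroup A] (f : A →+ A) : ℕ → AddSubgroup A
  | 0 => ⊥
  | n + 1 => (c2K f n).comap f

theorem c2K_iff {A : Type} [AddCommGroup A] {f : A →+ A} (I : A ≃+ A)
    (h : ∀ x, f (I x) = I (f x)) (n : ℕ) (x : A) : I x ∈ c2K f n ↔ x ∈ c2K f n := by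
  induction n generalizing x with
  | zero => simp [c2K]
  | succ n ih => simp only [c2K, AddSubgroup.mem_comap, h, ih]

theorem c2_gd (hD : D ≠ 0) (T : @TB (cw D hD)) {w : Plc} (h : ¬ (w.p : ℤ) ∣ 2 * D) :
    (@ofTB (cw D hD) T).Gd (c2T hD) w := by
  have hp : Prime (w.p : ℤ) := Nat.prime_iff_prime_int.1 w.prime
  refine @gd_ofTB (cw D hD) T _ c2T_two c2T_smul w (fun e => h (by simp [e])) fun k => h ?_
  rw [cw_Δ, show 64 * D ^ 3 = (2 * D) ^ 3 * 2 ^ 3 by ring] at k
  rcases hp.dvd_or_dvd k with k | k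
  · exact hp.dvd_of_dvd_pow k
  · exact (hp.dvd_of_dvd_pow k).mul_right _

theorem exists_pd (D : ℤ) (hD : D ≠ 0) : ∃ P : Pd (AD D hD), Cq P := by
  have hE : -4 * D ≠ 0 := by simpa using hD
  have hi : rt (-1) ^ 2 = -1 := by simpa using rt_sq (-1)
  have hg := rt_or (-1)
  have r1 : ro true = 1 - rt (-1) := rfl
  have r0 : ro false = 1 := rfl
  generalize rt (-1) = i at hi hg r1
  have n1 : 1 - i ≠ 0 := fun e => by
    rw [← sub_eq_zero.1 e] at hi
    norm_num at hi
  obtain ⟨I, Ix, Iy⟩ := c2_sc hD hD (u := -i) (by linear_combination (i ^ 2 - 1) * D * hi)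
  obtain ⟨ψ, px, py⟩ := c2_sc hD hE (u := 1 / (1 - i)) (by
    push_cast
    field_simp
    linear_combination (-i ^ 2 + 4 * i - 5) * hi)
  obtain ⟨T0⟩ := exists_tb D hD
  obtain ⟨T1⟩ := exists_tb _ hE
  have Ix' : ∀ x, xco (I x) = -xco x := fun x => by
    rw [Ix]; linear_combination xco x * hi
  have Iy' : ∀ x, yco (I x) = i * yco x := fun x => by
    rw [Iy]; linear_combination -i * yco x * hi
  have sx := @xco_smul (cw D hD)
  have sy := @yco_smul (cw D hD)
  have II : ∀ x, I (I x) = -x := fun x => c2_ext (by simp) (by rw [Ix', Ix', xco_neg, neg_neg])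
    (by rw [Iy', Iy', c2_neg]; linear_combination yco x * hi)
  have gI : ∀ (g : Gam) x, g i = i → g • I x = I (g • x) := fun g x e =>
    c2_ext (by simp [smul_eq_zero_iff_eq]) (by rw [sx, Ix', Ix', sx, map_neg])
      (by rw [sy, Iy', Iy', sy, map_mul, e])
  have gI' : ∀ (g : Gam) x, g i = -i → g • I x = -I (g • x) := fun g x e =>
    c2_ext (by simp [smul_eq_zero_iff_eq]) (by rw [sx, xco_neg, Ix', Ix', sx, map_neg])
      (by rw [sy, c2_neg, Iy', Iy', sy, map_mul, e, neg_mul])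
  have qx : ∀ x, xco (ψ x) * (1 - i) ^ 2 = xco x := fun x => by rw [px]; field_simp
  have qy : ∀ x, yco (ψ x) * (1 - i) ^ 3 = yco x := fun x => by rw [py]; field_simp
  have ax : ∀ (g : Gam) x, xco (ψ (g • ψ.symm x)) * (1 - i) ^ 2 = g (xco x * (1 - i) ^ 2) :=
    fun g x => by rw [qx, @xco_smul (cw _ hE), ← qx, ψ.apply_symm_apply]
  have ay : ∀ (g : Gam) x, yco (ψ (g • ψ.symm x)) * (1 - i) ^ 3 = g (yco x * (1 - i) ^ 3) :=
    fun g x => by rw [qy, @yco_smul (cw _ hE), ← qy, ψ.apply_symm_apply]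
  have a1 : ∀ (g : Gam) x, g i = i → ψ (g • ψ.symm x) = g • x := fun g x e =>
    c2_ext (by simp [smul_eq_zero_iff_eq])
      (mul_right_cancel₀ (pow_ne_zero 2 n1) (by rw [ax, sx, map_mul, map_pow, map_sub, map_one, e]))
      (mul_right_cancel₀ (pow_ne_zero 3 n1) (by rw [ay, sy, map_mul, map_pow, map_sub, map_one, e]))
  have a2 : ∀ (g : Gam) x, g i = -i → ψ (g • ψ.symm x) = -I (g • x) := fun g x e =>
    c2_ext (by simp [smul_eq_zero_iff_eq])
      (mul_right_cancel₀ (pow_ne_zero 2 n1) (by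
        rw [ax, xco_neg, Ix', sx, map_mul, map_pow, map_sub, map_one, e]
        linear_combination 2 * g (xco x) * hi))
      (mul_right_cancel₀ (pow_ne_zero 3 n1) (by
        rw [ay, c2_neg, Iy', sy, map_mul, map_pow, map_sub, map_one, e]
        linear_combination (1 + 4 * i - i ^ 2) * g (yco x) * hi))
  have pT : ψ (c2T hE) = c2T hD := c2T_eq (by simp [c2T_ne]) (by rw [px, c2T_x, mul_zero])
  have IT : I (c2T hD) = c2T hD := c2T_eq (by simp [c2T_ne]) (by rw [Ix', c2T_x, neg_zero])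
  let f : AD D hD →+ AD D hD := AddMonoidHom.id _ + I.toAddMonoidHom
  let f' : AD D hD →+ AD D hD := AddMonoidHom.id _ - I.toAddMonoidHom
  have hf : ∀ x, f x = x + I x := fun _ => rfl
  have hf' : ∀ x, f' x = x - I x := fun _ => rfl
  have ff : ∀ x, f' x = -I (f x) := fun x => by rw [hf, hf', map_add, II]; abel
  have o1 : ∀ x, f (f' x) = 2 • x := fun x => by rw [hf, hf', map_sub, II, two_nsmul]; abel
  have o2 : ∀ x, f' (f x) = 2 • x := fun x => by rw [hf', hf, map_add, II, two_nsmul]; abel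
  have k1 : ∀ x, x ∈ c2K f 1 ↔ x = 0 ∨ x = c2T hD := fun x => by
    change f x = 0 ↔ _
    rw [hf, or_iff_not_imp_left]
    refine ⟨fun e h => c2T_eq h ?_, fun e => ?_⟩
    · have := Ix' x
      rw [eq_neg_of_add_eq_zero_right e, xco_neg] at this
      linear_combination this / 2
    · by_cases h : x = 0
      · simp [h]
      · rw [e h, IT, ← two_nsmul, c2T_two]
  have line : ∀ x y : AD D hD, x ≠ 0 → y ≠ 0 → x + y ≠ 0 → xco y = -xco x →
      xco (x + y) * (2 * xco x) ^ 2 = (yco x - yco y) ^ 2 := fun x y h1 h2 h3 h4 => by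
    obtain ⟨l, ν, e1, e2, -, e3, -⟩ := @r0_line (cw D hD) _ _ h1 h2 h3
    simp only [c2_WZ, Int.cast_zero] at e3
    rw [e1, e2, h4, show xco (x + y) = l ^ 2 by linear_combination e3 - h4]
    ring
  refine ⟨{ s := fun j => cond j ((@ofTB (cw _ hE) T1).map ψ) (@ofTB (cw D hD) T0)
            om := fun j => cond j f' f
            T := c2T hD
            K := c2K f
            om_act := ?_
            om_om := ?_
            om_surj := ?_
            T_ne := c2T_ne
            act_T := ?_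
            K_zero := fun _ => Iff.rfl
            K_one := k1
            K_succ := ?_ }, fun _ _ => rfl, ?_, ?_, rfl, rfl, ?_, ?_⟩
  · rintro (_ | _) g x
    · change f (ψ (g • ψ.symm x)) = g • f x
      rw [hf, hf, smul_add]
      rcases hg g with e | e
      · rw [a1 g x e, gI g x e]
      · rw [a2 g x e, gI' g x e, map_neg, II]; abel
    · change f' (g • x) = ψ (g • ψ.symm (f' x))
      rw [hf', hf']
      rcases hg g with e | e
      · rw [a1 g _ e, smul_sub, gI g x e]
      · rw [a2 g _ e, smul_sub, gI' g x e, map_sub, map_neg, II]; abel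
  · rintro (_ | _)
    exacts [o1, o2]
  · rintro (_ | _) x <;> obtain ⟨y, rfl⟩ := @exists_half (cw D hD) x
    exacts [⟨_, o1 y⟩, ⟨_, o2 y⟩]
  · rintro (_ | _) g
    · exact c2T_smul g
    · change ψ (g • ψ.symm _) = _
      rw [← pT, ψ.symm_apply_apply, c2T_smul]
  · rintro (_ | _) n x
    · rfl
    · change f x ∈ c2K f n ↔ f' x ∈ c2K f n
      rw [ff, neg_mem_iff, c2K_iff I fun y => by rw [hf, hf, map_add]]
  · rintro (_ | _) g x
    · rw [r0, one_pow, mul_one, mul_one]
      exact sx g x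
    · rw [r1]
      exact ax g x
  · rintro (_ | _) g x
    · rw [r0, one_pow, mul_one, mul_one]
      exact sy g x
    · rw [r1]
      exact ay g x
  · intro j x (hx : x ∉ c2K f 1)
    have h0 : f x ≠ 0 := hx
    rw [k1, not_or] at hx
    have hu : xco x ≠ 0 := fun e => hx.2 (c2T_eq hx.1 e)
    cases j
    · have := line x (I x) hx.1 (by simpa using hx.1) h0 (Ix' x)
      change xco (x + I x) * ro false ^ 2 * 4 = (ro true * _ / _) ^ 2
      rw [r0, r1, div_pow, eq_div_iff (pow_ne_zero 2 hu)]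
      rw [Iy'] at this
      linear_combination this
    · have := line x (-I x) hx.1 (by simpa using hx.1) (by
        rw [← sub_eq_add_neg, ← hf', ff]; simpa using h0) (by rw [xco_neg, Ix'])
      change xco (x - I x) * ro true ^ 2 * 1 = (ro false * _ / _) ^ 2
      rw [r0, r1, div_pow, eq_div_iff (pow_ne_zero 2 hu)]
      rw [c2_neg, Iy', ← sub_eq_add_neg] at this
      linear_combination (1 - i) ^ 2 / 4 * this + (i ^ 2 - 3) / 4 * yco x ^ 2 * hi
  · rintro (_ | _) w h
    · exact c2_gd hD T0 h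
    · have hp : Prime (w.p : ℤ) := Nat.prime_iff_prime_int.1 w.prime
      have := (c2_gd hE T1 (w := w) fun k => h (by
        rw [show 2 * (-4 * D) = 2 * D * (-2 * 2) by ring] at k
        rcases hp.dvd_or_dvd k with k | k
        · exact k
        · rcases hp.dvd_or_dvd k with k | k
          · exact (dvd_neg.1 k).mul_right _
          · exact k.mul_right _)).map ψ
      rwa [pT] at this

end

end Pool.Agent.Lib.MP_696deb_nt.QP
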