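import Pool.Agent.Lib.MP_696deb_nt.B2.MU0
import Pool.Agent.Lib.MP_696deb_nt.B2.D1

/-! Definitions for the parity of the Selmer rank of a curve with a two-isogeny. -/

set_option autoImplicit false

open scoped Classical
open Matrix

namespace Pool.Agent.Lib.MP_696deb_nt.QP

open Pool.Agent.Lib.MP_696deb_nt.B2

/-- Coordinates of torsion points. -/
abbrev Vm (m : ℕ) : Type := Fin 2 → ZMod (2 ^ m)

/-- A smooth Galois action with coordinates on the torsion and a Weil pairing. -/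
structure Side (A : Type) [AddCommGroup A] where
  act : Gam → A →+ A
  act_one : ∀ x, act 1 x = x
  act_mul : ∀ g h x, act (g * h) x = act g (act h x)
  sm : ∀ x, Sm ⊤ fun g => act g x
  emb : (m : ℕ) → Vm m →+ A
  r : (m : ℕ) → Gam → Matrix (Fin 2) (Fin 2) (ZMod (2 ^ m))
  inj : ∀ m, Function.Injective (emb m)
  surj : ∀ m x, 2 ^ m • x = 0 → ∃ v, emb m v = x
  smul : ∀ m g v, act g (emb m v) = emb m (r m g *ᵥ v)
  sm_r : ∀ m, Sm ⊤ (r m)
  det : ∀ m g a b, det2 (r m g *ᵥ a) (r m g *ᵥ b) = cy m g * det2 a b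
  iso : ∀ (m : ℕ) (D : Subgroup Gam) (x y : Gam → Vm m) (S S' : A), IsClosed (D : Set Gam) →
    (∀ g ∈ D, emb m (x g) = act g S - S) → (∀ g ∈ D, emb m (y g) = act g S' - S') →
    Spl m D fun g h => det2 (x g) (r m g *ᵥ y h)

/-- The action transported along an isomorphism. -/
def Side.map {A B : Type} [AddCommGroup A] [AddCommGroup B] (s : Side A) (e : A ≃+ B) : Side B where
  act g := e.toAddMonoidHom.comp ((s.act g).comp e.symm.toAddMonoidHom)
  act_one x := by simp [s.act_one]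
  act_mul g h x := by simp [s.act_mul]
  sm x := (s.sm (e.symm x)).comp e
  emb m := e.toAddMonoidHom.comp (s.emb m)
  r := s.r
  inj m := e.injective.comp (s.inj m)
  surj m x h := by
    obtain ⟨v, hv⟩ := s.surj m (e.symm x) (by rw [← map_nsmul, h, map_zero])
    exact ⟨v, by simp [hv]⟩
  smul m g v := by simp [s.smul]
  sm_r := s.sm_r
  det := s.det
  iso m D x y S S' hD hx hy := s.iso m D x y (e.symm S) (e.symm S') hD
    (fun g hg => e.injective (by simpa using hx g hg))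
    (fun g hg => e.injective (by simpa using hy g hg))

theorem Side.map_act {A B : Type} [AddCommGroup A] [AddCommGroup B] (s : Side A) (e : A ≃+ B)
    (g : Gam) (x : B) : (s.map e).act g x = e (s.act g (e.symm x)) := rfl

/-- Places of good reduction. -/
structure Side.Gd {A : Type} [AddCommGroup A] (s : Side A) (T : A) (w : Plc) : Prop where
  rigid : ∀ σ ∈ Ine w, ∀ x, 2 • (s.act σ x - x) = 0 → s.act σ x = x
  unr : ∀ u, B4bG (Dec w) u → (∀ σ ∈ Ine w, u σ = 0) →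
    ∃ S, ∀ g ∈ Dec w, (u g).val • T = s.act g S - S

/-- Two actions on one group that are exchanged by an isogeny of degree two. -/
structure Pd (A : Type) [AddCommGroup A] where
  s : Bool → Side A
  om : Bool → A →+ A
  T : A
  K : ℕ → AddSubgroup A
  om_act : ∀ j g x, om j ((s (!j)).act g x) = (s j).act g (om j x)
  om_om : ∀ j x, om j (om (!j) x) = 2 • x
  om_surj : ∀ j, Function.Surjective (om j)
  T_ne : T ≠ 0
  act_T : ∀ j g, (s j).act g T = T
  K_zero : ∀ x, x ∈ K 0 ↔ x = 0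
  K_one : ∀ x, x ∈ K 1 ↔ x = 0 ∨ x = T
  K_succ : ∀ j n x, x ∈ K (n + 1) ↔ om j x ∈ K n

/-- A chosen place above each prime. -/
noncomputable def pq (p : ℕ) : Plc :=
  if h : p.Prime then (exists_plc h).choose else (exists_plc Nat.prime_two).choose

theorem pq_p {p : ℕ} (h : p.Prime) : (pq p).p = p := by
  rw [pq, dif_pos h]
  exact (exists_plc h).choose_spec

/-- The sum of the local symbols. -/
noncomputable def pr (F : CFT) (S : Finset ℕ) (u : ℕ → Gam → ZMod 2) (b : Gam → ZMod 2) : ZMod 2 :=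
  ∑ p ∈ S, b4bS F ⊤ (pq p) (u p) b

/-- The decomposition group of the real place. -/
noncomputable abbrev Dr : Subgroup Gam := Subgroup.zpowers cc

namespace Pd

variable {A : Type} [AddCommGroup A] (P : Pd A)

/-- The action of one side. -/
abbrev act (j : Bool) (g : Gam) : A →+ A := (P.s j).act g

/-- The top digit. -/
noncomputable def bt (n : ℕ) (x : A) : ZMod 2 := if x ∈ P.K n then 0 else 1

/-- The top digit of a cochain. -/
noncomputable def tp (n : ℕ) (c : Gam → A) (g : Gam) : ZMod 2 := P.bt n (c g)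

/-- The cochain of a quadratic character. -/
def tT (u : Gam → ZMod 2) (g : Gam) : A := (u g).val • P.T

/-- The isogeny applied to a cochain. -/
def oc (j : Bool) : (Gam → A) →+ Gam → A where
  toFun c g := P.om j (c g)
  map_zero' := funext fun _ => map_zero _
  map_add' _ _ := funext fun _ => map_add _ _ _

theorem oc_apply (j : Bool) (c : Gam → A) (g : Gam) : P.oc j c g = P.om j (c g) := rfl

theorem two_T : 2 • P.T = 0 := by
  rw [← P.om_om true, (P.K_zero _).1 ((P.K_succ _ 0 _).1 ((P.K_one _).2 (.inr rfl))), map_zero]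

theorem tT_zero : P.tT 0 = 0 := funext fun _ => zero_smul _ _

theorem tT_add (u v : Gam → ZMod 2) : P.tT (u + v) = P.tT u + P.tT v := funext fun g => by
  simp only [tT, Pi.add_apply]
  rcases b4b_cases (u g) with a | a <;> rcases b4b_cases (v g) with b | b <;> rw [a, b]
  · simp
  · simp
  · simp
  · rw [ZMod.val_one, one_smul, ← two_nsmul P.T, P.two_T]
    exact zero_smul ℕ P.T

/-- Coboundaries on a subgroup: the cochains that vanish in the cohomology of all points. -/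
def LC (j : Bool) (D : Subgroup Gam) : AddSubgroup (Gam → A) where
  carrier := {c | ∃ S, ∀ g ∈ D, c g = P.act j g S - S}
  zero_mem' := ⟨0, fun _ _ => by simp⟩
  add_mem' := fun ⟨S, h⟩ ⟨S', h'⟩ => ⟨S + S', fun g hg => by
    rw [Pi.add_apply, h g hg, h' g hg, map_add]; abel⟩
  neg_mem' := fun ⟨S, h⟩ => ⟨-S, fun g hg => by rw [Pi.neg_apply, h g hg, map_neg]; abel⟩

theorem mem_LC {j : Bool} {D : Subgroup Gam} {c : Gam → A} :
    c ∈ P.LC j D ↔ ∃ S, ∀ g ∈ D, c g = P.act j g S - S := Iff.rfl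

/-- Smooth cocycles. -/
def Coc (j : Bool) : AddSubgroup (Gam → A) where
  carrier := {c | Sm ⊤ c ∧ ∀ g h, c (g * h) = c g + P.act j g (c h)}
  zero_mem' := ⟨Sm.const 0, fun _ _ => by simp⟩
  add_mem' := fun ⟨a, h⟩ ⟨a', h'⟩ => ⟨a.comp₂ a' (· + ·), fun g k => by
    simp only [Pi.add_apply, h g k, h' g k, map_add]; abel⟩
  neg_mem' := fun ⟨a, h⟩ => ⟨a.comp (- ·), fun g k => by
    simp only [Pi.neg_apply, h g k, map_neg]; abel⟩

theorem mem_Coc {j : Bool} {c : Gam → A} :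
    c ∈ P.Coc j ↔ Sm ⊤ c ∧ ∀ g h, c (g * h) = c g + P.act j g (c h) := Iff.rfl

/-- Selmer cocycles. -/
noncomputable def Zi (j : Bool) : AddSubgroup (Gam → A) :=
  P.Coc j ⊓ (P.LC j Dr ⊓ ⨅ w : Plc, P.LC j (Dec w))

theorem mem_Zi {j : Bool} {c : Gam → A} :
    c ∈ P.Zi j ↔ c ∈ P.Coc j ∧ c ∈ P.LC j Dr ∧ ∀ w : Plc, c ∈ P.LC j (Dec w) := by
  simp only [Zi, AddSubgroup.mem_inf, AddSubgroup.mem_iInf]

/-- Selmer cocycles of bounded level. -/
noncomputable def Z (j : Bool) (n : ℕ) : AddSubgroup (Gam → A) :=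
  P.Zi j ⊓ AddSubgroup.pi Set.univ fun _ => P.K n

theorem mem_Z {j : Bool} {n : ℕ} {c : Gam → A} : c ∈ P.Z j n ↔ c ∈ P.Zi j ∧ ∀ g, c g ∈ P.K n := by
  simp only [Z, AddSubgroup.mem_inf, AddSubgroup.mem_pi, Set.mem_univ, forall_const]

/-- The characters of a subgroup that satisfy the local condition. -/
def L (j : Bool) (D : Subgroup Gam) : Submodule (ZMod 2) (Gam → ZMod 2) where
  carrier := {u | B4bG D u ∧ P.tT u ∈ P.LC j D}
  zero_mem' := ⟨⟨Sm.const 0, fun _ _ _ _ => (add_zero _).symm⟩, P.tT_zero ▸ zero_mem _⟩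
  add_mem' := fun h h' => ⟨h.1.add h'.1, P.tT_add _ _ ▸ add_mem h.2 h'.2⟩
  smul_mem' a u h := by
    rcases b4b_cases a with rfl | rfl
    · rw [zero_smul]
      exact ⟨⟨Sm.const 0, fun _ _ _ _ => (add_zero _).symm⟩, P.tT_zero ▸ zero_mem _⟩
    · rwa [one_smul]

theorem mem_L {j : Bool} {D : Subgroup Gam} {u : Gam → ZMod 2} :
    u ∈ P.L j D ↔ B4bG D u ∧ P.tT u ∈ P.LC j D := Iff.rfl

/-- The Selmer group of the isogeny. -/
noncomputable def Sel (j : Bool) : Submodule (ZMod 2) (Gam → ZMod 2) where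
  carrier := {u | B4bG ⊤ u ∧ u ∈ P.L j Dr ∧ ∀ w : Plc, u ∈ P.L j (Dec w)}
  zero_mem' := ⟨⟨Sm.const 0, fun _ _ _ _ => (add_zero _).symm⟩, zero_mem _, fun _ => zero_mem _⟩
  add_mem' := fun h h' => ⟨h.1.add h'.1, add_mem h.2.1 h'.2.1, fun w => add_mem (h.2.2 w) (h'.2.2 w)⟩
  smul_mem' a _ h := ⟨h.1.smul a, Submodule.smul_mem _ a h.2.1, fun w => Submodule.smul_mem _ a (h.2.2 w)⟩

theorem mem_Sel {j : Bool} {u : Gam → ZMod 2} :
    u ∈ P.Sel j ↔ B4bG ⊤ u ∧ u ∈ P.L j Dr ∧ ∀ w : Plc, u ∈ P.L j (Dec w) := Iff.rfl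

/-- What is needed from the first layer. -/
structure Lone (F : CFT) (S : Finset ℕ) : Prop where
  prime : ∀ p ∈ S, p.Prime
  two : 2 ∈ S
  good : ∀ j (w : Plc), w.p ∉ S → (P.s j).Gd P.T w
  fin : ∀ j, Finite (P.Sel j)
  pt : ∀ j (u : ℕ → Gam → ZMod 2), (∀ p ∈ S, B4bG (Dec (pq p)) (u p)) →
    (∀ b ∈ P.Sel j, pr F S u b = 0) → ∃ v, B4bG ⊤ v ∧ v ∈ P.L (!j) Dr ∧
      (∀ w : Plc, w.p ∉ S → v ∈ P.L (!j) (Dec w)) ∧ ∀ p ∈ S, u p + v ∈ P.L (!j) (Dec (pq p))

/-- Global cocycles that satisfy the local conditions outside of `S`, with their defects. -/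
structure IsLift (S : Finset ℕ) (j : Bool) (c : Gam → A) (u : ℕ → Gam → ZMod 2) : Prop where
  coc : c ∈ P.Coc j
  inf : c ∈ P.LC j Dr
  off : ∀ w : Plc, w.p ∉ S → c ∈ P.LC j (Dec w)
  hom : ∀ p ∈ S, B4bG (Dec (pq p)) (u p)
  loc : ∀ p ∈ S, c + P.tT (u p) ∈ P.LC j (Dec (pq p))

/-- The coefficient of the curve that carries the local points of one side. -/
def be (D : ℤ) (j : Bool) : ℤ := cond j (-D) (4 * D)

/-- The local points that are known. -/
structure Lq (D : ℤ) : Prop where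
  good : ∀ j (w : Plc), ¬ (w.p : ℤ) ∣ 2 * D → (P.s j).Gd P.T w
  tau : ∀ j, xi (be D j) ∈ P.L j ⊤
  pts : ∀ j (H : Subgroup Gam) (a : ℤ) (y : Qbar), a ≠ 0 → Fx H y →
    y ^ 2 = a * (a ^ 2 + be D j) → xi a ∈ P.L j H

end Pd

/-- The root number is one. -/
def Wp (D : ℤ) : Prop := 0 < D ↔ D % 16 = 1 ∨ D % 16 = 3 ∨ D % 16 = 11 ∨ D % 16 = 13

/-- The algebraic shape of the descent. -/
structure Fil (X Y : Type) [AddCommGroup X] [AddCommGroup Y] [Module (ZMod 2) Y] where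
  Z : Bool → ℕ → AddSubgroup X
  Sel : Bool → Submodule (ZMod 2) Y
  om : Bool → X →+ X
  tp : ℕ → X → Y
  ct : Bool → X → Y → ZMod 2
  fin : ∀ j, Finite (Sel j)
  Z_zero : ∀ j, ∀ x ∈ Z j 0, x = 0
  Z_mono : ∀ j n, Z j n ≤ Z j (n + 1)
  tp_add : ∀ j n, ∀ x ∈ Z j (n + 1), ∀ y ∈ Z j (n + 1), tp n (x + y) = tp n x + tp n y
  tp_zero : ∀ j n, ∀ x ∈ Z j (n + 1), (tp n x = 0 ↔ x ∈ Z j n)
  tp_sel : ∀ j, ∀ x ∈ Z j 1, tp 0 x ∈ Sel j
  tp_surj : ∀ j, ∀ b ∈ Sel j, ∃ x ∈ Z j 1, tp 0 x = b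
  om_mem : ∀ j n, ∀ x ∈ Z (!j) (n + 1), om j x ∈ Z j n
  om_tp : ∀ j n, ∀ x ∈ Z (!j) (n + 2), tp n (om j x) = tp (n + 1) x
  ct_add : ∀ j n, ∀ x ∈ Z j n, ∀ y ∈ Z j n, ∀ b ∈ Sel j, ct j (x + y) b = ct j x b + ct j y b
  ct_add' : ∀ j n, ∀ x ∈ Z j n, ∀ b ∈ Sel j, ∀ b' ∈ Sel j, ct j x (b + b') = ct j x b + ct j x b'
  ct_ker : ∀ j n, ∀ x ∈ Z j n, ((∀ b ∈ Sel j, ct j x b = 0) ↔ ∃ y ∈ Z (!j) (n + 1), om j y = x)
  alt : ∀ j m, ∃ y ∈ Z (!j) (2 * m + 2), ∀ x ∈ Z j (2 * m + 1),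
    ct j x (tp (2 * m) x) = ct j x (tp (2 * m) (om j y))

end Pool.Agent.Lib.MP_696deb_nt.QP
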