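import Pool.Agent.Lib.MP_696deb_nt.QP.D0

/-! Linear algebra of the first layer and the Gram matrices of the Hilbert symbol. -/

set_option autoImplicit false

open scoped Classical
open Matrix Module

namespace Pool.Agent.Lib.MP_696deb_nt.QP

open Pool.Agent.Lib.MP_696deb_nt.B2

theorem h1_perp {K V : Type} [Field K] [AddCommGroup V] [Module K V] [Module.Finite K V]
    (B : LinearMap.BilinForm K V) (hB : B.Nondegenerate) {G G' : Submodule K V}
    (h : ∀ x ∈ G, ∀ y ∈ G', B x y = 0) (d : finrank K V ≤ finrank K G + finrank K G') :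
    B.orthogonal G = G' ∧ finrank K G + finrank K G' = finrank K V := by
  have h1 : G' ≤ B.orthogonal G := fun y hy x hx => h x hx y hy
  have h2 := LinearMap.BilinForm.finrank_orthogonal hB G
  have h3 := Submodule.finrank_mono h1
  have h4 := Submodule.finrank_le G
  exact ⟨(Submodule.eq_of_le_of_finrank_le h1 (by omega)).symm, by omega⟩

theorem h1_sup {K V : Type} [Field K] [AddCommGroup V] [Module K V]
    (B : LinearMap.BilinForm K V) (G L : Submodule K V) :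
    B.orthogonal (G ⊔ L) = B.orthogonal G ⊓ B.orthogonal L := by
  refine le_antisymm (le_inf (LinearMap.BilinForm.orthogonal_le le_sup_left)
    (LinearMap.BilinForm.orthogonal_le le_sup_right)) fun x hx n hn => ?_
  obtain ⟨a, ha, b, hb, rfl⟩ := Submodule.mem_sup.1 hn
  have e1 : B a x = 0 := hx.1 a ha
  have e2 : B b x = 0 := hx.2 b hb
  change B (a + b) x = 0
  rw [map_add, LinearMap.add_apply, e1, e2, add_zero]

/-- Duality and the formula of Wiles for two pairs of orthogonal complements. -/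
theorem wiles {V : Type} [AddCommGroup V] [Module (ZMod 2) V] [Module.Finite (ZMod 2) V]
    (B : V →ₗ[ZMod 2] V →ₗ[ZMod 2] ZMod 2) (hs : ∀ x y, B x y = B y x)
    (hn : ∀ x, (∀ y, B x y = 0) → x = 0) (G L : Bool → Submodule (ZMod 2) V)
    (hG : ∀ x ∈ G false, ∀ y ∈ G true, B x y = 0) (hL : ∀ x ∈ L false, ∀ y ∈ L true, B x y = 0)
    (dG : finrank (ZMod 2) V ≤ finrank (ZMod 2) (G false) + finrank (ZMod 2) (G true))
    (dL : finrank (ZMod 2) V ≤ finrank (ZMod 2) (L false) + finrank (ZMod 2) (L true)) :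
    (∀ j x, (∀ y ∈ G j ⊓ L j, B x y = 0) → x ∈ G (!j) ⊔ L (!j)) ∧
    finrank (ZMod 2) (G false) + finrank (ZMod 2) (G true) = finrank (ZMod 2) V ∧
    finrank (ZMod 2) (L false) + finrank (ZMod 2) (L true) = finrank (ZMod 2) V ∧
    finrank (ZMod 2) ↥(G true ⊓ L true) + finrank (ZMod 2) (G false) + finrank (ZMod 2) (L false) =
      finrank (ZMod 2) V + finrank (ZMod 2) ↥(G false ⊓ L false) := by
  have hB : LinearMap.BilinForm.Nondegenerate B :=
    ⟨hn, fun x hx => hn x fun y => (hs x y).trans (hx y)⟩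
  have hR : LinearMap.BilinForm.IsRefl B := fun x y h => (hs y x).trans h
  have key : ∀ N : Bool → Submodule (ZMod 2) V, (∀ x ∈ N false, ∀ y ∈ N true, B x y = 0) →
      finrank (ZMod 2) V ≤ finrank (ZMod 2) (N false) + finrank (ZMod 2) (N true) →
      ∀ j, LinearMap.BilinForm.orthogonal B (N (!j)) = N j := fun N h d j => by
    cases j
    · exact (h1_perp B hB (G := N true) (G' := N false)
        (fun x hx y hy => (hs x y).trans (h y hy x hx)) (by omega)).1
    · exact (h1_perp B hB h d).1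
  have e : ∀ j, LinearMap.BilinForm.orthogonal B (G (!j) ⊔ L (!j)) = G j ⊓ L j := fun j => by
    rw [h1_sup, key G hG dG, key L hL dL]
  refine ⟨fun j x hx => ?_, (h1_perp B hB hG dG).2, (h1_perp B hB hL dL).2, ?_⟩
  · rw [← LinearMap.BilinForm.orthogonal_orthogonal hB hR (G (!j) ⊔ L (!j)), e]
    exact fun n hn => (hs n x).trans (hx n hn)
  · have h1 := LinearMap.BilinForm.finrank_orthogonal hB (G false ⊔ L false)
    have h2 := Submodule.finrank_sup_add_finrank_inf_eq (G false) (L false)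
    have h3 := Submodule.finrank_le (G false ⊔ L false)
    have h4 : LinearMap.BilinForm.orthogonal B (G false ⊔ L false) = G true ⊓ L true := e true
    rw [h4] at h1
    omega

/-- Coordinates at an odd place. -/
theorem odd_gram (F : CFT) {w : Plc} (hw : w.p ≠ 2) : ∃ (φ τ : Gam) (ε : ZMod 2),
    φ ∈ Dec w ∧ Gen w τ ∧
    (∀ u, B4bG (Dec w) u → u φ = 0 → u τ = 0 → ∀ g ∈ Dec w, u g = 0) ∧
    ∀ u v, B4bG (Dec w) u → B4bG (Dec w) v →
      b4bS F ⊤ w u v = u φ * v τ + u τ * v φ + ε * (u τ * v τ) := by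
  have : Fact w.p.Prime := ⟨w.prime⟩
  have hT : Op ⊤ := isOpen_univ
  obtain ⟨φ, hφ⟩ := exists_frob w
  obtain ⟨τ, hτ⟩ := exists_gen hw
  obtain ⟨a, ha⟩ := FiniteField.exists_nonsquare (F := ZMod w.p) (by rwa [ZMod.ringChar_zmod_n])
  obtain ⟨n, rfl⟩ := ZMod.intCast_surjective a
  have hn : ¬ (w.p : ℤ) ∣ n := fun e =>
    ha (by rw [(ZMod.intCast_zmod_eq_zero_iff_dvd n _).2 e]; exact IsSquare.zero)
  have hJ : jacobiSym n w.p = -1 := by
    rw [← jacobiSym.legendreSym.to_jacobiSym]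
    exact (legendreSym.eq_neg_one_iff w.p).2 ha
  have n2 := mu0_ndvd hw hn
  have p0 : (w.p : ℤ) ≠ 0 := by exact_mod_cast w.prime.ne_zero
  have nI : ∀ σ ∈ Ine w, xi n σ = 0 := fun σ hσ => xi_eq_zero.2 (chi_ine n2 hσ)
  have nφ : xi n φ = 1 := xi_eq_one.2 (Units.ext ((chi_frob n2 hφ).trans hJ))
  have nτ : xi n τ = 0 := nI τ hτ.1
  have pτ : xi w.p τ = 1 := xi_eq_one.2 hτ.2
  have dτ : τ ∈ Dec w := Ine_le w hτ.1
  have G := B4bG.xi (⊤ ⊓ Dec w)
  have snp : b4bS F ⊤ w (xi n) (xi w.p) = 1 := by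
    have h1 := F.kum (m := 1) (H := ⊤) (χ := xi n) (κ := xi w.p) (a := ((w.p : ℤ) : Qbar)) 1 hT
      le_top (Subgroup.mem_top φ)
      (by rwa [top_inf_eq, Subgroup.relIndex_self, pow_one]) (G n).1 (G n).2
      nI (kum_xi p0) (by rw [zpow_one, ← w.hV, Int.cast_natCast])
    rw [b4b_cup, nφ] at h1
    exact h1
  have spn := (b4bS_symm F hT (G n) (G w.p)).trans snp
  have snn : b4bS F ⊤ w (xi n) (xi n) = 0 := by
    have h1 := F.unit (m := 1) (H := ⊤) (w := w) (χ := xi n) (κ := xi n) (a := (n : Qbar)) hT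
      (G n).1 (G n).2 (fun σ hσ => nI σ hσ.2) (kum_xi (b4b_ne hn)) (w.V_int_eq_one.2 hn)
    rw [b4b_cup] at h1
    exact h1
  refine ⟨φ, τ, b4bS F ⊤ w (xi w.p) (xi w.p), hφ.1, hτ, fun u hu u1 u2 g hg => ?_,
    fun u v hu hv => ?_⟩
  · obtain ⟨a, b, h⟩ := hom_dec_odd hw hJ hu.1 hu.2
    rw [h τ dτ, nτ, pτ, mul_zero, zero_add, mul_one] at u2
    rw [h φ hφ.1, nφ, u2, zero_mul, add_zero, mul_one] at u1
    rw [h g hg, u1, u2, zero_mul, zero_mul, add_zero]
  · obtain ⟨a, b, h⟩ := hom_dec_odd hw hJ hu.1 hu.2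
    obtain ⟨a', b', h'⟩ := hom_dec_odd hw hJ hv.1 hv.2
    have G1 := fun (t : ZMod 2) (k : ℤ) => (G k).smul t
    have G2 := (G1 a' n).add (G1 b' w.p)
    have e : b4bS F ⊤ w u v = b4bS F ⊤ w (fun g => a * xi n g + b * xi w.p g)
        (fun g => a' * xi n g + b' * xi w.p g) :=
      F.congr fun g hg k hk => by
        change (u g * v k : ZMod 2) = _
        rw [h g hg.2, h' k hk.2]
    have lin : ∀ k : ℤ, b4bS F ⊤ w (xi k) (fun g => a' * xi n g + b' * xi w.p g) =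
        a' * b4bS F ⊤ w (xi k) (xi n) + b' * b4bS F ⊤ w (xi k) (xi w.p) := fun k => by
      rw [b4bS_add_right F hT (G k) (G1 a' n) (G1 b' w.p), b4bS_smul_right F hT (G k) (G _),
        b4bS_smul_right F hT (G k) (G _)]
    rw [e, b4bS_add_left F hT (G1 a n) (G1 b w.p) G2, b4bS_smul_left F hT (G _) G2,
      b4bS_smul_left F hT (G _) G2, lin, lin, snn, snp, spn, h φ hφ.1, h τ dτ, h' φ hφ.1,
      h' τ dτ, nφ, nτ, pτ]
    generalize b4bS F ⊤ w (xi w.p) (xi w.p) = ε, xi w.p φ = t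
    clear h h' G2 e lin
    revert a b a' b' ε t
    decide

/-- The character with given coordinates at two. -/
noncomputable def cmb (x : Fin 3 → ZMod 2) (g : Gam) : ZMod 2 :=
  x 0 * xi (-1) g + x 1 * xi 5 g + x 2 * xi 2 g

theorem cmb_hom (D : Subgroup Gam) (x : Fin 3 → ZMod 2) : B4bG D (cmb x) :=
  (((B4bG.xi D (-1)).smul (x 0)).add ((B4bG.xi D 5).smul (x 1))).add ((B4bG.xi D 2).smul (x 2))

/-- Coordinates at two. -/
theorem two_gram (F : CFT) {w : Plc} (hw : w.p = 2) : ∃ e : Fin 3 → Gam, (∀ i, e i ∈ Dec w) ∧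
    (∀ x i, cmb x (e i) = x i) ∧
    (∀ u, B4bG (Dec w) u → ∀ g ∈ Dec w, u g = cmb (fun i => u (e i)) g) ∧
    ∀ u v, B4bG (Dec w) u → B4bG (Dec w) v →
      b4bS F ⊤ w u v = u (e 0) * v (e 0) + u (e 1) * v (e 2) + u (e 2) * v (e 1) := by
  obtain ⟨e0, d0, a0, b0, c0⟩ := indep_dec_two hw 1 0 0
  obtain ⟨e1, d1, a1, b1, c1⟩ := indep_dec_two hw 0 1 0
  obtain ⟨e2, d2, a2, b2, c2⟩ := indep_dec_two hw 0 0 1
  have key : ∀ u, B4bG (Dec w) u → ∀ g ∈ Dec w,
      u g = u e0 * xi (-1) g + u e1 * xi 5 g + u e2 * xi 2 g := fun u hu g hg => by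
    obtain ⟨a, b, c, h⟩ := hom_dec_two hw hu.1 hu.2
    rw [h g hg, h e0 d0, h e1 d1, h e2 d2, a0, b0, c0, a1, b1, c1, a2, b2, c2]
    ring
  refine ⟨![e0, e1, e2], fun i => ?_, fun x i => ?_, fun u hu g hg => key u hu g hg,
    fun u v hu hv => ?_⟩
  · fin_cases i
    exacts [d0, d1, d2]
  · fin_cases i
    · change cmb x e0 = x 0
      rw [cmb, a0, b0, c0]
      ring
    · change cmb x e1 = x 1
      rw [cmb, a1, b1, c1]
      ring
    · change cmb x e2 = x 2
      rw [cmb, a2, b2, c2]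
      ring
  · refine Eq.trans (F.congr fun g hg k hk => ?_)
      (hilbert_two F (H := ⊤) isOpen_univ hw le_top (u e0) (u e1) (u e2) (v e0) (v e1) (v e2))
    change (u g * v k : ZMod 2) = _
    rw [← key u hu g hg.2, ← key v hv k hk.2]

end Pool.Agent.Lib.MP_696deb_nt.QP
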