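import Pool.Agent.Lib.MP_696deb_nt.QP.A1
import Pool.Agent.Lib.MP_696deb_nt.QP.H1

/-! The local conditions at two. -/

set_option autoImplicit false

open scoped Classical
open Matrix Module

namespace Pool.Agent.Lib.MP_696deb_nt.QP

open Pool.Agent.Lib.MP_696deb_nt.B2

/-- Squares of the field of two-adic numbers. -/
def H2Sq (k : ℕ) (n : ℤ) : Prop := n % (8 * 4 ^ k) = 4 ^ k

theorem H2Sq.root {k : ℕ} {n : ℤ} (h : H2Sq k n) {w : Plc} (hw : w.p = 2) :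
    n ≠ 0 ∧ ∃ y : Qbar, Fx (Dec w) y ∧ y ^ 2 = n := by
  have e : n = 4 ^ k * (8 * (n / (8 * 4 ^ k)) + 1) := by
    have := Int.emod_add_mul_ediv n (8 * 4 ^ k)
    rw [h] at this
    linear_combination -this
  generalize n / (8 * 4 ^ k) = s at e
  refine ⟨e ▸ mul_ne_zero (by positivity) (by omega), 2 ^ k * rt (8 * s + 1), fun g hg => ?_, ?_⟩
  · rw [map_mul, map_pow, map_ofNat, chi_eq_one.1 (chi_dec_two hw (by omega) hg)]
  · rw [mul_pow, rt_sq, e, ← pow_mul, mul_comm k, pow_mul]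
    norm_num

theorem h2_xi_pow {a : ℤ} (ha : a ≠ 0) (n : ℕ) (g : Gam) : xi (a ^ n) g = n * xi a g := by
  induction n with
  | zero => simp [xi_one]
  | succ n ih => rw [pow_succ, xi_mul (pow_ne_zero _ ha) ha, ih, Nat.cast_succ, add_one_mul]

/-- Coordinates of the local conditions at two. -/
noncomputable def Pd.h2N {A : Type} [AddCommGroup A] (P : Pd A) (w : Plc) (j : Bool) :
    Submodule (ZMod 2) (Fin 3 → ZMod 2) :=
  (P.L j (Dec w)).comap (
    { toFun := cmb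
      map_add' := fun x y => funext fun g => by simp only [cmb, Pi.add_apply]; ring
      map_smul' := fun a x => funext fun g => by
        simp only [cmb, Pi.smul_apply, smul_eq_mul, RingHom.id_apply]; ring } :
    (Fin 3 → ZMod 2) →ₗ[ZMod 2] Gam → ZMod 2)

theorem Pd.h2_cls {A : Type} [AddCommGroup A] {P : Pd A} {w : Plc} (hw : w.p = 2) {j : Bool}
    {a : ℤ} (h : xi a ∈ P.L j (Dec w)) (p q r k : ℕ) (hs : H2Sq k (a * ((-1) ^ p * 5 ^ q * 2 ^ r))) :
    ![(p : ZMod 2), q, r] ∈ P.h2N w j := by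
  obtain ⟨h0, y, h1, h2⟩ := hs.root hw
  refine P.L_congr (v := cmb _) h fun g hg => ?_
  have e : xi (a * ((-1) ^ p * 5 ^ q * 2 ^ r)) g = 0 := by
    have y0 : y ≠ 0 := fun e => h0 (Int.cast_eq_zero.1 (h2.symm.trans (by simp [e])))
    exact xi_eq_zero.2 (b1b_chi_of h2 y0 (by simpa using h1 g hg))
  rw [xi_mul (left_ne_zero_of_mul h0) (right_ne_zero_of_mul h0), xi_mul (by positivity)
    (by positivity), xi_mul (by positivity) (by positivity), h2_xi_pow (by omega),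
    h2_xi_pow (by omega), h2_xi_pow (by omega)] at e
  exact (eq_neg_of_add_eq_zero_right e).trans (ZMod.neg_eq_self_mod_two _)

theorem Pd.Lq.h2_pt {A : Type} [AddCommGroup A] {P : Pd A} {D : ℤ} (h : P.Lq D) {w : Plc}
    (hw : w.p = 2) (j : Bool) (a : ℤ) (l p q r k : ℕ) (h1 : H2Sq l (a * (a ^ 2 + Pd.be D j)))
    (hs : H2Sq k (a * ((-1) ^ p * 5 ^ q * 2 ^ r))) : ![(p : ZMod 2), q, r] ∈ P.h2N w j := by
  obtain ⟨h0, y, h2, h3⟩ := h1.root hw
  exact Pd.h2_cls hw (h.pts j _ a y (left_ne_zero_of_mul h0) h2 (by exact_mod_cast h3)) p q r k hs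

theorem Pd.Lq.h2_tau {A : Type} [AddCommGroup A] {P : Pd A} {D : ℤ} (h : P.Lq D) {w : Plc}
    (hw : w.p = 2) (j : Bool) (p q r k : ℕ)
    (hs : H2Sq k (Pd.be D j * ((-1) ^ p * 5 ^ q * 2 ^ r))) : ![(p : ZMod 2), q, r] ∈ P.h2N w j :=
  Pd.h2_cls hw (P.L_mono (h.tau j) le_top) p q r k hs

theorem h2_shape {N : Bool → Submodule (ZMod 2) (Fin 3 → ZMod 2)} (j : Bool)
    {x y z : Fin 3 → ZMod 2} (hx : x ∈ N j) (hy : y ∈ N (!j)) (hz : z ∈ N (!j))
    (h : x ≠ 0 ∧ ∀ a b : ZMod 2, a • y + b • z = 0 → a = 0 ∧ b = 0) {R : Prop} (hR : j = true ↔ R) :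
    ∃ M : Bool → Submodule (ZMod 2) (Fin 3 → ZMod 2), (∀ j, ∀ x ∈ M j, x ∈ N j) ∧
      finrank (ZMod 2) (M false) + finrank (ZMod 2) (M true) = 3 ∧
      (Even (finrank (ZMod 2) (M false)) ↔ R) := by
  have e1 := finrank_span_singleton (K := ZMod 2) h.1
  have e2 : finrank (ZMod 2) (Submodule.span (ZMod 2) (Set.range ![y, z])) = 2 :=
    finrank_span_eq_card (LinearIndependent.pair_iff.2 h.2)
  have l1 := (Submodule.span_singleton_le_iff_mem _ _).2 hx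
  have l2 : Submodule.span (ZMod 2) (Set.range ![y, z]) ≤ N (!j) :=
    Submodule.span_le.2 (by simp [Set.insert_subset_iff, hy, hz])
  cases j
  · exact ⟨fun j => cond j _ _, Bool.rec l1 l2, congrArg₂ (· + ·) e1 e2,
      (iff_of_eq (congrArg Even e1)).trans (Iff.trans (by decide) hR)⟩
  · exact ⟨fun j => cond j _ _, Bool.rec l2 l1, congrArg₂ (· + ·) e2 e1,
      (iff_of_eq (congrArg Even e2)).trans (Iff.trans (by decide) hR)⟩

theorem h2_all {N : Bool → Submodule (ZMod 2) (Fin 3 → ZMod 2)} {x y z : Fin 3 → ZMod 2}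
    (hx : x ∈ N false) (hy : y ∈ N false) (hz : z ∈ N false)
    (h : ∀ v, ∃ a b c : ZMod 2, v = a • x + b • y + c • z) {R : Prop} (hR : ¬ R) :
    ∃ M : Bool → Submodule (ZMod 2) (Fin 3 → ZMod 2), (∀ j, ∀ x ∈ M j, x ∈ N j) ∧
      finrank (ZMod 2) (M false) + finrank (ZMod 2) (M true) = 3 ∧
      (Even (finrank (ZMod 2) (M false)) ↔ R) := by
  have e : finrank (ZMod 2) (⊤ : Submodule (ZMod 2) (Fin 3 → ZMod 2)) = 3 := by simp
  refine ⟨fun j => cond j ⊥ ⊤, Bool.rec (fun v _ => ?_) (bot_le (a := N true)),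
    congrArg₂ (· + ·) e (finrank_bot _ _), (iff_of_eq (congrArg Even e)).trans
      (iff_of_false (by decide) hR)⟩
  obtain ⟨a, b, c, rfl⟩ := h v
  exact add_mem (add_mem (Submodule.smul_mem _ _ hx) (Submodule.smul_mem _ _ hy))
    (Submodule.smul_mem _ _ hz)

theorem Pd.Lq.two_tab {A : Type} [AddCommGroup A] {P : Pd A} {D : ℤ} (h : P.Lq D)
    (hD : ¬ 4 ∣ D) {w : Plc} (hw : w.p = 2) :
    ∃ M : Bool → Submodule (ZMod 2) (Fin 3 → ZMod 2),
      (∀ j, ∀ x ∈ M j, cmb x ∈ P.L j (Dec w)) ∧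
      finrank (ZMod 2) (M false) + finrank (ZMod 2) (M true) = 3 ∧
      (Even (finrank (ZMod 2) (M false)) ↔
        D % 16 = 1 ∨ D % 16 = 3 ∨ D % 16 = 11 ∨ D % 16 = 13) := by
  obtain ⟨t, e⟩ : ∃ t : ℤ, D = 16 * t + 1 ∨ D = 32 * t + 5 ∨ D = 32 * t + 21 ∨ D = 32 * t + 9 ∨
      D = 32 * t + 25 ∨ D = 16 * t + 13 ∨ D = 8 * t + 3 ∨ D = 16 * t + 7 ∨
      D = 16 * t + 15 ∨ D = 16 * t + 2 ∨ D = 16 * t + 10 ∨ D = 16 * t + 6 ∨
      D = 16 * t + 14 := by
    by_cases c1 : D % 8 = 3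
    · exact ⟨D / 8, by omega⟩
    by_cases c2 : D % 16 = 5 ∨ D % 16 = 9
    · exact ⟨D / 32, by omega⟩
    · exact ⟨D / 16, by omega⟩
  rcases e with rfl | rfl | rfl | rfl | rfl | rfl | rfl | rfl | rfl | rfl | rfl | rfl | rfl
  · refine h2_shape (N := P.h2N w) true (h.h2_tau hw true 1 0 0 0 ?_)
      (h.h2_pt hw false (-3) 0 0 1 0 0 ?_ ?_) (h.h2_pt hw false (2) 2 0 0 1 1 ?_ ?_)
      (by decide) (iff_of_true rfl (by omega)) <;>
      simp only [H2Sq, Pd.be, cond] <;> ring_nf <;> omega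
  · refine h2_shape (N := P.h2N w) false (h.h2_pt hw false (-3) 0 0 1 0 0 ?_ ?_)
      (h.h2_tau hw true 1 1 0 0 ?_) (h.h2_pt hw true (-1) 1 1 0 0 0 ?_ ?_)
      (by decide) (iff_of_false (by decide) (by omega)) <;>
      simp only [H2Sq, Pd.be, cond] <;> ring_nf <;> omega
  · refine h2_shape (N := P.h2N w) false (h.h2_pt hw false (-3) 0 0 1 0 0 ?_ ?_)
      (h.h2_tau hw true 1 1 0 0 ?_) (h.h2_pt hw true (7) 1 1 0 0 0 ?_ ?_)
      (by decide) (iff_of_false (by decide) (by omega)) <;>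
      simp only [H2Sq, Pd.be, cond] <;> ring_nf <;> omega
  · refine h2_shape (N := P.h2N w) false (h.h2_pt hw false (-3) 0 0 1 0 0 ?_ ?_)
      (h.h2_tau hw true 1 0 0 0 ?_) (h.h2_pt hw true (16 * t - 27) 2 0 1 0 0 ?_ ?_)
      (by decide) (iff_of_false (by decide) (by omega)) <;>
      simp only [H2Sq, Pd.be, cond] <;> ring_nf <;> omega
  · refine h2_shape (N := P.h2N w) false (h.h2_pt hw false (-3) 0 0 1 0 0 ?_ ?_)
      (h.h2_tau hw true 1 0 0 0 ?_) (h.h2_pt hw true (16 * t - 19) 2 0 1 0 0 ?_ ?_)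
      (by decide) (iff_of_false (by decide) (by omega)) <;>
      simp only [H2Sq, Pd.be, cond] <;> ring_nf <;> omega
  · refine h2_shape (N := P.h2N w) true (h.h2_tau hw true 1 1 0 0 ?_)
      (h.h2_pt hw false (-3) 0 0 1 0 0 ?_ ?_) (h.h2_pt hw false (-2) 2 1 0 1 1 ?_ ?_)
      (by decide) (iff_of_true rfl (by omega)) <;>
      simp only [H2Sq, Pd.be, cond] <;> ring_nf <;> omega
  · refine h2_shape (N := P.h2N w) true (h.h2_tau hw true 0 1 0 0 ?_)
      (h.h2_pt hw false (-3) 0 0 1 0 0 ?_ ?_) (h.h2_tau hw false 1 1 0 1 ?_)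
      (by decide) (iff_of_true rfl (by omega)) <;>
      simp only [H2Sq, Pd.be, cond] <;> ring_nf <;> omega
  · refine h2_all (N := P.h2N w) (h.h2_pt hw false (-3) 0 0 1 0 0 ?_ ?_)
      (h.h2_tau hw false 1 0 0 1 ?_) (h.h2_pt hw false (2 - 16 * t) 3 0 0 1 1 ?_ ?_)
      (by decide) (by omega) <;>
      simp only [H2Sq, Pd.be, cond] <;> ring_nf <;> omega
  · refine h2_all (N := P.h2N w) (h.h2_pt hw false (-3) 0 0 1 0 0 ?_ ?_)
      (h.h2_tau hw false 1 0 0 1 ?_) (h.h2_pt hw false (10 - 16 * t) 3 0 1 1 1 ?_ ?_)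
      (by decide) (by omega) <;>
      simp only [H2Sq, Pd.be, cond] <;> ring_nf <;> omega
  · refine h2_shape (N := P.h2N w) false (h.h2_tau hw false 0 0 1 2 ?_)
      (h.h2_pt hw true (-1) 0 1 0 0 0 ?_ ?_) (h.h2_tau hw true 1 0 1 1 ?_)
      (by decide) (iff_of_false (by decide) (by omega)) <;>
      simp only [H2Sq, Pd.be, cond] <;> ring_nf <;> omega
  · refine h2_shape (N := P.h2N w) false (h.h2_tau hw false 0 1 1 2 ?_)
      (h.h2_pt hw true (-1) 0 1 0 0 0 ?_ ?_) (h.h2_tau hw true 1 1 1 1 ?_)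
      (by decide) (iff_of_false (by decide) (by omega)) <;>
      simp only [H2Sq, Pd.be, cond] <;> ring_nf <;> omega
  · refine h2_shape (N := P.h2N w) false (h.h2_tau hw false 1 1 1 2 ?_)
      (h.h2_pt hw true (3) 0 1 1 0 0 ?_ ?_) (h.h2_tau hw true 0 1 1 1 ?_)
      (by decide) (iff_of_false (by decide) (by omega)) <;>
      simp only [H2Sq, Pd.be, cond] <;> ring_nf <;> omega
  · refine h2_shape (N := P.h2N w) false (h.h2_tau hw false 1 0 1 2 ?_)
      (h.h2_pt hw true (3) 0 1 1 0 0 ?_ ?_) (h.h2_tau hw true 0 0 1 1 ?_)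
      (by decide) (iff_of_false (by decide) (by omega)) <;>
      simp only [H2Sq, Pd.be, cond] <;> ring_nf <;> omega

end Pool.Agent.Lib.MP_696deb_nt.QP
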